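import Pool.Agent.Helper1x.CL.TopStm

/-!
# Sub-lemmas T1, T2, T7, T8 for the gadget
-/

namespace H1CL

open MvPolynomial

section

variable {K S : Type} [Fintype K] [CommRing S]

lemma top_apply (p : MvPolynomial K S) :
    top p = coeff (Finsupp.equivFunOnFinite.symm (1 : K → ℕ)) p := rfl

/-- the coefficient of the all-ones monomial in a product of variables `∏ p, X (f p)` -/
lemma top_prod_X {P : Type} [Fintype P] (f : P → K) (a : S) [Decidable (Function.Bijective f)] :
    top (C a * ∏ p, (X (f p) : MvPolynomial K S)) = if Function.Bijective f then a else 0 := by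
  classical
  have h1 : (∏ p, (X (f p) : MvPolynomial K S)) = monomial (∑ p, Finsupp.single (f p) 1) 1 := by
    simp only [X, monomial_sum_one]
  rw [h1, C_mul_monomial, mul_one, top_apply, coeff_monomial]
  congr 1
  rw [eq_iff_iff]
  have h2 : ∀ x, (∑ p, Finsupp.single (f p) 1 : K →₀ ℕ) x
      = (Finset.univ.filter (fun p => f p = x)).card := by
    intro x
    rw [Finsupp.finsetSum_apply]
    simp only [Finsupp.single_apply]
    rw [Finset.sum_boole]
    simp
  constructor
  · intro h
    have h3 : ∀ x, (Finset.univ.filter (fun p => f p = x)).card = 1 := by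
      intro x
      rw [← h2 x, h]
      rfl
    refine ⟨fun p p' hpp => ?_, fun x => ?_⟩
    · obtain ⟨b, hb⟩ := Finset.card_eq_one.1 (h3 (f p))
      have e1 : p ∈ Finset.univ.filter (fun p' => f p' = f p) := by simp
      have e2 : p' ∈ Finset.univ.filter (fun p' => f p' = f p) := by simp [hpp]
      rw [hb, Finset.mem_singleton] at e1 e2
      rw [e1, e2]
    · obtain ⟨b, hb⟩ := Finset.card_eq_one.1 (h3 x)
      have e1 : b ∈ Finset.univ.filter (fun p => f p = x) := by rw [hb]; simp
      exact ⟨b, (Finset.mem_filter.1 e1).2⟩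
  · rintro ⟨hi, hs⟩
    ext x
    rw [h2 x]
    obtain ⟨p, rfl⟩ := hs x
    show _ = 1
    rw [Finset.card_eq_one]
    refine ⟨p, ?_⟩
    ext p'
    simp only [Finset.mem_filter, Finset.mem_univ, true_and, Finset.mem_singleton]
    exact ⟨fun h => hi h, fun h => by rw [h]⟩

end

/-- T1 -/
theorem top1 : StmTop1 := by
  intro r K S _ _ _ _ _ M
  classical
  rw [Finset.prod_univ_sum]
  simp only [Fintype.piFinset_univ]
  rw [map_sum]
  have h1 : ∀ f : r → K, top (∏ i, (C (M i (f i)) * X (f i) : MvPolynomial K S))
      = if Function.Bijective f then ∏ i, M i (f i) else 0 := by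
    intro f
    rw [Finset.prod_mul_distrib, ← map_prod, top_prod_X]
  simp_rw [h1]
  rw [← Finset.sum_filter]
  unfold rperm
  refine Finset.sum_bij' (fun f hf => Equiv.ofBijective f (Finset.mem_filter.1 hf).2)
    (fun σ _ => (σ : r → K)) ?_ ?_ ?_ ?_ ?_
  · intro f hf; exact Finset.mem_univ _
  · intro σ _; rw [Finset.mem_filter]; exact ⟨Finset.mem_univ _, σ.bijective⟩
  · intro f hf; rfl
  · intro σ _; ext; rfl
  · intro f hf; rfl

/-- T7 -/
theorem top7 : StmTop7 := by
  intro P K S _ _ _ q e he
  classical
  unfold Function.Injective at he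
  push Not at he
  obtain ⟨p, p', hpp, hne⟩ := he
  have h1 : (∏ x, (X (e x) : MvPolynomial K S))
      = X (e p) * X (e p) * ∏ x ∈ (Finset.univ.erase p).erase p', X (e x) := by
    rw [← Finset.mul_prod_erase Finset.univ (fun x => (X (e x) : MvPolynomial K S))
      (Finset.mem_univ p), ← Finset.mul_prod_erase (Finset.univ.erase p) (fun x => (X (e x) :
        MvPolynomial K S)) (Finset.mem_erase.2 ⟨hne.symm, Finset.mem_univ p'⟩), hpp]
    ring
  rw [h1, top_apply]
  have h2 : q * (X (e p) * X (e p) * ∏ x ∈ (Finset.univ.erase p).erase p', X (e x))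
      = (q * ∏ x ∈ (Finset.univ.erase p).erase p', X (e x)) * monomial (Finsupp.single (e p) 2) 1 := by
    rw [← X_pow_eq_monomial]
    ring
  rw [h2, coeff_mul_monomial', if_neg]
  intro hle
  have := hle (e p)
  simp at this

/-- T2 -/
theorem top2 : StmTop2 := by
  intro K D S _ _ _ p
  classical
  induction p using MvPolynomial.induction_on' with
  | monomial s a => ?_
  | add p q hp hq => rw [map_add, map_add, map_add, map_add, hp, hq]
  have h1 : sumAlgEquiv S K D (monomial s a)
      = monomial (Finsupp.equivFunOnFinite.symm (fun x : K => s (Sum.inl x)))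
          (monomial (Finsupp.equivFunOnFinite.symm (fun y : D => s (Sum.inr y))) a) := by
    have e1 : (monomial s a : MvPolynomial (K ⊕ D) S) = C a * ∏ x, X x ^ s x := by
      rw [monomial_eq, Finsupp.prod_fintype _ _ (fun x => pow_zero _)]
    have e2 : (monomial (Finsupp.equivFunOnFinite.symm (fun y : D => s (Sum.inr y))) a :
        MvPolynomial D S) = C a * ∏ y, X y ^ s (Sum.inr y) := by
      rw [monomial_eq, Finsupp.prod_fintype _ _ (fun x => pow_zero _)]
      rfl
    have e3 : ∀ b : MvPolynomial D S,
        (monomial (Finsupp.equivFunOnFinite.symm (fun x : K => s (Sum.inl x))) b :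
        MvPolynomial K (MvPolynomial D S)) = C b * ∏ x, X x ^ s (Sum.inl x) := by
      intro b
      rw [monomial_eq, Finsupp.prod_fintype _ _ (fun x => pow_zero _)]
      rfl
    rw [e1, e3, e2, map_mul, map_prod, Fintype.prod_sum_type]
    simp only [map_pow, sumAlgEquiv_X_inl, sumAlgEquiv_X_inr, sumAlgEquiv_C_inl, map_mul,
      map_prod]
    ring
  rw [h1]
  simp only [top_apply, coeff_monomial]
  by_cases h : s = Finsupp.equivFunOnFinite.symm (1 : K ⊕ D → ℕ)
  · rw [if_pos h, if_pos, coeff_monomial, if_pos]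
    · rw [h]; rfl
    · rw [h]; rfl
  · rw [if_neg h]
    by_cases hK : Finsupp.equivFunOnFinite.symm (fun x : K => s (Sum.inl x))
        = Finsupp.equivFunOnFinite.symm (1 : K → ℕ)
    · rw [if_pos hK, coeff_monomial, if_neg]
      intro hD
      apply h
      ext x
      rcases x with x | y
      · exact DFunLike.congr_fun hK x
      · exact DFunLike.congr_fun hD y
    · rw [if_neg hK, coeff_zero]

/-- T8 -/
theorem top8 : StmTop8 := by
  intro P K S _ _ _ _ _ e he a
  rw [Finset.prod_univ_sum]
  simp only [Fintype.piFinset_univ]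
  rw [Finset.mul_sum, map_sum]
  set N : Finset K := Finset.univ.filter (fun x => ∀ p, e p ≠ x) with hN
  have h1 : ∀ f : P → K, top ((∏ x ∈ N, X x) * ∏ p, (C (a p (f p)) * X (f p) : MvPolynomial K S))
      = if Function.Bijective (Sum.elim (fun x : N => x.1) f) then ∏ p, a p (f p) else 0 := by
    intro f
    rw [Finset.prod_mul_distrib, ← map_prod, ← top_prod_X (Sum.elim (fun x : N => x.1) f)
      (∏ p, a p (f p)), Fintype.prod_sum_type]
    simp only [Sum.elim_inl, Sum.elim_inr]
    rw [Finset.prod_coe_sort N (fun x => (X x : MvPolynomial K S))]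
    congr 1
    ring
  simp_rw [h1]
  rw [← Finset.sum_filter]
  symm
  refine Finset.sum_bij (fun ρ _ => fun p => e (ρ p)) ?_ ?_ ?_ ?_
  · intro ρ _
    rw [Finset.mem_filter]
    refine ⟨Finset.mem_univ _, ?_, ?_⟩
    · rintro (x | p) (y | p') h
      · simp only [Sum.elim_inl] at h
        rw [Subtype.ext h]
      · simp only [Sum.elim_inl, Sum.elim_inr] at h
        exact absurd h.symm ((Finset.mem_filter.1 x.2).2 _)
      · simp only [Sum.elim_inl, Sum.elim_inr] at h
        exact absurd h ((Finset.mem_filter.1 y.2).2 _)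
      · simp only [Sum.elim_inr] at h
        rw [ρ.injective (he h)]
    · intro x
      by_cases hx : ∀ p, e p ≠ x
      · exact ⟨Sum.inl ⟨x, Finset.mem_filter.2 ⟨Finset.mem_univ _, hx⟩⟩, rfl⟩
      · push Not at hx
        obtain ⟨p, hp⟩ := hx
        exact ⟨Sum.inr (ρ.symm p), by simp [hp]⟩
  · intro ρ _ ρ' _ h
    ext p
    have := congrFun h p
    exact he this
  · intro f hf
    have hbij := (Finset.mem_filter.1 hf).2
    have h2 : ∀ p, ∃ p', e p' = f p := by
      intro p
      by_contra hcon
      push Not at hcon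
      have h3 : Sum.elim (fun x : N => x.1) f (Sum.inl ⟨f p, Finset.mem_filter.2
        ⟨Finset.mem_univ _, hcon⟩⟩) = Sum.elim (fun x : N => x.1) f (Sum.inr p) := rfl
      exact absurd (hbij.1 h3) (by simp)
    choose ρ hρ using h2
    have hinj : Function.Injective ρ := by
      intro p p' h
      have h3 : f p = f p' := by rw [← hρ p, ← hρ p', h]
      have h4 : Sum.elim (fun x : N => x.1) f (Sum.inr p)
          = Sum.elim (fun x : N => x.1) f (Sum.inr p') := h3
      exact Sum.inr_injective (hbij.1 h4)
    refine ⟨Equiv.ofBijective ρ ((Finite.injective_iff_bijective).1 hinj), Finset.mem_univ _, ?_⟩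
    funext p
    exact hρ p
  · intro ρ _
    rfl

end H1CL
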