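import Pool.Agent.Helper1x.CL.TopStm

/-!
# The sub-lemmas T3, T4, T5, T6 of the gadget
-/

namespace H1CL

open MvPolynomial Finset

/-- `top` is a coefficient. -/
theorem tb_top_apply {K S : Type} [Fintype K] [CommRing S] (p : MvPolynomial K S) :
    top p = coeff (Finsupp.equivFunOnFinite.symm (1 : K → ℕ)) p := rfl

/-- Products of univariate polynomials in the different variables. -/
theorem tb_coeff_prod {K S : Type} [Fintype K] [CommRing S] (N : ℕ) (c : K → ℕ → S)
    (m : K → ℕ) (hm : ∀ x, m x < N) :
    coeff (Finsupp.equivFunOnFinite.symm m) (∏ x, ∑ j ∈ range N, C (c x j) * X x ^ j) =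
      ∏ x, c x (m x) := by
  classical
  rw [Finset.prod_univ_sum, coeff_sum]
  have h : ∀ φ : K → ℕ, (∏ x, C (c x (φ x)) * X x ^ φ x : MvPolynomial K S) =
      monomial (Finsupp.equivFunOnFinite.symm φ) (∏ x, c x (φ x)) := by
    intro φ
    rw [Finset.prod_mul_distrib, ← map_prod, monomial_eq]
    congr 1
    rw [Finsupp.prod_fintype _ _ (fun i => pow_zero _)]
    rfl
  simp only [h, coeff_monomial]
  rw [Finset.sum_eq_single m]
  · rw [if_pos rfl]
  · intro φ _ hφ
    rw [if_neg]
    intro h'
    exact hφ (Finsupp.equivFunOnFinite.symm.injective h')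
  · intro h'
    exact absurd (Fintype.mem_piFinset.2 fun x => mem_range.2 (hm x)) h'

theorem top3 : StmTop3 := by
  intro K S _ _ a b c
  have h : ∀ x : K, ((X x + C (a x)) * (X x + C (b x)) * (X x + C (c x)) : MvPolynomial K S) =
      ∑ j ∈ range 4, C ((fun x j => if j = 0 then a x * b x * c x else if j = 1 then
        a x * b x + a x * c x + b x * c x else if j = 2 then a x + b x + c x else 1) x j) *
        X x ^ j := by
    intro x
    simp only [Finset.sum_range_succ, Finset.sum_range_zero]
    norm_num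
    ring
  rw [tb_top_apply, Finset.prod_congr rfl fun x _ => h x, tb_coeff_prod 4 _ _ (fun x => by simp)]
  simp

theorem top6 : StmTop6 := by
  classical
  intro P K S _ _ _ _ u v e he
  have h1 : (∏ p, X (e p) : MvPolynomial K S) =
      ∏ x, (if ∃ p, e p = x then X x else 1) := by
    rw [Finset.prod_ite, Finset.prod_const_one, mul_one]
    rw [show (univ.filter fun x => ∃ p, e p = x) = univ.map ⟨e, he⟩ by ext x; simp]
    rw [Finset.prod_map]
    rfl
  rw [h1, ← Finset.prod_mul_distrib]
  have h : ∀ x : K, ((C (u x) - (C (v x) + X x) ^ 2) * (if ∃ p, e p = x then X x else 1) :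
      MvPolynomial K S) = ∑ j ∈ range 4, C ((fun x j => if ∃ p, e p = x then
        (if j = 0 then 0 else if j = 1 then u x - v x ^ 2 else if j = 2 then -2 * v x else -1)
        else (if j = 0 then u x - v x ^ 2 else if j = 1 then -2 * v x else
          if j = 2 then -1 else 0)) x j) * X x ^ j := by
    intro x
    have two2 : (-2 * v x : S) = -(v x + v x) := by ring
    by_cases hx : ∃ p, e p = x
    · simp only [Finset.sum_range_succ, Finset.sum_range_zero, if_pos hx, two2]
      norm_num
      ring
    · simp only [Finset.sum_range_succ, Finset.sum_range_zero, if_neg hx, two2]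
      norm_num
      ring
  rw [tb_top_apply, Finset.prod_congr rfl fun x _ => h x, tb_coeff_prod 4 _ _ (fun x => by simp)]
  have h2 : ∀ x : K, (if ∃ p, e p = x then (if (1 : K → ℕ) x = 0 then (0 : S) else if
      (1 : K → ℕ) x = 1 then u x - v x ^ 2 else if (1 : K → ℕ) x = 2 then -2 * v x else -1)
        else (if (1 : K → ℕ) x = 0 then u x - v x ^ 2 else if (1 : K → ℕ) x = 1 then -2 * v x
          else if (1 : K → ℕ) x = 2 then -1 else 0)) =
      (if ∀ p, e p ≠ x then -2 * v x else 1) * (if ∃ p, e p = x then u x - v x ^ 2 else 1) := by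
    intro x
    by_cases hx : ∃ p, e p = x
    · have hx' : ¬ ∀ p, e p ≠ x := fun h => by obtain ⟨p, hp⟩ := hx; exact h p hp
      rw [if_pos hx, if_neg hx', if_pos hx]
      simp
    · have hx' : ∀ p, e p ≠ x := fun p hp => hx ⟨p, hp⟩
      rw [if_neg hx, if_pos hx', if_neg hx]
      simp
  rw [Finset.prod_congr rfl fun x _ => h2 x, Finset.prod_mul_distrib, Finset.prod_ite,
    Finset.prod_const_one, mul_one]
  congr 1
  rw [Finset.prod_ite, Finset.prod_const_one, mul_one]
  rw [show (univ.filter fun x => ∃ p, e p = x) = univ.map ⟨e, he⟩ by ext x; simp]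
  rw [Finset.prod_map]
  rfl

/-- The all-ones coefficient of the powers of `X_1 + … + X_m`. -/
theorem tb_pow {K S : Type} [Fintype K] [CommRing S] (m : ℕ) :
    top ((∑ i, X i : MvPolynomial K S) ^ m) =
      if m = Fintype.card K then (m.factorial : S) else 0 := by
  classical
  have h1 : (∑ i, X i : MvPolynomial K S) = ∑ i, (1 : K → S) i • X i := by simp
  have hsupp : (Finsupp.equivFunOnFinite.symm (1 : K → ℕ)).support = univ := by
    ext x; simp
  have hs : (Finsupp.equivFunOnFinite.symm (1 : K → ℕ)).sum (fun _ m => m) = Fintype.card K := by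
    rw [Finsupp.sum, hsupp]
    simp
  rw [tb_top_apply, h1, coeff_linearCombination_X_pow_of_fintype, hs]
  by_cases hm : m = Fintype.card K
  · rw [if_pos hm.symm, if_pos hm]
    have hmul : (Finsupp.equivFunOnFinite.symm (1 : K → ℕ)).multinomial = m.factorial := by
      rw [Finsupp.multinomial_eq, hsupp, Nat.multinomial]
      simp [hm]
    rw [hmul]
    simp
  · rw [if_neg (fun h => hm h.symm), if_neg hm]

/-- The all-ones coefficient of a polynomial in `X_1 + … + X_m`. -/
theorem tb_eval {K S : Type} [Fintype K] [CommRing S] (Q : Polynomial S) :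
    top (Q.eval₂ C (∑ i, X i : MvPolynomial K S)) =
      Q.coeff (Fintype.card K) * ((Fintype.card K).factorial : S) := by
  classical
  rw [Polynomial.eval₂_eq_sum, Polynomial.sum, map_sum]
  have h : ∀ m, top (C (Q.coeff m) * (∑ i, X i : MvPolynomial K S) ^ m) =
      if m = Fintype.card K then Q.coeff m * (m.factorial : S) else 0 := by
    intro m
    rw [← smul_eq_C_mul, map_smul, tb_pow, smul_eq_mul]
    split_ifs <;> simp
  simp only [h]
  rw [Finset.sum_ite_eq']
  split_ifs with h1
  · rfl
  · rw [Polynomial.notMem_support_iff.1 h1, zero_mul]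

theorem top5 : StmTop5 := by
  classical
  intro P S _ _ t ht a b
  have h : (∏ p, (C (a p) * (∑ i : Fin t, X i) + C (b p)) : MvPolynomial (Fin t) S) =
      (∏ p, (Polynomial.C (a p) * Polynomial.X + Polynomial.C (b p))).eval₂ C
        (∑ i : Fin t, X i) := by
    rw [Polynomial.eval₂_finsetProd]
    refine Finset.prod_congr rfl fun p _ => ?_
    simp [Polynomial.eval₂_add, Polynomial.eval₂_mul]
  rw [h, tb_eval, Fintype.card_fin, mul_comm]
  congr 1
  have h2 := Polynomial.coeff_prod_of_natDegree_le (s := (univ : Finset P))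
    (fun p => (Polynomial.C (a p) * Polynomial.X + Polynomial.C (b p))) 1
    (fun p _ => Polynomial.natDegree_linear_le)
  rw [Finset.card_univ, ht, mul_one] at h2
  rw [h2]
  refine Finset.prod_congr rfl fun p _ => ?_
  simp

/-- `x ^ k - y ^ k` is the product of the `x - ζ ^ i y`, over every `ℂ`-algebra. -/
theorem tb_cyclo {R : Type} [CommRing R] [Algebra ℂ R] {k : ℕ} (hk : 1 ≤ k) {ζ : ℂ}
    (hζ : IsPrimitiveRoot ζ k) (x y : R) :
    ∏ i : Fin k, (x - algebraMap ℂ R (ζ ^ (i : ℕ)) * y) = x ^ k - y ^ k := by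
  have hζ' : IsPrimitiveRoot (Polynomial.C ζ) k := hζ.map_of_injective Polynomial.C_injective
  have h := X_pow_sub_C_eq_prod hζ' (α := (Polynomial.X : Polynomial ℂ))
    (a := Polynomial.X ^ k) (by omega) rfl
  have h2 := congrArg (Polynomial.eval₂ (Polynomial.aeval (R := ℂ) y).toRingHom x) h
  rw [Polynomial.eval₂_finsetProd] at h2
  simp only [Polynomial.eval₂_sub, Polynomial.eval₂_pow, Polynomial.eval₂_X,
    Polynomial.eval₂_C] at h2
  rw [← Finset.prod_range (fun i => x - algebraMap ℂ R (ζ ^ i) * y)]
  simpa using h2.symm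

theorem top4 : StmTop4 := by
  classical
  intro k hk ζ hζ G S _ _ _ _ Γ
  have h : ∀ g : G, (∏ i : Fin k, ((∑ b : Fin (k * (Fintype.card G - 1)), X b)
        - C (algebraMap ℂ S (ζ ^ (i : ℕ)) * Γ g)) :
        MvPolynomial (Fin (k * (Fintype.card G - 1))) S) =
      (Polynomial.X - Polynomial.C (Γ g ^ k)).eval₂ C
        ((∑ b : Fin (k * (Fintype.card G - 1)), X b) ^ k) := by
    intro g
    rw [Polynomial.eval₂_sub, Polynomial.eval₂_X, Polynomial.eval₂_C, map_pow,
      ← tb_cyclo hk hζ]
    refine Finset.prod_congr rfl fun i _ => ?_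
    rw [map_mul]
    rfl
  rw [Finset.prod_congr rfl fun g _ => h g, ← Polynomial.eval₂_finsetProd]
  set Q : Polynomial S := ∏ g, (Polynomial.X - Polynomial.C (Γ g ^ k)) with hQ
  have h3 : Q.eval₂ C ((∑ b : Fin (k * (Fintype.card G - 1)), X b :
      MvPolynomial (Fin (k * (Fintype.card G - 1))) S) ^ k) =
      (Polynomial.expand S k Q).eval₂ C (∑ b, X b) := by
    rw [Polynomial.expand_eq_comp_X_pow, Polynomial.eval₂_comp]
    simp
  rw [h3, tb_eval, Fintype.card_fin, Polynomial.coeff_expand_mul' (by omega)]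
  have h4 := Polynomial.prod_X_sub_C_coeff_card_pred (univ : Finset G) (fun g => Γ g ^ k)
    (by rw [Finset.card_univ]; exact Fintype.card_pos)
  rw [Finset.card_univ] at h4
  rw [hQ, h4]
  ring

end H1CL
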