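import Pool.Agent.Helper1x.CL.Gadget
import Pool.Agent.Helper1x.CL.TopA
import Pool.Agent.Helper1x.CL.TopB

/-!
# `StmGadget` (assembly by helper56, T1, T2, T7, T8 by helper1, T3..T6 by helper58)
-/

namespace H1CL

theorem gadget : StmGadget := gadget_of top1 top2 top3 top4 top5 top6 top7 top8

end H1CL
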