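import Pool.Agent.Helper1x.CL.Stm

/-!
# Job CRIT: nondegenerate critical points of sums of elementary symmetric polynomials
-/

namespace H1CL

namespace Crit

open MvPolynomial Finset

set_option linter.unusedSectionVars false
set_option linter.unusedVariables false

variable {G V : Type} [Fintype G] [DecidableEq G] [Fintype V] [DecidableEq V]

/-- Elementary symmetric polynomial of degree `k` in the variables `(g, w)`, `w ∈ S`. -/
noncomputable def E (g : G) (S : Finset V) (k : ℕ) : MvPolynomial (G × V) ℂ :=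
  ∑ s ∈ powersetCard k S, ∏ w ∈ s, X (g, w)

lemma E_insert (g : G) {S : Finset V} {v : V} (hv : v ∉ S) (k : ℕ) :
    E g (insert v S) (k + 1) = E g S (k + 1) + X (g, v) * E g S k := by
  unfold E
  rw [← Nat.succ_eq_add_one, powersetCard_succ_insert hv, sum_union, sum_image, mul_sum]
  · congr 1
    refine sum_congr rfl fun s hs => ?_
    rw [prod_insert]
    exact fun h => hv ((mem_powersetCard.1 hs).1 h)
  · intro s hs s' hs' h
    have h1 : v ∉ s := fun h => hv ((mem_powersetCard.1 hs).1 h)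
    have h2 : v ∉ s' := fun h => hv ((mem_powersetCard.1 hs').1 h)
    have := congrArg (fun t => t.erase v) h
    simpa [erase_insert h1, erase_insert h2] using this
  · rw [disjoint_left]
    intro s hs hs'
    obtain ⟨s', _, rfl⟩ := mem_image.1 hs'
    exact hv ((mem_powersetCard.1 hs).1 (mem_insert_self _ _))

lemma pderiv_prod_zero (g g' : G) (v : V) (s : Finset V) (h : ∀ w ∈ s, (g, w) ≠ (g', v)) :
    pderiv (g', v) (∏ w ∈ s, X (g, w) : MvPolynomial (G × V) ℂ) = 0 := by
  induction s using Finset.induction_on with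
  | empty => simp
  | insert a s ha ih =>
    rw [prod_insert ha, Derivation.leibniz, pderiv_X_of_ne (h a (mem_insert_self _ _)),
      ih fun w hw' => h w (mem_insert_of_mem hw')]
    simp

lemma pderiv_E_zero (g g' : G) (v : V) (S : Finset V) (k : ℕ) (h : g' ≠ g ∨ v ∉ S) :
    pderiv (g', v) (E g S k) = 0 := by
  unfold E
  rw [map_sum]
  refine sum_eq_zero fun s hs => pderiv_prod_zero g g' v s ?_
  intro w hw heq
  rw [Prod.mk.injEq] at heq
  rcases h with h | h
  · exact h heq.1.symm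
  · exact h (heq.2 ▸ (mem_powersetCard.1 hs).1 hw)

lemma pderiv_E (g : G) (v : V) (S : Finset V) (k : ℕ) (h : v ∈ S) :
    pderiv (g, v) (E g S (k + 1)) = E g (S.erase v) k := by
  conv_lhs => rw [← insert_erase h]
  rw [E_insert g (notMem_erase v S), map_add, Derivation.leibniz,
    pderiv_E_zero g g v _ _ (Or.inr (notMem_erase v S)),
    pderiv_E_zero g g v _ _ (Or.inr (notMem_erase v S)), pderiv_X_self]
  simp

lemma eval_E (g : G) (S : Finset V) (k : ℕ) (y : G × V → ℂ) :
    eval y (E g S k)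
      = (∏ w ∈ S, (1 + Polynomial.C (y (g, w)) * Polynomial.X)).coeff k := by
  rw [prod_one_add, Polynomial.finsetSum_coeff]
  unfold E
  rw [map_sum, powersetCard_eq_filter, sum_filter]
  refine sum_congr rfl fun s _ => ?_
  rw [prod_mul_distrib, prod_const, ← map_prod, Polynomial.coeff_C_mul_X_pow, map_prod]
  simp only [eval_X, eq_comm]

/-- All embeddings against all subsets. -/
lemma sum_emb (g : G) (k : ℕ) :
    (∑ τ : Fin k ↪ V, ∏ i, X (g, τ i) : MvPolynomial (G × V) ℂ)
      = (k.factorial : MvPolynomial (G × V) ℂ) * E g univ k := by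
  have hmaps : ∀ τ ∈ (univ : Finset (Fin k ↪ V)),
      (univ : Finset (Fin k)).map τ ∈ powersetCard k (univ : Finset V) := by
    intro τ _
    rw [mem_powersetCard]
    exact ⟨subset_univ _, by simp⟩
  rw [← sum_fiberwise_of_maps_to hmaps]
  unfold E
  rw [mul_sum]
  refine sum_congr rfl fun s hs => ?_
  have hcs : s.card = k := (mem_powersetCard.1 hs).2
  have h1 : ∀ τ ∈ (univ : Finset (Fin k ↪ V)).filter (fun τ => (univ : Finset (Fin k)).map τ = s),
      (∏ i, X (g, τ i) : MvPolynomial (G × V) ℂ) = ∏ w ∈ s, X (g, w) := by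
    intro τ hτ
    rw [← (mem_filter.1 hτ).2, prod_map]
  rw [sum_congr rfl h1, sum_const, nsmul_eq_mul]
  congr 2
  have h2 : ((univ : Finset (Fin k ↪ V)).filter
      (fun τ => (univ : Finset (Fin k)).map τ = s)).card
      = Fintype.card (Fin k ↪ s) := by
    rw [← Fintype.card_coe]
    refine Fintype.card_congr ?_
    refine ⟨fun τ => ⟨fun i => ⟨τ.1 i, ?_⟩, ?_⟩, fun ρ => ⟨ρ.trans (Function.Embedding.subtype _), ?_⟩,
      ?_, ?_⟩
    · have := mem_map_of_mem τ.1 (mem_univ i)
      rw [(mem_filter.1 τ.2).2] at this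
      exact this
    · intro i j hij
      exact τ.1.injective (by simpa using hij)
    · rw [mem_filter]
      refine ⟨mem_univ _, ?_⟩
      apply eq_of_subset_of_card_le
      · intro w hw
        obtain ⟨i, _, rfl⟩ := mem_map.1 hw
        exact (ρ i).2
      · simp [hcs]
    · intro τ
      ext i
      rfl
    · intro ρ
      ext i
      rfl
  rw [h2, Fintype.card_embedding_eq]
  simp [hcs, Nat.descFactorial_self]

/-- The polynomial of the statement. -/
noncomputable def F (q : ℕ) (G V : Type) [Fintype G] [Fintype V] [DecidableEq V] :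
    MvPolynomial (G × V) ℂ :=
  ∑ g : G, ∑ τ : Fin (q + 1) ↪ V, ∏ i, X (g, τ i)

lemma F_eq (q : ℕ) : F q G V
    = ((q + 1).factorial : MvPolynomial (G × V) ℂ) * ∑ g : G, E g univ (q + 1) := by
  unfold F
  simp_rw [sum_emb, mul_sum]

lemma pderiv_F (q : ℕ) (g : G) (v : V) : pderiv (g, v) (F q G V)
    = ((q + 1).factorial : MvPolynomial (G × V) ℂ) * E g (univ.erase v) q := by
  rw [F_eq, ← map_natCast (C : ℂ →+* MvPolynomial (G × V) ℂ), pderiv_C_mul, map_sum]
  congr 1
  rw [sum_eq_single g]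
  · exact pderiv_E g v univ q (mem_univ _)
  · intro g' _ hg'
    exact pderiv_E_zero g' g v _ _ (Or.inl hg'.symm)
  · simp

lemma pderiv_pderiv_F (q : ℕ) (hq : 1 ≤ q) (g g' : G) (v v' : V) :
    pderiv (g, v) (pderiv (g', v') (F q G V))
    = if g = g' ∧ v ≠ v' then
        ((q + 1).factorial : MvPolynomial (G × V) ℂ) * E g ((univ.erase v').erase v) (q - 1)
      else 0 := by
  obtain ⟨q, rfl⟩ : ∃ q', q = q' + 1 := ⟨q - 1, by omega⟩
  rw [pderiv_F, ← map_natCast (C : ℂ →+* MvPolynomial (G × V) ℂ), pderiv_C_mul]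
  split_ifs with h
  · obtain ⟨rfl, hv⟩ := h
    congr 1
    rw [pderiv_E g v _ q (by simp [hv])]
    rfl
  · rw [pderiv_E_zero, mul_zero]
    by_cases hg : g = g'
    · right
      have : v = v' := by
        by_contra hv
        exact h ⟨hg, hv⟩
      simp [this]
    · exact Or.inl hg

/-- The geometric sum `(1 - (-T)^q) / (1 + z T)` for `z^q = 1`. -/
noncomputable def R (q : ℕ) (z : ℂ) : Polynomial ℂ :=
  ∑ j ∈ range q, (Polynomial.C (-z) * Polynomial.X) ^ j

lemma R_mul (q : ℕ) (z : ℂ) (hz : z ^ q = 1) :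
    (1 + Polynomial.C z * Polynomial.X) * R q z = 1 - (-Polynomial.X) ^ q := by
  have h := mul_neg_geom_sum (Polynomial.C (-z) * Polynomial.X) q
  have h1 : (1 - Polynomial.C (-z) * Polynomial.X : Polynomial ℂ)
      = 1 + Polynomial.C z * Polynomial.X := by
    rw [map_neg]; ring
  rw [h1] at h
  unfold R
  rw [h]
  have : (Polynomial.C (-z) * Polynomial.X : Polynomial ℂ) = Polynomial.C z * -Polynomial.X := by
    rw [map_neg]; ring
  rw [this, mul_pow, ← map_pow, hz, map_one, one_mul]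

lemma R_coeff (q : ℕ) (z : ℂ) (j : ℕ) : (R q z).coeff j = if j < q then (-z) ^ j else 0 := by
  unfold R
  rw [Polynomial.finsetSum_coeff]
  simp_rw [mul_pow, ← map_pow, Polynomial.coeff_C_mul_X_pow]
  rw [sum_ite_eq]
  simp

lemma N_ne (q : ℕ) (hq : 1 ≤ q) : (1 - (-Polynomial.X) ^ q : Polynomial ℂ) ≠ 0 := by
  intro h
  have := congrArg (fun p => Polynomial.eval 0 p) h
  simp [show q ≠ 0 by omega] at this

lemma lin_ne (z : ℂ) : (1 + Polynomial.C z * Polynomial.X : Polynomial ℂ) ≠ 0 := by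
  intro h
  have := congrArg (fun p => Polynomial.eval 0 p) h
  simp at this

/-- `∏_{r} (1 + ζ^r T) = 1 - (-T)^q`. -/
lemma prod_roots (q : ℕ) (hq : 1 ≤ q) (ζ : ℂ) (hζ : IsPrimitiveRoot ζ q) :
    ∏ r : Fin q, (1 + Polynomial.C (ζ ^ (r : ℕ)) * Polynomial.X)
      = 1 - (-Polynomial.X) ^ q := by
  have hζ' : IsPrimitiveRoot (Polynomial.C ζ) q := hζ.map_of_injective Polynomial.C_injective
  have h := hζ'.pow_sub_pow_eq_prod_sub_mul (1 : Polynomial ℂ) (-Polynomial.X) hq
  rw [one_pow] at h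
  rw [h]
  have himg : (univ : Finset (Fin q)).image (fun r : Fin q => (Polynomial.C ζ) ^ (r : ℕ))
      = Polynomial.nthRootsFinset q (1 : Polynomial ℂ) := by
    apply eq_of_subset_of_card_le
    · intro x hx
      obtain ⟨r, _, rfl⟩ := mem_image.1 hx
      rw [Polynomial.mem_nthRootsFinset hq]
      rw [← pow_mul, mul_comm, pow_mul, hζ'.pow_eq_one, one_pow]
    · rw [hζ'.card_nthRootsFinset, card_image_of_injective]
      · simp
      · intro a b hab
        exact Fin.ext (hζ'.pow_inj a.2 b.2 hab)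
  rw [← himg, prod_image]
  · refine prod_congr rfl fun r _ => ?_
    rw [map_pow]; ring
  · intro a _ b _ hab
    exact Fin.ext (hζ'.pow_inj a.2 b.2 hab)

lemma coeff_RR (q : ℕ) (hq : 1 ≤ q) (z w : ℂ) :
    (R q z * R q w).coeff (q - 1) = (-1) ^ (q - 1) * ∑ i ∈ range q, z ^ i * w ^ (q - 1 - i) := by
  rw [Polynomial.coeff_mul, Finset.Nat.sum_antidiagonal_eq_sum_range_succ_mk, mul_sum,
    show (q - 1).succ = q by omega]
  refine sum_congr rfl fun i hi => ?_
  have hi' := mem_range.1 hi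
  rw [R_coeff, R_coeff, if_pos hi', if_pos (by omega)]
  rw [neg_pow z, neg_pow w]
  have : (-1 : ℂ) ^ (q - 1) = (-1) ^ i * (-1) ^ (q - 1 - i) := by
    rw [← pow_add]; congr 1; omega
  rw [this]
  ring

lemma coeff_NR (q : ℕ) (hq : 1 ≤ q) (z : ℂ) :
    ((1 - (-Polynomial.X) ^ q) * R q z).coeff q = (-1) ^ (q + 1) := by
  have h1 : ((1 - (-Polynomial.X) ^ q) * R q z : Polynomial ℂ)
      = R q z - Polynomial.C ((-1) ^ q) * (Polynomial.X ^ q * R q z) := by
    rw [neg_pow (Polynomial.X : Polynomial ℂ), map_pow, map_neg, map_one]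
    ring
  rw [h1, Polynomial.coeff_sub, Polynomial.coeff_C_mul, Polynomial.coeff_X_pow_mul', R_coeff,
    R_coeff]
  simp [show 0 < q by omega, pow_succ]

/-- The data of a critical point: on each group all `q`-th roots of unity occur twice. -/
structure Good (q : ℕ) (y : G × V → ℂ) : Prop where
  root : ∀ x, y x ^ q = 1
  prod : ∀ g, ∏ w : V, (1 + Polynomial.C (y (g, w)) * Polynomial.X)
      = (1 - (-Polynomial.X) ^ q) ^ 2

lemma Good.prod_erase {q : ℕ} (hq : 1 ≤ q) {y : G × V → ℂ} (hy : Good q y) (g : G) (v : V) :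
    ∏ w ∈ univ.erase v, (1 + Polynomial.C (y (g, w)) * Polynomial.X)
      = (1 - (-Polynomial.X) ^ q) * R q (y (g, v)) := by
  have h := hy.prod g
  rw [← mul_prod_erase univ _ (mem_univ v)] at h
  have h2 := R_mul q _ (hy.root (g, v))
  apply mul_left_cancel₀ (lin_ne (y (g, v)))
  rw [h, mul_left_comm, h2]
  ring

lemma Good.prod_erase₂ {q : ℕ} (hq : 1 ≤ q) {y : G × V → ℂ} (hy : Good q y) (g : G) (v v' : V)
    (hv : v ≠ v') :
    ∏ w ∈ (univ.erase v').erase v, (1 + Polynomial.C (y (g, w)) * Polynomial.X)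
      = R q (y (g, v)) * R q (y (g, v')) := by
  have h := hy.prod_erase hq g v'
  rw [← mul_prod_erase (univ.erase v') _ (by simp [hv] : v ∈ univ.erase v')] at h
  have h2 := R_mul q _ (hy.root (g, v))
  apply mul_left_cancel₀ (lin_ne (y (g, v)))
  rw [h, ← mul_assoc, h2]

lemma Good.grad {q : ℕ} (hq : 1 ≤ q) {y : G × V → ℂ} (hy : Good q y) (x : G × V) :
    eval y (pderiv x (F q G V)) = (q + 1).factorial * (-1) ^ (q + 1) := by
  obtain ⟨g, v⟩ := x
  rw [pderiv_F, map_mul, map_natCast, eval_E, hy.prod_erase hq, coeff_NR q hq]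

lemma Good.hess {q : ℕ} (hq : 1 ≤ q) {y : G × V → ℂ} (hy : Good q y) (x x' : G × V) :
    (x.1 = x'.1 ∧ x ≠ x' ∧ y x = y x' → eval y (pderiv x (pderiv x' (F q G V))) ≠ 0) ∧
    (¬ (x.1 = x'.1 ∧ x ≠ x' ∧ y x = y x') → eval y (pderiv x (pderiv x' (F q G V))) = 0) := by
  obtain ⟨g, v⟩ := x
  obtain ⟨g', v'⟩ := x'
  rw [pderiv_pderiv_F q hq]
  constructor
  · rintro ⟨h1, h2, h3⟩
    dsimp only at h1
    subst h1
    have hv : v ≠ v' := fun h => h2 (by rw [h])
    rw [if_pos ⟨rfl, hv⟩, map_mul, map_natCast, eval_E, hy.prod_erase₂ hq g v v' hv,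
      coeff_RR q hq, ← h3]
    refine mul_ne_zero (Nat.cast_ne_zero.2 (Nat.factorial_ne_zero _)) (mul_ne_zero (by simp) ?_)
    have hz : y (g, v) ≠ 0 := by
      intro h0
      have := hy.root (g, v)
      rw [h0, zero_pow (by omega)] at this
      exact zero_ne_one this
    have : ∀ i ∈ range q, y (g, v) ^ i * y (g, v) ^ (q - 1 - i) = y (g, v) ^ (q - 1) := by
      intro i hi
      have := mem_range.1 hi
      rw [← pow_add]; congr 1; omega
    rw [sum_congr rfl this, sum_const, card_range, nsmul_eq_mul]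
    exact mul_ne_zero (Nat.cast_ne_zero.2 (by omega)) (pow_ne_zero _ hz)
  · intro h
    split_ifs with hc
    · obtain ⟨rfl, hv⟩ := hc
      have hyy : y (g, v) ≠ y (g, v') := by
        intro h3
        exact h ⟨rfl, fun h4 => hv (Prod.mk.injEq _ _ _ _ ▸ h4 : _ ∧ _).2, h3⟩
      rw [map_mul, map_natCast, eval_E, hy.prod_erase₂ hq g v v' hv, coeff_RR q hq]
      have hs := geom_sum₂_mul (y (g, v)) (y (g, v')) q
      rw [hy.root, hy.root, sub_self] at hs
      rw [(mul_eq_zero.1 hs).resolve_right (sub_ne_zero.2 hyy)]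
      simp
    · simp

/-- A good point with a twin involution is a nondegenerate critical point. -/
lemma Good.isNCP {q : ℕ} (hq : 1 ≤ q) {y : G × V → ℂ} (hy : Good q y)
    (t : G × V → G × V) (htt : ∀ x, t (t x) = x)
    (ht : ∀ x x', (x.1 = x'.1 ∧ x ≠ x' ∧ y x = y x') ↔ x' = t x) :
    IsNCP (F q G V) (fun _ => (q + 1).factorial * (-1) ^ (q + 1)) y := by
  refine ⟨fun x => hy.grad hq x, ?_⟩
  intro hdet
  obtain ⟨z, hz, hz0⟩ := Matrix.exists_mulVec_eq_zero_iff.2 hdet
  apply hz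
  funext x
  have h1 := congrFun hz0 (t x)
  rw [Matrix.mulVec, dotProduct, sum_eq_single x] at h1
  · simp only [Matrix.of_apply, Pi.zero_apply, mul_eq_zero] at h1
    rcases h1 with h1 | h1
    · exact absurd h1 (((hy.hess hq (t x) x).1) ((ht (t x) x).2 (htt x).symm))
    · exact h1
  · intro x' _ hx'
    rw [Matrix.of_apply, (hy.hess hq (t x) x').2, zero_mul]
    intro h
    exact hx' (((ht (t x) x').1 h).trans (htt x))
  · simp

/-- Values on the two halves. -/
noncomputable def val (q : ℕ) (ζ : ℂ) (σ τ : Equiv.Perm (Fin q)) : Fin q ⊕ Fin q → ℂ :=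
  Sum.elim (fun r => ζ ^ (σ r : ℕ)) (fun r => ζ ^ (τ r : ℕ))

/-- Twin map on the two halves. -/
def tw (q : ℕ) (σ τ : Equiv.Perm (Fin q)) : Fin q ⊕ Fin q → Fin q ⊕ Fin q :=
  Sum.elim (fun r => Sum.inr (τ.symm (σ r))) (fun r => Sum.inl (σ.symm (τ r)))

lemma tw_tw (q : ℕ) (σ τ : Equiv.Perm (Fin q)) (a : Fin q ⊕ Fin q) :
    tw q σ τ (tw q σ τ a) = a := by
  rcases a with r | r <;> simp [tw]

lemma tw_iff (q : ℕ) (ζ : ℂ) (hζ : IsPrimitiveRoot ζ q) (σ τ : Equiv.Perm (Fin q))
    (a b : Fin q ⊕ Fin q) : (a ≠ b ∧ val q ζ σ τ a = val q ζ σ τ b) ↔ b = tw q σ τ a := by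
  have hinj : ∀ r s : Fin q, ζ ^ (r : ℕ) = ζ ^ (s : ℕ) ↔ r = s := fun r s =>
    ⟨fun h => Fin.ext (hζ.pow_inj r.2 s.2 h), fun h => by rw [h]⟩
  rcases a with r | r <;> rcases b with s | s <;>
    simp only [val, tw, Sum.elim_inl, Sum.elim_inr, hinj, ne_eq, Sum.inl.injEq, Sum.inr.injEq,
      reduceCtorEq, not_false_eq_true, true_and, iff_false, not_and, EmbeddingLike.apply_eq_iff_eq]
  · exact fun h => h
  · rw [Equiv.eq_symm_apply, eq_comm]
  · rw [Equiv.eq_symm_apply, eq_comm]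
  · exact fun h => h

/-- The equivalence between two halves and `Fin (2q)`. -/
def eqv (q : ℕ) : Fin q ⊕ Fin q ≃ Fin (2 * q) :=
  finSumFinEquiv.trans (finCongr (two_mul q).symm)

/-- The critical points. -/
noncomputable def pt (q : ℕ) (ζ : ℂ) (p : G → Equiv.Perm (Fin q) × Equiv.Perm (Fin q)) :
    G × Fin (2 * q) → ℂ :=
  fun x => val q ζ (p x.1).1 (p x.1).2 ((eqv q).symm x.2)

lemma pt_inj (q : ℕ) (ζ : ℂ) (hζ : IsPrimitiveRoot ζ q) :
    Function.Injective (pt (G := G) q ζ) := by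
  intro p p' h
  funext g
  refine Prod.ext (Equiv.ext fun r => ?_) (Equiv.ext fun r => ?_)
  · have := congrFun h (g, eqv q (Sum.inl r))
    simp only [pt, Equiv.symm_apply_apply, val, Sum.elim_inl] at this
    exact Fin.ext (hζ.pow_inj (Fin.is_lt _) (Fin.is_lt _) this)
  · have := congrFun h (g, eqv q (Sum.inr r))
    simp only [pt, Equiv.symm_apply_apply, val, Sum.elim_inr] at this
    exact Fin.ext (hζ.pow_inj (Fin.is_lt _) (Fin.is_lt _) this)

lemma pt_good (q : ℕ) (hq : 1 ≤ q) (ζ : ℂ) (hζ : IsPrimitiveRoot ζ q)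
    (p : G → Equiv.Perm (Fin q) × Equiv.Perm (Fin q)) : Good q (pt q ζ p) := by
  constructor
  · rintro ⟨g, v⟩
    unfold pt val
    rcases (eqv q).symm v with r | r <;>
    · simp only [Sum.elim_inl, Sum.elim_inr]
      rw [← pow_mul, mul_comm, pow_mul, hζ.pow_eq_one, one_pow]
  · intro g
    rw [← Equiv.prod_comp (eqv q)]
    simp only [pt, Equiv.symm_apply_apply]
    rw [Fintype.prod_sum_type]
    simp only [val, Sum.elim_inl, Sum.elim_inr]
    rw [Equiv.prod_comp (p g).1 (fun r : Fin q =>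
      (1 + Polynomial.C (ζ ^ (r : ℕ)) * Polynomial.X : Polynomial ℂ)),
      Equiv.prod_comp (p g).2 (fun r : Fin q =>
      (1 + Polynomial.C (ζ ^ (r : ℕ)) * Polynomial.X : Polynomial ℂ)), prod_roots q hq ζ hζ, sq]

end Crit

open Crit in
/-- **Job CRIT.** -/
theorem crit : StmCrit := by
  intro q hq G _ _
  have hζ := Complex.isPrimitiveRoot_exp q (by omega)
  set ζ := Complex.exp (2 * Real.pi * Complex.I / q) with hζdef
  refine ⟨fun _ => (q + 1).factorial * (-1) ^ (q + 1),
    Finset.univ.map ⟨pt (G := G) q ζ, pt_inj q ζ hζ⟩, ?_, ?_⟩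
  · rw [Finset.card_map, Finset.card_univ, Fintype.card_fun, Fintype.card_prod,
      Fintype.card_perm, Fintype.card_fin, ← sq, ← pow_mul]
  · intro y hy
    obtain ⟨p, _, rfl⟩ := Finset.mem_map.1 hy
    simp only [Function.Embedding.coeFn_mk]
    refine (pt_good q hq ζ hζ p).isNCP hq
      (fun x => (x.1, eqv q (tw q (p x.1).1 (p x.1).2 ((eqv q).symm x.2)))) ?_ ?_
    · rintro ⟨g, v⟩
      simp [tw_tw]
    · rintro ⟨g, v⟩ ⟨g', v'⟩
      dsimp only
      constructor
      · rintro ⟨h1, h2, h3⟩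
        subst h1
        have hne : (eqv q).symm v ≠ (eqv q).symm v' := by
          intro h
          exact h2 (by rw [(eqv q).symm.injective h])
        have := (tw_iff q ζ hζ (p g).1 (p g).2 ((eqv q).symm v) ((eqv q).symm v')).1 ⟨hne, h3⟩
        rw [← this]
        simp
      · intro h
        rw [Prod.mk.injEq] at h
        obtain ⟨h1, h2⟩ := h
        subst h1
        have h3 : (eqv q).symm v' = tw q (p g').1 (p g').2 ((eqv q).symm v) := by
          rw [h2, Equiv.symm_apply_apply]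
        have := (tw_iff q ζ hζ (p g').1 (p g').2 ((eqv q).symm v) ((eqv q).symm v')).2 h3
        refine ⟨rfl, fun h => this.1 ?_, this.2⟩
        rw [Prod.mk.injEq] at h
        rw [h.2]

end H1CL
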