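import Pool.Agent.Helper1x.CL.Defs

/-!
# The Bezoutian bound

Let `A` be a square array of polynomials of degree at most one in `κ`-many variables.
If `Z` is a finite set of points with `det A(x) ≠ 0` for `x ∈ Z` and
`det (A(x) + A(y)) = 0` for `x ≠ y` in `Z`, then `|Z| ≤ 4^{|κ|}`.
-/

namespace H1CL

open MvPolynomial Matrix

lemma card_monomials_le (κ : Type*) [Fintype κ] (N : ℕ) :
    Nat.card {s : κ →₀ ℕ | (s.sum fun _ e => e) ≤ N} ≤ (Fintype.card κ + N).choose N := by
  classical
  have h : ((Finset.univ : Finset (Option κ)).finsuppAntidiag N).card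
      = (Fintype.card κ + N).choose N := by
    rw [Finset.card_finsuppAntidiag_nat_eq_choose]
    simp
  rw [← h]
  let f : {s : κ →₀ ℕ | (s.sum fun _ e => e) ≤ N} →
      ((Finset.univ : Finset (Option κ)).finsuppAntidiag N) := fun s =>
    ⟨Finsupp.equivFunOnFinite.symm (fun o => Option.elim o (N - (s.1.sum fun _ e => e)) s.1), by
      rw [Finset.mem_finsuppAntidiag]
      refine ⟨?_, Finset.subset_univ _⟩
      have hs := s.2
      simp only [Set.mem_ofPred_eq] at hs
      rw [Fintype.sum_option]
      simp only [Finsupp.equivFunOnFinite_symm_apply_apply, Option.elim_none, Option.elim_some]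
      rw [Finsupp.sum_fintype _ _ (fun _ => rfl)] at *
      omega⟩
  have hf : Function.Injective f := by
    intro s t hst
    have h1 : (f s).1 = (f t).1 := by rw [hst]
    apply Subtype.ext
    ext v
    have h2 := DFunLike.congr_fun h1 (some v)
    simpa [f] using h2
  have := Nat.card_le_card_of_injective f hf
  rwa [Nat.card_eq_fintype_card (α := ((Finset.univ : Finset (Option κ)).finsuppAntidiag N)), Fintype.card_coe] at this

lemma finrank_restrictTotalDegree_le (κ : Type*) [Fintype κ] :
    Module.finrank ℂ (restrictTotalDegree κ ℂ (Fintype.card κ)) ≤ 4 ^ (Fintype.card κ) := by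
  classical
  have b := basisRestrictSupport (σ := κ) ℂ {s : κ →₀ ℕ | (s.sum fun _ e => e) ≤ Fintype.card κ}
  have h1 : Module.finrank ℂ (restrictTotalDegree κ ℂ (Fintype.card κ))
      = Nat.card {s : κ →₀ ℕ | (s.sum fun _ e => e) ≤ Fintype.card κ} :=
    Module.finrank_eq_nat_card_basis b
  rw [h1]
  refine (card_monomials_le κ _).trans ?_
  refine (Nat.choose_le_two_pow _ _).trans ?_
  rw [← two_mul, pow_mul]
  norm_num

/-- total degree of the determinant of a matrix with entries of degree ≤ 1 -/
lemma totalDegree_det_le {κ : Type*} [Fintype κ] [DecidableEq κ]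
    (A : Matrix κ κ (MvPolynomial κ ℂ)) (hA : ∀ i j, (A i j).totalDegree ≤ 1) :
    A.det.totalDegree ≤ Fintype.card κ := by
  rw [Matrix.det_apply]
  refine totalDegree_finsetSum_le ?_
  intro σ _
  have h1 : (Equiv.Perm.sign σ • ∏ i, A (σ i) i) = C ((Equiv.Perm.sign σ : ℤ) : ℂ) * ∏ i, A (σ i) i := by
    rw [Units.smul_def, zsmul_eq_mul]
    simp
  rw [h1]
  refine (totalDegree_mul _ _).trans ?_
  rw [totalDegree_C, zero_add]
  refine (totalDegree_finsetProd _ _).trans ?_
  refine (Finset.sum_le_sum (fun i _ => hA (σ i) i)).trans ?_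
  simp

theorem card_le_of_bezout {κ : Type*} [Fintype κ] [DecidableEq κ]
    (A : Matrix κ κ (MvPolynomial κ ℂ)) (hA : ∀ i j, (A i j).totalDegree ≤ 1)
    (Z : Finset (κ → ℂ))
    (h1 : ∀ x ∈ Z, (A.map (eval x)).det ≠ 0)
    (h2 : ∀ x ∈ Z, ∀ y ∈ Z, x ≠ y → (A.map (eval x) + A.map (eval y)).det = 0) :
    Z.card ≤ 4 ^ (Fintype.card κ) := by
  classical
  -- the Bezoutians
  let Bz : (κ → ℂ) → Matrix κ κ (MvPolynomial κ ℂ) := fun y => A + (A.map (eval y)).map C
  have hdeg : ∀ y, (Bz y).det.totalDegree ≤ Fintype.card κ := by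
    intro y
    apply totalDegree_det_le
    intro i j
    refine (totalDegree_add _ _).trans ?_
    simp only [Matrix.map_apply, totalDegree_C]
    exact max_le (hA i j) (by omega)
  have hev : ∀ x y, eval x (Bz y).det = (A.map (eval x) + A.map (eval y)).det := by
    intro x y
    rw [RingHom.map_det]
    congr 1
    ext i j
    simp [Bz, Matrix.map_apply]
  let F : Z → restrictTotalDegree κ ℂ (Fintype.card κ) := fun z =>
    ⟨(Bz z.1).det, (mem_restrictTotalDegree _ _ _).2 (hdeg z.1)⟩
  have hF : LinearIndependent ℂ F := by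
    rw [Fintype.linearIndependent_iff]
    intro g hg z
    have h3 : eval z.1 ((∑ i, g i • F i : restrictTotalDegree κ ℂ (Fintype.card κ)) :
        MvPolynomial κ ℂ) = 0 := by rw [hg]; simp
    rw [Submodule.coe_sum, map_sum] at h3
    rw [Finset.sum_eq_single z] at h3
    · simp only [Submodule.coe_smul, F, smul_eval] at h3
      rw [hev] at h3
      have h4 : (A.map (eval z.1) + A.map (eval z.1)).det ≠ 0 := by
        rw [← two_smul ℂ, Matrix.det_smul]
        exact mul_ne_zero (pow_ne_zero _ two_ne_zero) (h1 z.1 z.2)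
      exact (mul_eq_zero.1 h3).resolve_right h4
    · intro w _ hw
      simp only [Submodule.coe_smul, F, smul_eval]
      rw [hev, h2 z.1 z.2 w.1 w.2 (fun h => hw (Subtype.ext h.symm)), mul_zero]
    · intro h
      exact absurd (Finset.mem_univ _) h
  have := hF.fintype_card_le_finrank
  rw [Fintype.card_coe] at this
  exact this.trans (finrank_restrictTotalDegree_le κ)

end H1CL
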