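import Pool.Agent.Helper1x.CL.Lef

/-!
# The three forms of the bound, given the gadget
-/

namespace H1CL

open MvPolynomial Filter Topology

universe u

lemma permPoly_eq (n : ℕ) : permPoly n = permR ℂ n := rfl

/-- limits of computations over `ℂ` -/
theorem limit_bound (hgad : StmGadget) (n p : ℕ) (hn : 2 ^ 30 ≤ n) (s : ℕ → ℕ)
    (P : ∀ t, Finset (Fin (s t)))
    (g : ∀ t, Fin (s t) → MvPolynomial (Fin n × Fin n) ℂ) (out : ∀ t, Fin (s t))
    (hg : ∀ t, IsComp (P t) (g t)) (hP : ∀ t, (P t).card ≤ p)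
    (hlim : ∀ μ, Tendsto (fun t => coeff μ (g t (out t))) atTop (𝓝 (coeff μ (permR ℂ n)))) :
    (n : ℝ) ^ 2 * Real.log n ≤ 20000 * p :=
  border_bound hgad n p hn ⟨s, P, g, out, hg, hP, hlim⟩

/-- exact computations over any field of characteristic zero -/
theorem exact_bound (hgad : StmGadget) {k : Type u} [Field k] [CharZero k] (n s : ℕ)
    (hn : 2 ^ 30 ≤ n) (P : Finset (Fin s))
    (g : Fin s → MvPolynomial (Fin n × Fin n) k) (hg : IsComp P g) (out : Fin s)
    (hout : g out = permR k n) :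
    (n : ℝ) ^ 2 * Real.log n ≤ 20000 * P.card := by
  obtain ⟨G, hG, hGout⟩ := comp_to_complex n s P g hg out hout
  exact limit_bound hgad n P.card hn (fun _ => s) (fun _ => P) (fun _ => G) (fun _ => out)
    (fun _ => hG) (fun _ => le_rfl) (fun μ => by rw [hGout]; exact tendsto_const_nhds)

/-- computations over `k(ε)` that specialize to `perm_n` at `ε = 0` -/
theorem ratFunc_bound (hgad : StmGadget) {k : Type u} [Field k] [CharZero k] (n s : ℕ)
    (hn : 2 ^ 30 ≤ n) (P : Finset (Fin s))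
    (g : Fin s → MvPolynomial (Fin n × Fin n) (RatFunc k)) (hg : IsComp P g) (out : Fin s)
    (hF : ∀ d, (coeff d (g out)).denom.eval 0 ≠ 0 ∧
      (coeff d (g out)).eval (RingHom.id k) 0 = coeff d (permR k n)) :
    (n : ℝ) ^ 2 * Real.log n ≤ 20000 * P.card := by
  obtain ⟨G, hG, hGF⟩ := ratComp_to_complex n s P g hg out hF
  exact border_bound hgad n P.card hn (borderComp_of_ratFunc n P.card s P G hG le_rfl out hGF)

end H1CL
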