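import Pool.Agent.Helper1x.CL.Quad

/-!
# Arithmetic circuits have few nondegenerate critical points

`IsComp P g`: the polynomials `g 0, g 1, …, g (s-1)` form a straight-line computation in
which the steps in `P` are products of two earlier results and all other steps are free,
i.e. arbitrary constants plus arbitrary linear combinations of the variables and of earlier
results.
-/

namespace H1CL

open MvPolynomial

/-- A computation over `R` in which only the steps in `P` are products of two earlier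
results; every other step is a constant plus a linear combination of the variables and of
earlier results. -/
def IsComp {σ R : Type*} [Fintype σ] [CommSemiring R] {s : ℕ} (P : Finset (Fin s))
    (g : Fin s → MvPolynomial σ R) : Prop :=
  ∀ i : Fin s,
    (i ∈ P → ∃ a b : Fin s, a < i ∧ b < i ∧ g i = g a * g b) ∧
    (i ∉ P → ∃ (c : R) (l : σ → R) (a : Fin s → R), (∀ j, ¬ j < i → a j = 0) ∧
      g i = C c + ∑ v, C (l v) * X v + ∑ j, C (a j) * g j)

section

variable {ι : Type*} [Fintype ι] {p s : ℕ}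

/-- affine combinations of the `Z`'s that use only the product steps `≤ i` -/
noncomputable def affSub (e : Fin p → Fin s) (Zp : (ι ⊕ Fin p) → MvPolynomial ι ℂ) (i : Fin s) :
    Submodule ℂ (MvPolynomial ι ℂ) where
  carrier := {m | ∃ (c : ℂ) (w : (ι ⊕ Fin p) → ℂ), (∀ k, ¬ e k ≤ i → w (Sum.inr k) = 0) ∧
    m = C c + ∑ j, C (w j) * Zp j}
  add_mem' := by
    rintro _ _ ⟨c, w, hw, rfl⟩ ⟨c', w', hw', rfl⟩
    refine ⟨c + c', w + w', fun k hk => by simp [hw k hk, hw' k hk], ?_⟩
    simp only [Pi.add_apply, C_add, add_mul, Finset.sum_add_distrib]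
    ring
  zero_mem' := ⟨0, 0, fun k _ => rfl, by simp⟩
  smul_mem' := by
    rintro a _ ⟨c, w, hw, rfl⟩
    refine ⟨a * c, a • w, fun k hk => by simp [hw k hk], ?_⟩
    simp only [Pi.smul_apply, smul_eq_mul, C_mul, smul_eq_C_mul, mul_add, Finset.mul_sum, mul_assoc]

lemma mem_affSub {e : Fin p → Fin s} {Zp : (ι ⊕ Fin p) → MvPolynomial ι ℂ} {i : Fin s}
    {m : MvPolynomial ι ℂ} : m ∈ affSub e Zp i ↔
      ∃ (c : ℂ) (w : (ι ⊕ Fin p) → ℂ), (∀ k, ¬ e k ≤ i → w (Sum.inr k) = 0) ∧
        m = C c + ∑ j, C (w j) * Zp j := Iff.rfl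

lemma affSub_mono {e : Fin p → Fin s} {Zp : (ι ⊕ Fin p) → MvPolynomial ι ℂ} {i j : Fin s}
    (hij : i ≤ j) : affSub e Zp i ≤ affSub e Zp j := by
  intro m hm
  obtain ⟨c, w, hw, rfl⟩ := mem_affSub.1 hm
  exact mem_affSub.2 ⟨c, w, fun k hk => hw k (fun h => hk (h.trans hij)), rfl⟩

lemma C_mem_affSub {e : Fin p → Fin s} {Zp : (ι ⊕ Fin p) → MvPolynomial ι ℂ} {i : Fin s}
    (c : ℂ) : (C c : MvPolynomial ι ℂ) ∈ affSub e Zp i :=
  mem_affSub.2 ⟨c, 0, fun _ _ => rfl, by simp⟩

lemma Z_mem_affSub [DecidableEq ι] {e : Fin p → Fin s} {Zp : (ι ⊕ Fin p) → MvPolynomial ι ℂ}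
    {i : Fin s} (j : ι ⊕ Fin p) (hj : ∀ k, j = Sum.inr k → e k ≤ i) :
    Zp j ∈ affSub e Zp i := by
  refine mem_affSub.2 ⟨0, Pi.single j 1, fun k hk => ?_, ?_⟩
  · rw [Pi.single_apply, if_neg]
    rintro rfl
    exact hk (hj k rfl)
  · rw [C_0, zero_add, Finset.sum_eq_single j]
    · simp
    · intro b _ hb
      rw [Pi.single_apply, if_neg hb, C_0, zero_mul]
    · intro h; exact absurd (Finset.mem_univ _) h

end

/-- Main circuit bound: after an affine substitution into `|ι|` variables, a polynomial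
computed with `|P|` product steps has at most `4 ^ (|ι| + 2 |P|)` nondegenerate solutions
of `∇ f = ℓ`. -/
theorem comp_bound {σ ι : Type*} [Fintype σ] [Fintype ι] [DecidableEq ι] {s : ℕ}
    (P : Finset (Fin s)) (g : Fin s → MvPolynomial σ ℂ) (hg : IsComp P g)
    (lam : σ → MvPolynomial ι ℂ) (hlam : ∀ v, IsAff (lam v)) (out : Fin s)
    (ℓ : ι → ℂ) (Z : Finset (ι → ℂ))
    (hZ : ∀ y ∈ Z, IsNCP (aeval lam (g out)) ℓ y) :
    Z.card ≤ 4 ^ (Fintype.card ι + 2 * P.card) := by
  classical
  set e : Fin P.card ↪o Fin s := P.orderEmbOfFin rfl with he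
  have heP : ∀ k, e k ∈ P := fun k => P.orderEmbOfFin_mem rfl k
  have hPe : ∀ i ∈ P, ∃ k, e k = i := by
    intro i hi
    have : i ∈ Set.range (P.orderEmbOfFin rfl) := by
      rw [Finset.range_orderEmbOfFin]; exact hi
    exact this
  let Zp : (ι ⊕ Fin P.card) → MvPolynomial ι ℂ :=
    Sum.elim X (fun k => aeval lam (g (e k)))
  have hXmem : ∀ (i : Fin s) (v : ι), (X v : MvPolynomial ι ℂ) ∈ affSub e Zp i := by
    intro i v
    exact Z_mem_affSub (Zp := Zp) (Sum.inl v) (fun k hk => by simp at hk)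
  have hAffmem : ∀ (i : Fin s) (q : MvPolynomial ι ℂ), IsAff q → q ∈ affSub e Zp i := by
    rintro i q ⟨a, L, rfl⟩
    refine Submodule.add_mem _ (C_mem_affSub a) (Submodule.sum_mem _ (fun v _ => ?_))
    rw [← smul_eq_C_mul]
    exact Submodule.smul_mem _ _ (hXmem i v)
  have hmem : ∀ i : Fin s, aeval lam (g i) ∈ affSub e Zp i := by
    intro i
    induction i using WellFoundedLT.induction with
    | ind i ih => ?_
    by_cases hi : i ∈ P
    · obtain ⟨k, rfl⟩ := hPe i hi
      exact Z_mem_affSub (Zp := Zp) (Sum.inr k) (fun k' hk' => by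
        rw [Sum.inr.injEq] at hk'; rw [hk'])
    · obtain ⟨c, l, a, ha, hgi⟩ := (hg i).2 hi
      rw [hgi]
      simp only [map_add, map_sum, map_mul, aeval_X]
      have hC : ∀ c : ℂ, (aeval lam) (C c : MvPolynomial σ ℂ) = C c := fun c => by
        simp [algebraMap_eq]
      simp only [hC]
      refine Submodule.add_mem _ (Submodule.add_mem _ (C_mem_affSub c)
        (Submodule.sum_mem _ (fun v _ => ?_))) (Submodule.sum_mem _ (fun j _ => ?_))
      · rw [← smul_eq_C_mul]
        exact Submodule.smul_mem _ _ (hAffmem i _ (hlam v))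
      · rw [← smul_eq_C_mul]
        by_cases hj : j < i
        · exact Submodule.smul_mem _ _ (affSub_mono hj.le (ih j hj))
        · rw [ha j hj, zero_smul]
          exact Submodule.zero_mem _
  -- the data of the quadratic program
  have hprod : ∀ k : Fin P.card, ∃ (α : ℂ) (β : (ι ⊕ Fin P.card) → ℂ)
      (B : (ι ⊕ Fin P.card) → (ι ⊕ Fin P.card) → ℂ),
      (∀ i j, B i j = B j i) ∧ (∀ j, ¬ j < k → β (Sum.inr j) = 0) ∧
      (∀ i j, ¬ j < k → B i (Sum.inr j) = 0) ∧
      C α + ∑ i, C (β i) * Zp i + ∑ i, ∑ j, C (B i j) * Zp i * Zp j - Zp (Sum.inr k) = 0 := by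
    intro k
    obtain ⟨a, b, ha, hb, hgk⟩ := (hg (e k)).1 (heP k)
    obtain ⟨c, w, hw, hca⟩ := mem_affSub.1 (hmem a)
    obtain ⟨c', w', hw', hcb⟩ := mem_affSub.1 (hmem b)
    have hwk : ∀ j, ¬ j < k → w (Sum.inr j) = 0 := by
      intro j hj
      refine hw j (fun h => hj ?_)
      exact e.lt_iff_lt.1 (lt_of_le_of_lt h ha)
    have hwk' : ∀ j, ¬ j < k → w' (Sum.inr j) = 0 := by
      intro j hj
      refine hw' j (fun h => hj ?_)
      exact e.lt_iff_lt.1 (lt_of_le_of_lt h hb)
    refine ⟨c * c', fun i => c * w' i + c' * w i,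
      fun i j => (w i * w' j + w j * w' i) / 2, fun i j => by ring, fun j hj => ?_,
      fun i j hj => ?_, ?_⟩
    · simp [hwk j hj, hwk' j hj]
    · simp [hwk j hj, hwk' j hj]
    · have h1 : Zp (Sum.inr k) = (C c + ∑ j, C (w j) * Zp j) * (C c' + ∑ j, C (w' j) * Zp j) := by
        show aeval lam (g (e k)) = _
        rw [hgk, map_mul, hca, hcb]
      have h2 : ∑ i, ∑ j, C ((w i * w' j + w j * w' i) / 2) * Zp i * Zp j
          = (∑ j, C (w j) * Zp j) * (∑ j, C (w' j) * Zp j) := by
        have h3 : ∀ i j, C ((w i * w' j + w j * w' i) / 2) * Zp i * Zp j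
            = C (1/2) * ((C (w i) * Zp i) * (C (w' j) * Zp j))
              + C (1/2) * ((C (w j) * Zp j) * (C (w' i) * Zp i)) := by
          intro i j
          have : (w i * w' j + w j * w' i) / 2 = (1/2) * (w i * w' j) + (1/2) * (w j * w' i) := by
            ring
          rw [this]
          simp only [C_add, C_mul]
          ring
        simp_rw [h3, Finset.sum_add_distrib, ← Finset.mul_sum]
        have h4 : ∑ i, ∑ j, C (w j) * Zp j * (C (w' i) * Zp i)
            = (∑ j, C (w j) * Zp j) * (∑ j, C (w' j) * Zp j) := by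
          rw [Finset.sum_comm, Finset.sum_mul_sum]
        rw [h4, ← Finset.sum_mul]
        rw [← add_mul, ← C_add]
        norm_num
      have h5 : ∑ i, C (c * w' i + c' * w i) * Zp i
          = C c * (∑ j, C (w' j) * Zp j) + C c' * (∑ j, C (w j) * Zp j) := by
        rw [Finset.mul_sum, Finset.mul_sum, ← Finset.sum_add_distrib]
        refine Finset.sum_congr rfl (fun i _ => ?_)
        simp only [C_add, C_mul]
        ring
      rw [h1, h2, h5, C_mul]
      ring
  choose α β B hsymm hβ hB hEq using hprod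
  have hQS : QS β B := ⟨fun k i j => hsymm k i j, fun k j hj => hβ k j hj,
    fun k i j hj => hB k i j hj⟩
  obtain ⟨γ0, γ, _, hf⟩ := mem_affSub.1 (hmem out)
  refine quad_bound hQS α Zp (fun v => rfl) (fun k => ?_) γ0 γ _ hf ℓ Z hZ
  simpa [equ, algebraMap_eq] using hEq k

end H1CL
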