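import Mathlib

/-!
# Circuit lower bound `n² log n` for the permanent: definitions

Shared definitions of the project that every arithmetic circuit for `perm_n` has
at least `c n² log n` product gates.
-/

namespace H1CL

open MvPolynomial

/-- The permanent of a square array whose rows and columns are indexed by
possibly different types (it is `0` if the numbers of rows and columns differ). -/
def rperm {r c R : Type*} [Fintype r] [Fintype c] [DecidableEq r] [DecidableEq c]
    [CommSemiring R] (M : r → c → R) : R :=
  ∑ σ : r ≃ c, ∏ i, M i (σ i)

/-- Affine polynomial: a constant plus a linear form. -/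
def IsAff {ι : Type*} [Fintype ι] (p : MvPolynomial ι ℂ) : Prop :=
  ∃ (a : ℂ) (L : ι → ℂ), p = C a + ∑ v, C (L v) * X v

/-- `y` is a nondegenerate solution of `∇ f = ℓ`: the gradient of `f` at `y` is `ℓ`
and the Hessian of `f` at `y` is invertible. -/
def IsNCP {ι : Type*} [Fintype ι] [DecidableEq ι] (f : MvPolynomial ι ℂ) (ℓ y : ι → ℂ) :
    Prop :=
  (∀ i, eval y (pderiv i f) = ℓ i) ∧
  (Matrix.of fun i j => eval y (pderiv i (pderiv j f))).det ≠ 0

end H1CL
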