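import Pool.Agent.Helper1x.CL.TopStm

/-!
# Elimination of one block of columns (helper56)

Consequences of T2..T8 for polynomials over `K ⊕ D`; `r` is `rename Sum.inr`.
-/

set_option linter.unusedSectionVars false

namespace H1CL.Gad

open MvPolynomial

variable {K D S : Type} [Fintype K] [Fintype D] [CommRing S]

/-- the points which are not in the image of `e` -/
def off {P K : Type} [Fintype P] [Fintype K] [DecidableEq K] (e : P → K) : Finset K :=
  Finset.univ.filter (fun x => ∀ p, e p ≠ x)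

/-- polynomials in the remaining variables -/
noncomputable abbrev r : MvPolynomial D S →ₐ[S] MvPolynomial (K ⊕ D) S := rename Sum.inr

theorem sum_r (q : MvPolynomial D S) : sumAlgEquiv S K D (r q) = C q := by
  have h := sumAlgEquiv_comp_rename_inr (R := S) (S₁ := K) (S₂ := D)
  have h2 := congrArg (fun f => f q) h
  simp only [AlgHom.comp_apply] at h2
  exact h2

theorem top_mul_C (p : MvPolynomial K S) (s : S) : top (p * C s) = s * top p := by
  rw [mul_comm, C_mul', map_smul, smul_eq_mul]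

theorem top_rs (p : MvPolynomial K S) (s : S) : top (C s * p) = s * top p := by
  rw [C_mul', map_smul, smul_eq_mul]

/-- general elimination: if `top_K` of the image is known -/
theorem elim (T2 : StmTop2) (p : MvPolynomial (K ⊕ D) S) (P : MvPolynomial K (MvPolynomial D S))
    (q t : MvPolynomial D S) (hp : sumAlgEquiv S K D p = P) (ht : top P = t) :
    top (p * r q) = top (t * q) := by
  rw [T2 K D S, map_mul, hp, sum_r, top_mul_C, ht, mul_comm]

theorem elim3 (T2 : StmTop2) (T3 : StmTop3) (a b c : K → MvPolynomial D S) (q : MvPolynomial D S) :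
    top ((∏ x, (X (Sum.inl x) + r (a x)) * (X (Sum.inl x) + r (b x)) * (X (Sum.inl x) + r (c x))) * r q)
      = top ((∏ x, (a x * b x + a x * c x + b x * c x)) * q) := by
  refine elim T2 _ (∏ x, (X x + C (a x)) * (X x + C (b x)) * (X x + C (c x))) q _ ?_ (T3 K (MvPolynomial D S) a b c)
  simp only [map_prod, map_mul, map_add, sumAlgEquiv_X_inl, sum_r]

theorem elim4 [Algebra ℂ S] (T2 : StmTop2) (T4 : StmTop4) (k : ℕ) (hk : 1 ≤ k) (ζ : ℂ)
    (hζ : IsPrimitiveRoot ζ k) (G : Type) [Fintype G] [Nonempty G] (Γ : G → MvPolynomial D S)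
    (q : MvPolynomial D S) :
    top ((∏ g : G, ∏ i : Fin k, ((∑ b : Fin (k * (Fintype.card G - 1)), X (Sum.inl b))
        - r (algebraMap ℂ (MvPolynomial D S) (ζ ^ (i : ℕ)) * Γ g))) * r q)
      = top ((- ((k * (Fintype.card G - 1)).factorial : MvPolynomial D S) * ∑ g, Γ g ^ k) * q) := by
  refine elim T2 _ (∏ g : G, ∏ i : Fin k, ((∑ b : Fin (k * (Fintype.card G - 1)), X b)
        - C (algebraMap ℂ (MvPolynomial D S) (ζ ^ (i : ℕ)) * Γ g))) q _ ?_
    (T4 k hk ζ hζ G (MvPolynomial D S) Γ)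
  simp only [map_prod, map_mul, map_sub, map_sum, sumAlgEquiv_X_inl, sum_r]

theorem elim5 (T2 : StmTop2) (T5 : StmTop5) {P : Type} [Fintype P] (t : ℕ) (ht : Fintype.card P = t)
    (a b : P → MvPolynomial D S) (q : MvPolynomial D S) :
    top ((∏ p, (r (a p) * (∑ i : Fin t, X (Sum.inl i)) + r (b p))) * r q)
      = top (((t.factorial : MvPolynomial D S) * ∏ p, a p) * q) := by
  refine elim T2 _ (∏ p, (C (a p) * (∑ i : Fin t, X i) + C (b p))) q _ ?_
    (T5 P (MvPolynomial D S) t ht a b)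
  simp only [map_prod, map_mul, map_add, map_sum, sumAlgEquiv_X_inl, sum_r]

theorem elim6 [DecidableEq K] (T2 : StmTop2) (T6 : StmTop6) {P : Type} [Fintype P]
    (u v : K → MvPolynomial D S) (e : P → K) (he : Function.Injective e) (q : MvPolynomial D S) :
    top (((∏ x, (r (u x) - (r (v x) + X (Sum.inl x)) ^ 2)) * ∏ p, X (Sum.inl (e p))) * r q)
      = top (((∏ x ∈ off e, (-2 * v x))
          * ∏ p, (u (e p) - v (e p) ^ 2)) * q) := by
  refine elim T2 _ ((∏ x, (C (u x) - (C (v x) + X x) ^ 2)) * ∏ p, X (e p)) q _ ?_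
    (T6 P K (MvPolynomial D S) u v e he)
  simp only [map_prod, map_mul, map_add, map_sub, map_pow, sumAlgEquiv_X_inl, sum_r]

theorem elim7 (T2 : StmTop2) (T7 : StmTop7) {P : Type} [Fintype P]
    (u v : K → MvPolynomial D S) (e : P → K) (he : ¬ Function.Injective e) (q : MvPolynomial D S) :
    top (((∏ x, (r (u x) - (r (v x) + X (Sum.inl x)) ^ 2)) * ∏ p, X (Sum.inl (e p))) * r q) = 0 := by
  have h := elim T2 ((∏ x, (r (u x) - (r (v x) + X (Sum.inl x)) ^ 2)) * ∏ p, X (Sum.inl (e p)))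
    ((∏ x, (C (u x) - (C (v x) + X x) ^ 2)) * ∏ p, X (e p)) q 0
    (by simp only [map_prod, map_mul, map_add, map_sub, map_pow, sumAlgEquiv_X_inl, sum_r])
    (T7 P K (MvPolynomial D S) (∏ x, (C (u x) - (C (v x) + X x) ^ 2)) e he)
  rw [h, zero_mul, map_zero]

theorem elim8 [DecidableEq K] (T2 : StmTop2) (T8 : StmTop8) {P : Type} [Fintype P] [DecidableEq P]
    (e : P → K) (he : Function.Injective e) (a : P → K → S) (q : MvPolynomial D S) :
    top (((∏ x ∈ off e, X (Sum.inl x))
        * ∏ p, ∑ x, C (a p x) * X (Sum.inl x)) * r q)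
      = (∑ ρ : Equiv.Perm P, ∏ p, a p (e (ρ p))) * top q := by
  rw [elim T2 _ ((∏ x ∈ off e, X x)
        * ∏ p, ∑ x, C (C (a p x)) * X x) q _ ?_
    (T8 P K (MvPolynomial D S) e he (fun p x => C (a p x)))]
  · have : (∑ ρ : Equiv.Perm P, ∏ p, (C (a p (e (ρ p))) : MvPolynomial D S)) =
        C (∑ ρ : Equiv.Perm P, ∏ p, a p (e (ρ p))) := by
      simp only [map_sum, map_prod]
    rw [this, top_rs]
  · simp only [map_prod, map_mul, map_sum, sumAlgEquiv_X_inl, sumAlgEquiv_C_inl]

end H1CL.Gad
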