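import Pool.Agent.Helper1x.CL.GElim

/-!
# Assembly of `StmGadget` from T1..T8 (helper56)
-/

set_option linter.unusedSectionVars false
set_option synthInstance.maxSize 100000

namespace H1CL.Gad

open MvPolynomial

/-! ### linear forms -/

section lin

variable {A : Type} [CommRing A] {K : Type} [Fintype K] [DecidableEq K]

/-- the linear form with given coefficients -/
noncomputable def lin : (K → A) →ₗ[A] MvPolynomial K A where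
  toFun v := ∑ x, C (v x) * X x
  map_add' v w := by simp [add_mul, Finset.sum_add_distrib]
  map_smul' a v := by simp [Finset.smul_sum, smul_eq_C_mul, mul_assoc]

theorem lin_def (v : K → A) : lin v = ∑ x, C (v x) * X x := rfl

/-- unit vector -/
def sg (j : K) : K → A := Pi.single j 1

theorem lin_sg (j : K) : lin (sg j : K → A) = X j := by
  rw [lin_def, Finset.sum_eq_single j]
  · simp [sg]
  · intro b _ hb
    simp [sg, hb]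
  · simp

end lin

/-! ### the stations -/

section stations

variable {A : Type} [CommRing A] [Algebra ℂ A]
variable {G₁ G₂ G₃ Y₁ Y₂ Y₃ : Type} [Fintype G₁] [DecidableEq G₁] [Nonempty G₁]
  [Fintype G₂] [DecidableEq G₂] [Nonempty G₂] [Fintype G₃] [DecidableEq G₃] [Nonempty G₃]
  [Fintype Y₁] [DecidableEq Y₁] [Fintype Y₂] [DecidableEq Y₂] [Fintype Y₃] [DecidableEq Y₃]

variable (G₁ G₂ G₃ Y₁ Y₂ Y₃) in
/-- stations -/
abbrev XX : Type := (G₁ × Y₁) ⊕ ((G₂ × Y₂) ⊕ (G₃ × Y₃))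

/-- positions -/
abbrev PP (k : ℕ) : Type := Fin k ⊕ (Fin k ⊕ Fin k)

/-- bundle columns -/
abbrev BB (k : ℕ) (G : Type) [Fintype G] : Type := Fin (k * (Fintype.card G - 1))

/-- the block-cyclic array -/
def Am (W : G₁ × Y₁ → G₂ × Y₂ → A) (Dm : G₂ × Y₂ → G₃ × Y₃ → A) (E : G₃ × Y₃ → G₁ × Y₁ → A) :
    XX G₁ G₂ G₃ Y₁ Y₂ Y₃ → XX G₁ G₂ G₃ Y₁ Y₂ Y₃ → A
  | Sum.inl x, Sum.inr (Sum.inl y) => W x y
  | Sum.inr (Sum.inl y), Sum.inr (Sum.inr z) => Dm y z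
  | Sum.inr (Sum.inr z), Sum.inl x => E z x
  | _, _ => 0

variable (W : G₁ × Y₁ → G₂ × Y₂ → A) (Dm : G₂ × Y₂ → G₃ × Y₃ → A) (E : G₃ × Y₃ → G₁ × Y₁ → A)
variable {D D' : Type}

/-- the form `A_x` in the variables `c` -/
noncomputable def Af (c : XX G₁ G₂ G₃ Y₁ Y₂ Y₃ → D) (x : XX G₁ G₂ G₃ Y₁ Y₂ Y₃) : MvPolynomial D A :=
  ∑ y, C (Am W Dm E x y) * X (c y)

/-- the sum of the exit columns -/
noncomputable def Om {t : ℕ} (ω : Fin t → D) : MvPolynomial D A := ∑ i, X (ω i)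

/-- what remains of the stations after the elimination of `κ` -/
noncomputable def Qx {t : ℕ} (c c' : XX G₁ G₂ G₃ Y₁ Y₂ Y₃ → D) (ω : Fin t → D) : MvPolynomial D A :=
  ∏ x, (Af W Dm E c x * Om ω - (X (c x) + X (c' x)) ^ 2)

/-- group sums -/
noncomputable def Gam {G Y : Type} [Fintype Y] (c' : G × Y → D) (g : G) : MvPolynomial D A :=
  ∑ y, X (c' (g, y))

/-- the enforcer of one layer -/
noncomputable def En {G Y : Type} [Fintype G] [Fintype Y] (k : ℕ) (ζ : ℂ) (β : BB k G → D)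
    (c' : G × Y → D) : MvPolynomial D A :=
  ∏ g : G, ∏ i : Fin k, ((∑ b, X (β b)) - algebraMap ℂ (MvPolynomial D A) (ζ ^ (i : ℕ)) * Gam c' g)

theorem rename_Af (f : D → D') (c : XX G₁ G₂ G₃ Y₁ Y₂ Y₃ → D) (x : XX G₁ G₂ G₃ Y₁ Y₂ Y₃) :
    rename f (Af W Dm E c x) = Af W Dm E (f ∘ c) x := by
  simp [Af]

theorem rename_Om {t : ℕ} (f : D → D') (ω : Fin t → D) :
    rename f (Om ω : MvPolynomial D A) = Om (f ∘ ω) := by
  simp [Om]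

theorem rename_Qx {t : ℕ} (f : D → D') (c c' : XX G₁ G₂ G₃ Y₁ Y₂ Y₃ → D) (ω : Fin t → D) :
    rename f (Qx W Dm E c c' ω) = Qx W Dm E (f ∘ c) (f ∘ c') (f ∘ ω) := by
  simp only [Qx, map_prod, map_sub, map_mul, map_pow, map_add, rename_X, rename_Af, rename_Om,
    Function.comp]

theorem rename_Gam {G Y : Type} [Fintype Y] (f : D → D') (c' : G × Y → D) (g : G) :
    rename f (Gam c' g : MvPolynomial D A) = Gam (f ∘ c') g := by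
  simp [Gam]

theorem rename_alg (f : D → D') (z : ℂ) :
    rename f (algebraMap ℂ (MvPolynomial D A) z) = algebraMap ℂ (MvPolynomial D' A) z := by
  rw [IsScalarTower.algebraMap_apply ℂ A (MvPolynomial D A),
    IsScalarTower.algebraMap_apply ℂ A (MvPolynomial D' A)]
  simp [algebraMap_eq]

theorem rename_En {G Y : Type} [Fintype G] [Fintype Y] (k : ℕ) (ζ : ℂ) (f : D → D') (β : BB k G → D)
    (c' : G × Y → D) :
    rename f (En k ζ β c' : MvPolynomial D A) = En k ζ (f ∘ β) (f ∘ c') := by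
  simp only [En, map_prod, map_sub, map_mul, map_sum, rename_X, rename_Gam, rename_alg,
    Function.comp]

/-! ### the last three blocks -/

/-- the product over the stations not occupied -/
theorem prod_filter_sum {α β P Q M : Type} [Fintype α] [Fintype β] [Fintype P] [Fintype Q]
    [DecidableEq α] [DecidableEq β] [CommMonoid M] (e : P → α) (e' : Q → β) (F : α ⊕ β → M) :
    (∏ x ∈ off (Sum.map e e'), F x) =
      (∏ x ∈ off e, F (Sum.inl x)) * ∏ x ∈ off e', F (Sum.inr x) := by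
  unfold off
  rw [Finset.prod_filter, Finset.prod_filter, Finset.prod_filter, Fintype.prod_sum_type]
  congr 1
  · refine Finset.prod_congr rfl fun x _ => ?_
    congr 1
    simp
  · refine Finset.prod_congr rfl fun x _ => ?_
    congr 1
    simp

theorem last (T2 : StmTop2) (T8 : StmTop8) {k : ℕ} (e₁ : Fin k → G₁ × Y₁) (e₂ : Fin k → G₂ × Y₂)
    (e₃ : Fin k → G₃ × Y₃) (h₁ : Function.Injective e₁) (h₂ : Function.Injective e₂)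
    (h₃ : Function.Injective e₃) :
    top ((∏ x ∈ off (Sum.map e₁ (Sum.map e₂ e₃)),
        (X x : MvPolynomial (XX G₁ G₂ G₃ Y₁ Y₂ Y₃) A)) *
      ∏ p : PP k, Af W Dm E id (Sum.map e₁ (Sum.map e₂ e₃) p)) =
    (∑ ρ : Equiv.Perm (Fin k), ∏ i, E (e₃ i) (e₁ (ρ i))) *
      ((∑ ρ : Equiv.Perm (Fin k), ∏ i, W (e₁ i) (e₂ (ρ i))) *
        (∑ ρ : Equiv.Perm (Fin k), ∏ i, Dm (e₂ i) (e₃ (ρ i)))) := by
  have a1 : ∀ x, Af W Dm E id (Sum.inl x) = ∑ y, C (W x y) * X (Sum.inr (Sum.inl y)) := by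
    intro x
    simp [Af, Am]
  have a2 : ∀ x, Af W Dm E id (Sum.inr (Sum.inl x)) = ∑ y, C (Dm x y) * X (Sum.inr (Sum.inr y)) := by
    intro x
    simp [Af, Am]
  have a3 : ∀ x, Af W Dm E id (Sum.inr (Sum.inr x)) = ∑ y, C (E x y) * X (Sum.inl y) := by
    intro x
    simp [Af, Am]
  rw [prod_filter_sum, prod_filter_sum, Fintype.prod_sum_type, Fintype.prod_sum_type]
  simp only [Sum.map_inl, Sum.map_inr, a1, a2, a3]
  have key : ((∏ x ∈ off e₁,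
        (X (Sum.inl x) : MvPolynomial (XX G₁ G₂ G₃ Y₁ Y₂ Y₃) A)) *
      ((∏ x ∈ off e₂, X (Sum.inr (Sum.inl x))) *
        ∏ x ∈ off e₃, X (Sum.inr (Sum.inr x)))) *
      ((∏ i, ∑ y, C (W (e₁ i) y) * X (Sum.inr (Sum.inl y))) *
        ((∏ i, ∑ y, C (Dm (e₂ i) y) * X (Sum.inr (Sum.inr y))) *
          ∏ i, ∑ y, C (E (e₃ i) y) * X (Sum.inl y))) =
      ((∏ x ∈ off e₁, X (Sum.inl x)) *
        ∏ i, ∑ y, C (E (e₃ i) y) * X (Sum.inl y)) *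
      r (((∏ x ∈ off e₂, X (Sum.inl x)) *
          ∏ i, ∑ y, C (W (e₁ i) y) * X (Sum.inl y)) *
        r ((∏ x ∈ off e₃, X x) *
          ∏ i, ∑ y, C (Dm (e₂ i) y) * X y)) := by
    simp only [map_mul, map_prod, map_sum, rename_X, rename_C]
    ring
  rw [key, elim8 T2 T8 e₁ h₁ (fun i y => E (e₃ i) y), elim8 T2 T8 e₂ h₂ (fun i y => W (e₁ i) y)]
  congr 2
  exact T8 (Fin k) (G₃ × Y₃) A e₃ h₃ (fun i y => Dm (e₂ i) y)

/-! ### elimination of `c'` and of the exits for one choice of positions -/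

theorem occ (T2 : StmTop2) (T5 : StmTop5) (T6 : StmTop6) {k t : ℕ} (ht : Fintype.card (PP k) = t)
    (e : PP k → XX G₁ G₂ G₃ Y₁ Y₂ Y₃) (he : Function.Injective e) :
    top (Qx W Dm E (Sum.inr ∘ Sum.inr) Sum.inl (Sum.inr ∘ Sum.inl) *
        ∏ p, (X (Sum.inl (e p)) : MvPolynomial (XX G₁ G₂ G₃ Y₁ Y₂ Y₃ ⊕ (Fin t ⊕ XX G₁ G₂ G₃ Y₁ Y₂ Y₃)) A)) =
      (t.factorial : A) * ((-2) ^ (off e).card * top ((∏ x ∈ off e, X x) * ∏ p, Af W Dm E id (e p))) := by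
  have h1 : Qx W Dm E (Sum.inr ∘ Sum.inr) Sum.inl (Sum.inr ∘ Sum.inl) *
        ∏ p, (X (Sum.inl (e p)) : MvPolynomial (XX G₁ G₂ G₃ Y₁ Y₂ Y₃ ⊕ (Fin t ⊕ XX G₁ G₂ G₃ Y₁ Y₂ Y₃)) A) =
      ((∏ x, (r (Af W Dm E Sum.inr x * Om Sum.inl) -
        (r (X (Sum.inr x)) + X (Sum.inl x)) ^ 2)) * ∏ p, X (Sum.inl (e p))) * r 1 := by
    simp only [Qx, map_mul, rename_Af, rename_Om, rename_X, map_one, mul_one, Function.comp]
  rw [h1, elim6 T2 T6 (fun x => Af W Dm E Sum.inr x * Om Sum.inl) (fun x => X (Sum.inr x)) e he 1]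
  have h2 : ((∏ x ∈ off e, (-2 * X (Sum.inr x))) * ∏ p, (Af W Dm E Sum.inr (e p) * Om Sum.inl -
      X (Sum.inr (e p)) ^ 2)) * (1 : MvPolynomial (Fin t ⊕ XX G₁ G₂ G₃ Y₁ Y₂ Y₃) A) =
      (∏ p, (r (Af W Dm E id (e p)) * (∑ i : Fin t, X (Sum.inl i)) + r (-(X (e p)) ^ 2))) *
        r (∏ x ∈ off e, (-2 * X x)) := by
    simp only [map_mul, map_prod, map_neg, map_pow, rename_Af, rename_X, mul_one, Function.comp_id, Om,
      map_ofNat, sub_eq_add_neg]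
    rw [mul_comm]
  rw [h2, elim5 T2 T5 t ht]
  have h3 : ((t.factorial : MvPolynomial (XX G₁ G₂ G₃ Y₁ Y₂ Y₃) A) * ∏ p, Af W Dm E id (e p)) *
      ∏ x ∈ off e, (-2 * X x) =
      C ((t.factorial : A) * (-2) ^ (off e).card) * ((∏ x ∈ off e, X x) * ∏ p, Af W Dm E id (e p)) := by
    rw [Finset.prod_mul_distrib, Finset.prod_const]
    simp only [map_mul, map_pow, map_neg, map_natCast, map_ofNat]
    ring
  rw [h3, top_rs, mul_assoc]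

theorem occ0 (T2 : StmTop2) (T7 : StmTop7) {k t : ℕ}
    (e : PP k → XX G₁ G₂ G₃ Y₁ Y₂ Y₃) (he : ¬ Function.Injective e) :
    top (Qx W Dm E (Sum.inr ∘ Sum.inr) Sum.inl (Sum.inr ∘ Sum.inl) *
        ∏ p, (X (Sum.inl (e p)) : MvPolynomial (XX G₁ G₂ G₃ Y₁ Y₂ Y₃ ⊕ (Fin t ⊕ XX G₁ G₂ G₃ Y₁ Y₂ Y₃)) A)) =
      0 := by
  have h1 : Qx W Dm E (Sum.inr ∘ Sum.inr) Sum.inl (Sum.inr ∘ Sum.inl) *
        ∏ p, (X (Sum.inl (e p)) : MvPolynomial (XX G₁ G₂ G₃ Y₁ Y₂ Y₃ ⊕ (Fin t ⊕ XX G₁ G₂ G₃ Y₁ Y₂ Y₃)) A) =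
      ((∏ x, (r (Af W Dm E Sum.inr x * Om Sum.inl) -
        (r (X (Sum.inr x)) + X (Sum.inl x)) ^ 2)) * ∏ p, X (Sum.inl (e p))) * r 1 := by
    simp only [Qx, map_mul, rename_Af, rename_Om, rename_X, map_one, mul_one, Function.comp]
  rw [h1, elim7 T2 T7 (fun x => Af W Dm E Sum.inr x * Om Sum.inl) (fun x => X (Sum.inr x)) e he 1]

/-! ### the sum over all choices of positions -/

theorem card_off {P K : Type} [Fintype P] [Fintype K] [DecidableEq K] (e : P → K)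
    (he : Function.Injective e) : (off e).card = Fintype.card K - Fintype.card P := by
  have h : off e = Finset.univ \ Finset.univ.image e := by
    ext x
    simp [off]
  rw [h, Finset.card_sdiff_of_subset (Finset.subset_univ _), Finset.card_image_of_injective _ he,
    Finset.card_univ, Finset.card_univ]

theorem sum_emb {k : ℕ} {Y M : Type} [Fintype Y] [DecidableEq Y] [AddCommMonoid M]
    (F : (Fin k → Y) → M) (hF : ∀ τ, ¬ Function.Injective τ → F τ = 0) :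
    ∑ τ, F τ = ∑ τ : Fin k ↪ Y, F τ := by
  classical
  have h1 : ∑ τ, F τ = ∑ τ ∈ Finset.univ.filter (fun τ : Fin k → Y => Function.Injective τ), F τ := by
    rw [Finset.sum_filter]
    refine Finset.sum_congr rfl fun τ _ => ?_
    split_ifs with h
    · rfl
    · exact hF τ h
  rw [h1, Finset.sum_subtype (Finset.univ.filter (fun τ : Fin k → Y => Function.Injective τ))
    (p := fun τ => Function.Injective τ) (by simp)]
  exact Fintype.sum_equiv (Equiv.subtypeInjectiveEquivEmbedding _ _) _ _ (fun τ => rfl)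

/-- the positions given by three groups and three sequences -/
def pos {k : ℕ} (g₁ : G₁) (g₂ : G₂) (g₃ : G₃) (τ : Fin k → Y₁) (β : Fin k → Y₂) (υ : Fin k → Y₃) :
    PP k → XX G₁ G₂ G₃ Y₁ Y₂ Y₃ :=
  Sum.map (fun i => (g₁, τ i)) (Sum.map (fun i => (g₂, β i)) (fun i => (g₃, υ i)))

theorem pos_inj {k : ℕ} (g₁ : G₁) (g₂ : G₂) (g₃ : G₃) (τ : Fin k → Y₁) (β : Fin k → Y₂)
    (υ : Fin k → Y₃) : Function.Injective (pos g₁ g₂ g₃ τ β υ) ↔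
      Function.Injective τ ∧ Function.Injective β ∧ Function.Injective υ := by
  unfold pos
  rw [Sum.map_injective, Sum.map_injective]
  have h : ∀ {G Y : Type} (g : G) (f : Fin k → Y), Function.Injective (fun i => (g, f i)) ↔
      Function.Injective f := by
    intro G Y g f
    constructor
    · intro h a b hab
      exact h (by simp [hab])
    · intro h a b hab
      exact h (Prod.ext_iff.mp hab).2
  rw [h, h, h]

/-- the value of the gadget -/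
noncomputable def val (k : ℕ) : A :=
  ∑ g₁ : G₁, ∑ g₂ : G₂, ∑ g₃ : G₃, ∑ τ : Fin k ↪ Y₁, ∑ β : Fin k ↪ Y₂, ∑ υ : Fin k ↪ Y₃,
    (∑ ρ : Equiv.Perm (Fin k), ∏ i, W (g₁, τ i) (g₂, β (ρ i))) *
    (∑ ρ : Equiv.Perm (Fin k), ∏ i, Dm (g₂, β i) (g₃, υ (ρ i))) *
    (∑ ρ : Equiv.Perm (Fin k), ∏ i, E (g₃, υ i) (g₁, τ (ρ i)))

theorem occ_pos (T2 : StmTop2) (T5 : StmTop5) (T6 : StmTop6) (T8 : StmTop8) {k t : ℕ}
    (ht : Fintype.card (PP k) = t) (g₁ : G₁) (g₂ : G₂) (g₃ : G₃) (τ : Fin k ↪ Y₁) (β : Fin k ↪ Y₂)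
    (υ : Fin k ↪ Y₃) :
    top (Qx W Dm E (Sum.inr ∘ Sum.inr) Sum.inl (Sum.inr ∘ Sum.inl) *
        ∏ p, (X (Sum.inl (pos g₁ g₂ g₃ τ β υ p)) :
          MvPolynomial (XX G₁ G₂ G₃ Y₁ Y₂ Y₃ ⊕ (Fin t ⊕ XX G₁ G₂ G₃ Y₁ Y₂ Y₃)) A)) =
      ((t.factorial : A) * (-2) ^ (Fintype.card (XX G₁ G₂ G₃ Y₁ Y₂ Y₃) - t)) *
        ((∑ ρ : Equiv.Perm (Fin k), ∏ i, W (g₁, τ i) (g₂, β (ρ i))) *
    (∑ ρ : Equiv.Perm (Fin k), ∏ i, Dm (g₂, β i) (g₃, υ (ρ i))) *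
    (∑ ρ : Equiv.Perm (Fin k), ∏ i, E (g₃, υ i) (g₁, τ (ρ i)))) := by
  have he : Function.Injective (pos g₁ g₂ g₃ τ β υ) :=
    (pos_inj g₁ g₂ g₃ τ β υ).mpr ⟨τ.injective, β.injective, υ.injective⟩
  rw [occ W Dm E T2 T5 T6 ht _ he, card_off _ he, ht]
  have h := last W Dm E T2 T8 (fun i => (g₁, τ i)) (fun i => (g₂, β i)) (fun i => (g₃, υ i))
    (fun a b hab => τ.injective (Prod.ext_iff.mp hab).2)
    (fun a b hab => β.injective (Prod.ext_iff.mp hab).2)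
    (fun a b hab => υ.injective (Prod.ext_iff.mp hab).2)
  unfold pos
  rw [h]
  ring

theorem Gam_pow {G Y : Type} [Fintype Y] (k : ℕ) (c' : G × Y → D) (g : G) :
    (Gam c' g : MvPolynomial D A) ^ k = ∑ τ : Fin k → Y, ∏ i, X (c' (g, τ i)) := by
  unfold Gam
  rw [Fintype.sum_pow]

theorem layers (T2 : StmTop2) (T5 : StmTop5) (T6 : StmTop6) (T7 : StmTop7) (T8 : StmTop8) {k t : ℕ}
    (ht : Fintype.card (PP k) = t) :
    top (Qx W Dm E (Sum.inr ∘ Sum.inr) Sum.inl (Sum.inr ∘ Sum.inl) *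
        ((∑ g, Gam (Sum.inl ∘ Sum.inl) g ^ k) * ((∑ g, Gam (Sum.inl ∘ Sum.inr ∘ Sum.inl) g ^ k) *
          (∑ g, Gam (Sum.inl ∘ Sum.inr ∘ Sum.inr) g ^ k)) :
          MvPolynomial (XX G₁ G₂ G₃ Y₁ Y₂ Y₃ ⊕ (Fin t ⊕ XX G₁ G₂ G₃ Y₁ Y₂ Y₃)) A)) =
      ((t.factorial : A) * (-2) ^ (Fintype.card (XX G₁ G₂ G₃ Y₁ Y₂ Y₃) - t)) * val W Dm E k := by
  have h1 : ((∑ g, Gam (Sum.inl ∘ Sum.inl) g ^ k) * ((∑ g, Gam (Sum.inl ∘ Sum.inr ∘ Sum.inl) g ^ k) *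
          (∑ g, Gam (Sum.inl ∘ Sum.inr ∘ Sum.inr) g ^ k)) :
          MvPolynomial (XX G₁ G₂ G₃ Y₁ Y₂ Y₃ ⊕ (Fin t ⊕ XX G₁ G₂ G₃ Y₁ Y₂ Y₃)) A) =
      ∑ g₁ : G₁, ∑ g₂ : G₂, ∑ g₃ : G₃, ∑ τ : Fin k → Y₁, ∑ β : Fin k → Y₂, ∑ υ : Fin k → Y₃,
        ∏ p, X (Sum.inl (pos g₁ g₂ g₃ τ β υ p)) := by
    have h2 : ∀ (g₁ : G₁) (g₂ : G₂) (g₃ : G₃) (τ : Fin k → Y₁) (β : Fin k → Y₂) (υ : Fin k → Y₃),
        (∏ p, X (Sum.inl (pos g₁ g₂ g₃ τ β υ p)) :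
          MvPolynomial (XX G₁ G₂ G₃ Y₁ Y₂ Y₃ ⊕ (Fin t ⊕ XX G₁ G₂ G₃ Y₁ Y₂ Y₃)) A) =
        (∏ i, X (Sum.inl (Sum.inl (g₁, τ i)))) * ((∏ i, X (Sum.inl (Sum.inr (Sum.inl (g₂, β i))))) *
          ∏ i, X (Sum.inl (Sum.inr (Sum.inr (g₃, υ i))))) := by
      intro g₁ g₂ g₃ τ β υ
      rw [Fintype.prod_sum_type, Fintype.prod_sum_type]
      rfl
    simp only [h2, ← Finset.mul_sum, ← Finset.sum_mul, Gam_pow, Function.comp]
  rw [h1]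
  simp only [Finset.mul_sum, map_sum]
  unfold val
  rw [Finset.mul_sum]
  refine Finset.sum_congr rfl fun g₁ _ => ?_
  rw [Finset.mul_sum]
  refine Finset.sum_congr rfl fun g₂ _ => ?_
  rw [Finset.mul_sum]
  refine Finset.sum_congr rfl fun g₃ _ => ?_
  rw [Finset.mul_sum, sum_emb]
  · refine Finset.sum_congr rfl fun τ _ => ?_
    rw [Finset.mul_sum, sum_emb]
    · refine Finset.sum_congr rfl fun β _ => ?_
      rw [Finset.mul_sum, sum_emb]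
      · refine Finset.sum_congr rfl fun υ _ => ?_
        exact occ_pos W Dm E T2 T5 T6 T8 ht g₁ g₂ g₃ τ β υ
      · intro υ hυ
        exact occ0 W Dm E T2 T7 _ (fun h => hυ ((pos_inj _ _ _ _ _ _).mp h).2.2)
    · intro β hβ
      refine Finset.sum_eq_zero fun υ _ => ?_
      exact occ0 W Dm E T2 T7 _ (fun h => hβ ((pos_inj _ _ _ _ _ _).mp h).2.1)
  · intro τ hτ
    refine Finset.sum_eq_zero fun β _ => Finset.sum_eq_zero fun υ _ => ?_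
    exact occ0 W Dm E T2 T7 _ (fun h => hτ ((pos_inj _ _ _ _ _ _).mp h).1)

/-! ### the bundles -/

theorem bund (T2 : StmTop2) (T4 : StmTop4) {G Y : Type} [Fintype G] [Nonempty G] [Fintype Y] [Fintype D]
    (k : ℕ) (hk : 1 ≤ k) (ζ : ℂ) (hζ : IsPrimitiveRoot ζ k) (c' : G × Y → D) (q : MvPolynomial D A) :
    top ((En k ζ Sum.inl (Sum.inr ∘ c') : MvPolynomial (BB k G ⊕ D) A) * r q) =
      top ((- ((k * (Fintype.card G - 1)).factorial : MvPolynomial D A) * ∑ g, Gam c' g ^ k) * q) := by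
  rw [← elim4 T2 T4 k hk ζ hζ G (fun g => Gam c' g) q]
  unfold En
  simp only [map_mul, rename_Gam, rename_alg]

theorem bundles (T2 : StmTop2) (T4 : StmTop4) (T5 : StmTop5) (T6 : StmTop6) (T7 : StmTop7) (T8 : StmTop8)
    {k t : ℕ} (hk : 1 ≤ k) (ζ : ℂ) (hζ : IsPrimitiveRoot ζ k) (ht : Fintype.card (PP k) = t) :
    top (Qx W Dm E (Sum.inr ∘ Sum.inr ∘ Sum.inr ∘ Sum.inr ∘ Sum.inr) (Sum.inr ∘ Sum.inr ∘ Sum.inr ∘ Sum.inl)
        (Sum.inr ∘ Sum.inr ∘ Sum.inr ∘ Sum.inr ∘ Sum.inl) *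
        (En k ζ Sum.inl (Sum.inr ∘ Sum.inr ∘ Sum.inr ∘ Sum.inl ∘ Sum.inl) *
        (En k ζ (Sum.inr ∘ Sum.inl) (Sum.inr ∘ Sum.inr ∘ Sum.inr ∘ Sum.inl ∘ Sum.inr ∘ Sum.inl) *
        En k ζ (Sum.inr ∘ Sum.inr ∘ Sum.inl) (Sum.inr ∘ Sum.inr ∘ Sum.inr ∘ Sum.inl ∘ Sum.inr ∘ Sum.inr))) :
        MvPolynomial (BB k G₁ ⊕ (BB k G₂ ⊕ (BB k G₃ ⊕ (XX G₁ G₂ G₃ Y₁ Y₂ Y₃ ⊕
          (Fin t ⊕ XX G₁ G₂ G₃ Y₁ Y₂ Y₃))))) A) =
      ((-((k * (Fintype.card G₁ - 1)).factorial : A)) * (-((k * (Fintype.card G₂ - 1)).factorial : A)) *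
        (-((k * (Fintype.card G₃ - 1)).factorial : A)) *
      ((t.factorial : A) * (-2) ^ (Fintype.card (XX G₁ G₂ G₃ Y₁ Y₂ Y₃) - t))) * val W Dm E k := by
  have h1 : (Qx W Dm E (Sum.inr ∘ Sum.inr ∘ Sum.inr ∘ Sum.inr ∘ Sum.inr) (Sum.inr ∘ Sum.inr ∘ Sum.inr ∘ Sum.inl)
        (Sum.inr ∘ Sum.inr ∘ Sum.inr ∘ Sum.inr ∘ Sum.inl) *
        (En k ζ Sum.inl (Sum.inr ∘ Sum.inr ∘ Sum.inr ∘ Sum.inl ∘ Sum.inl) *
        (En k ζ (Sum.inr ∘ Sum.inl) (Sum.inr ∘ Sum.inr ∘ Sum.inr ∘ Sum.inl ∘ Sum.inr ∘ Sum.inl) *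
        En k ζ (Sum.inr ∘ Sum.inr ∘ Sum.inl) (Sum.inr ∘ Sum.inr ∘ Sum.inr ∘ Sum.inl ∘ Sum.inr ∘ Sum.inr))) :
        MvPolynomial (BB k G₁ ⊕ (BB k G₂ ⊕ (BB k G₃ ⊕ (XX G₁ G₂ G₃ Y₁ Y₂ Y₃ ⊕
          (Fin t ⊕ XX G₁ G₂ G₃ Y₁ Y₂ Y₃))))) A) =
      En k ζ Sum.inl (Sum.inr ∘ Sum.inr ∘ Sum.inr ∘ Sum.inl ∘ Sum.inl) *
        r (En k ζ Sum.inl (Sum.inr ∘ Sum.inr ∘ Sum.inl ∘ Sum.inr ∘ Sum.inl) *
          r (En k ζ Sum.inl (Sum.inr ∘ Sum.inl ∘ Sum.inr ∘ Sum.inr) *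
            r (Qx W Dm E (Sum.inr ∘ Sum.inr) Sum.inl (Sum.inr ∘ Sum.inl)))) := by
    simp only [map_mul, rename_Qx, rename_En, ← Function.comp_assoc]
    ring
  have h2 : ((- ((k * (Fintype.card G₁ - 1)).factorial : MvPolynomial (BB k G₂ ⊕ (BB k G₃ ⊕ (XX G₁ G₂ G₃ Y₁ Y₂ Y₃ ⊕
          (Fin t ⊕ XX G₁ G₂ G₃ Y₁ Y₂ Y₃)))) A) *
        ∑ g, Gam (Sum.inr ∘ Sum.inr ∘ Sum.inl ∘ Sum.inl) g ^ k) *
        (En k ζ Sum.inl (Sum.inr ∘ Sum.inr ∘ Sum.inl ∘ Sum.inr ∘ Sum.inl) *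
          r (En k ζ Sum.inl (Sum.inr ∘ Sum.inl ∘ Sum.inr ∘ Sum.inr) *
            r (Qx W Dm E (Sum.inr ∘ Sum.inr) Sum.inl (Sum.inr ∘ Sum.inl))))) =
      En k ζ Sum.inl (Sum.inr ∘ Sum.inr ∘ Sum.inl ∘ Sum.inr ∘ Sum.inl) *
        r ((- ((k * (Fintype.card G₁ - 1)).factorial : MvPolynomial (BB k G₃ ⊕ (XX G₁ G₂ G₃ Y₁ Y₂ Y₃ ⊕
          (Fin t ⊕ XX G₁ G₂ G₃ Y₁ Y₂ Y₃))) A) *
        ∑ g, Gam (Sum.inr ∘ Sum.inl ∘ Sum.inl) g ^ k) *
          (En k ζ Sum.inl (Sum.inr ∘ Sum.inl ∘ Sum.inr ∘ Sum.inr) *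
            r (Qx W Dm E (Sum.inr ∘ Sum.inr) Sum.inl (Sum.inr ∘ Sum.inl)))) := by
    simp only [map_mul, map_neg, map_natCast, map_sum, map_pow, rename_Gam, ← Function.comp_assoc]
    ring
  have h3 : ((- ((k * (Fintype.card G₂ - 1)).factorial : MvPolynomial (BB k G₃ ⊕ (XX G₁ G₂ G₃ Y₁ Y₂ Y₃ ⊕
          (Fin t ⊕ XX G₁ G₂ G₃ Y₁ Y₂ Y₃))) A) *
        ∑ g, Gam (Sum.inr ∘ Sum.inl ∘ Sum.inr ∘ Sum.inl) g ^ k) *
        ((- ((k * (Fintype.card G₁ - 1)).factorial : MvPolynomial (BB k G₃ ⊕ (XX G₁ G₂ G₃ Y₁ Y₂ Y₃ ⊕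
          (Fin t ⊕ XX G₁ G₂ G₃ Y₁ Y₂ Y₃))) A) *
        ∑ g, Gam (Sum.inr ∘ Sum.inl ∘ Sum.inl) g ^ k) *
          (En k ζ Sum.inl (Sum.inr ∘ Sum.inl ∘ Sum.inr ∘ Sum.inr) *
            r (Qx W Dm E (Sum.inr ∘ Sum.inr) Sum.inl (Sum.inr ∘ Sum.inl))))) =
      En k ζ Sum.inl (Sum.inr ∘ Sum.inl ∘ Sum.inr ∘ Sum.inr) *
        r ((- ((k * (Fintype.card G₂ - 1)).factorial : MvPolynomial (XX G₁ G₂ G₃ Y₁ Y₂ Y₃ ⊕
          (Fin t ⊕ XX G₁ G₂ G₃ Y₁ Y₂ Y₃)) A) * ∑ g, Gam (Sum.inl ∘ Sum.inr ∘ Sum.inl) g ^ k) *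
          ((- ((k * (Fintype.card G₁ - 1)).factorial : MvPolynomial (XX G₁ G₂ G₃ Y₁ Y₂ Y₃ ⊕
          (Fin t ⊕ XX G₁ G₂ G₃ Y₁ Y₂ Y₃)) A) * ∑ g, Gam (Sum.inl ∘ Sum.inl) g ^ k) *
            (Qx W Dm E (Sum.inr ∘ Sum.inr) Sum.inl (Sum.inr ∘ Sum.inl)))) := by
    simp only [map_mul, map_neg, map_natCast, map_sum, map_pow, rename_Gam, ← Function.comp_assoc]
    ring
  have h4 : ((- ((k * (Fintype.card G₃ - 1)).factorial : MvPolynomial (XX G₁ G₂ G₃ Y₁ Y₂ Y₃ ⊕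
          (Fin t ⊕ XX G₁ G₂ G₃ Y₁ Y₂ Y₃)) A) * ∑ g, Gam (Sum.inl ∘ Sum.inr ∘ Sum.inr) g ^ k) *
      ((- ((k * (Fintype.card G₂ - 1)).factorial : MvPolynomial (XX G₁ G₂ G₃ Y₁ Y₂ Y₃ ⊕
          (Fin t ⊕ XX G₁ G₂ G₃ Y₁ Y₂ Y₃)) A) * ∑ g, Gam (Sum.inl ∘ Sum.inr ∘ Sum.inl) g ^ k) *
          ((- ((k * (Fintype.card G₁ - 1)).factorial : MvPolynomial (XX G₁ G₂ G₃ Y₁ Y₂ Y₃ ⊕
          (Fin t ⊕ XX G₁ G₂ G₃ Y₁ Y₂ Y₃)) A) * ∑ g, Gam (Sum.inl ∘ Sum.inl) g ^ k) *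
            (Qx W Dm E (Sum.inr ∘ Sum.inr) Sum.inl (Sum.inr ∘ Sum.inl))))) =
      C ((-((k * (Fintype.card G₁ - 1)).factorial : A)) * (-((k * (Fintype.card G₂ - 1)).factorial : A)) *
        (-((k * (Fintype.card G₃ - 1)).factorial : A))) *
      (Qx W Dm E (Sum.inr ∘ Sum.inr) Sum.inl (Sum.inr ∘ Sum.inl) *
        ((∑ g, Gam (Sum.inl ∘ Sum.inl) g ^ k) * ((∑ g, Gam (Sum.inl ∘ Sum.inr ∘ Sum.inl) g ^ k) *
          (∑ g, Gam (Sum.inl ∘ Sum.inr ∘ Sum.inr) g ^ k)))) := by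
    simp only [map_mul, map_neg, map_natCast]
    ring
  rw [h1]
  refine (bund T2 T4 k hk ζ hζ (Sum.inr ∘ Sum.inr ∘ Sum.inl ∘ Sum.inl) _).trans ?_
  rw [h2]
  refine (bund T2 T4 k hk ζ hζ (Sum.inr ∘ Sum.inl ∘ Sum.inr ∘ Sum.inl) _).trans ?_
  rw [h3]
  refine (bund T2 T4 k hk ζ hζ (Sum.inl ∘ Sum.inr ∘ Sum.inr) _).trans ?_
  rw [h4, top_rs, layers W Dm E T2 T5 T6 T7 T8 ht, mul_assoc]
  ring

/-! ### the columns and the rows -/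

section cols
variable {k t : ℕ} [Fintype D] [DecidableEq D]
variable (cc cp : XX G₁ G₂ G₃ Y₁ Y₂ Y₃ → D) (ex : Fin t → D) (b1 : BB k G₁ → D) (b2 : BB k G₂ → D)
  (b3 : BB k G₃ → D)

theorem kappa (T2 : StmTop2) (T3 : StmTop3) (q : MvPolynomial D A) :
    top ((∏ x : XX G₁ G₂ G₃ Y₁ Y₂ Y₃, (X (Sum.inl x) + r (Af W Dm E cc x - X (cc x) - X (cp x))) *
        (X (Sum.inl x) + r (Om ex - X (cc x) - X (cp x))) * (X (Sum.inl x) + r (X (cc x) + X (cp x)))) *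
      r q : MvPolynomial (XX G₁ G₂ G₃ Y₁ Y₂ Y₃ ⊕ D) A) = top (Qx W Dm E cc cp ex * q) := by
  rw [elim3 T2 T3]
  congr 2
  unfold Qx
  refine Finset.prod_congr rfl fun x _ => ?_
  ring

variable (G₁ G₂ G₃ Y₁ Y₂ Y₃) in
/-- all rows -/
abbrev Row (k : ℕ) : Type :=
  (XX G₁ G₂ G₃ Y₁ Y₂ Y₃ × Fin 3) ⊕ ((G₁ × Fin k) ⊕ ((G₂ × Fin k) ⊕ (G₃ × Fin k)))

/-- the coefficients of the first rows of the stations -/
noncomputable def vec0 (x : XX G₁ G₂ G₃ Y₁ Y₂ Y₃) : XX G₁ G₂ G₃ Y₁ Y₂ Y₃ ⊕ D → A :=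
  sg (Sum.inl x) + ((∑ y, Am W Dm E x y • sg (Sum.inr (cc y))) - sg (Sum.inr (cc x)) - sg (Sum.inr (cp x)))

/-- the coefficients of the second rows of the stations -/
noncomputable def vec1 (x : XX G₁ G₂ G₃ Y₁ Y₂ Y₃) : XX G₁ G₂ G₃ Y₁ Y₂ Y₃ ⊕ D → A :=
  sg (Sum.inl x) + ((∑ i, sg (Sum.inr (ex i))) - sg (Sum.inr (cc x)) - sg (Sum.inr (cp x)))

/-- the coefficients of the third rows of the stations -/
noncomputable def vec2 (x : XX G₁ G₂ G₃ Y₁ Y₂ Y₃) : XX G₁ G₂ G₃ Y₁ Y₂ Y₃ ⊕ D → A :=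
  sg (Sum.inl x) + (sg (Sum.inr (cc x)) + sg (Sum.inr (cp x)))

/-- the coefficients of the enforcers -/
noncomputable def vecE {G Y K : Type} [Fintype G] [Fintype Y] [DecidableEq K] (ζ : ℂ) (b : BB k G → K)
    (c' : G × Y → K) (g : G) (i : Fin k) : K → A :=
  (∑ j, sg (b j)) - algebraMap ℂ A (ζ ^ (i : ℕ)) • ∑ y, sg (c' (g, y))

theorem lin_vecE {G Y K : Type} [Fintype G] [Fintype Y] [Fintype K] [DecidableEq K] (ζ : ℂ) (b : BB k G → K)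
    (c' : G × Y → K) (g : G) (i : Fin k) :
    lin (vecE ζ b c' g i : K → A) =
      (∑ j, X (b j)) - algebraMap ℂ (MvPolynomial K A) (ζ ^ (i : ℕ)) * Gam c' g := by
  unfold vecE Gam
  rw [IsScalarTower.algebraMap_apply ℂ A (MvPolynomial K A), algebraMap_eq]
  simp only [map_sub, map_sum, map_smul, lin_sg, smul_eq_C_mul]

theorem lin_vec0 (x : XX G₁ G₂ G₃ Y₁ Y₂ Y₃) :
    lin (vec0 W Dm E cc cp x) = X (Sum.inl x) + r (Af W Dm E cc x - X (cc x) - X (cp x)) := by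
  unfold vec0 Af
  simp only [map_add, map_sub, map_sum, map_smul, lin_sg, smul_eq_C_mul, rename_X, map_mul, rename_C]

theorem lin_vec1 (x : XX G₁ G₂ G₃ Y₁ Y₂ Y₃) :
    lin (vec1 cc cp ex x : XX G₁ G₂ G₃ Y₁ Y₂ Y₃ ⊕ D → A) =
      X (Sum.inl x) + r (Om ex - X (cc x) - X (cp x)) := by
  unfold vec1 Om
  simp only [map_add, map_sub, map_sum, lin_sg, rename_X]

theorem lin_vec2 (x : XX G₁ G₂ G₃ Y₁ Y₂ Y₃) :
    lin (vec2 cc cp x : XX G₁ G₂ G₃ Y₁ Y₂ Y₃ ⊕ D → A) = X (Sum.inl x) + r (X (cc x) + X (cp x)) := by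
  unfold vec2
  simp only [map_add, lin_sg, rename_X]

/-- the coefficients of all rows -/
noncomputable def vec (ζ : ℂ) : Row G₁ G₂ G₃ Y₁ Y₂ Y₃ k → XX G₁ G₂ G₃ Y₁ Y₂ Y₃ ⊕ D → A :=
  Sum.elim (fun xj => ![vec0 W Dm E cc cp xj.1, vec1 cc cp ex xj.1, vec2 cc cp xj.1] xj.2)
    (Sum.elim (fun gi => vecE ζ (Sum.inr ∘ b1) (Sum.inr ∘ cp ∘ Sum.inl) gi.1 gi.2)
    (Sum.elim (fun gi => vecE ζ (Sum.inr ∘ b2) (Sum.inr ∘ cp ∘ Sum.inr ∘ Sum.inl) gi.1 gi.2)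
      (fun gi => vecE ζ (Sum.inr ∘ b3) (Sum.inr ∘ cp ∘ Sum.inr ∘ Sum.inr) gi.1 gi.2)))

theorem rows (ζ : ℂ) :
    (∏ i, lin (vec W Dm E cc cp ex b1 b2 b3 ζ i) : MvPolynomial (XX G₁ G₂ G₃ Y₁ Y₂ Y₃ ⊕ D) A) =
    (∏ x : XX G₁ G₂ G₃ Y₁ Y₂ Y₃, (X (Sum.inl x) + r (Af W Dm E cc x - X (cc x) - X (cp x))) *
        (X (Sum.inl x) + r (Om ex - X (cc x) - X (cp x))) * (X (Sum.inl x) + r (X (cc x) + X (cp x)))) *
      r (En k ζ b1 (cp ∘ Sum.inl) * (En k ζ b2 (cp ∘ Sum.inr ∘ Sum.inl) *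
        En k ζ b3 (cp ∘ Sum.inr ∘ Sum.inr))) := by
  rw [Fintype.prod_sum_type, Fintype.prod_sum_type, Fintype.prod_sum_type]
  simp only [Fintype.prod_prod_type, Fin.prod_univ_three]
  refine congrArg₂ (· * ·) ?_ ?_
  · refine Finset.prod_congr rfl fun x _ => ?_
    rw [← lin_vec0, ← lin_vec1, ← lin_vec2]
    rfl
  · simp only [vec, Sum.elim_inl, Sum.elim_inr, lin_vecE]
    rw [map_mul, map_mul, rename_En, rename_En, rename_En]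
    simp only [En]

end cols

/-- the permanent of the array of all rows -/
theorem main_perm (T1 : StmTop1) (T2 : StmTop2) (T3 : StmTop3) (T4 : StmTop4) (T5 : StmTop5)
    (T6 : StmTop6) (T7 : StmTop7) (T8 : StmTop8) {k t : ℕ} (hk : 1 ≤ k) (ζ : ℂ)
    (hζ : IsPrimitiveRoot ζ k) (ht : Fintype.card (PP k) = t) :
    rperm (vec (D := BB k G₁ ⊕ (BB k G₂ ⊕ (BB k G₃ ⊕ (XX G₁ G₂ G₃ Y₁ Y₂ Y₃ ⊕
          (Fin t ⊕ XX G₁ G₂ G₃ Y₁ Y₂ Y₃))))) W Dm E (Sum.inr ∘ Sum.inr ∘ Sum.inr ∘ Sum.inr ∘ Sum.inr)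
        (Sum.inr ∘ Sum.inr ∘ Sum.inr ∘ Sum.inl) (Sum.inr ∘ Sum.inr ∘ Sum.inr ∘ Sum.inr ∘ Sum.inl)
        Sum.inl (Sum.inr ∘ Sum.inl) (Sum.inr ∘ Sum.inr ∘ Sum.inl) ζ) =
      ((-((k * (Fintype.card G₁ - 1)).factorial : A)) * (-((k * (Fintype.card G₂ - 1)).factorial : A)) *
        (-((k * (Fintype.card G₃ - 1)).factorial : A)) *
      ((t.factorial : A) * (-2) ^ (Fintype.card (XX G₁ G₂ G₃ Y₁ Y₂ Y₃) - t))) * val W Dm E k := by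
  rw [← T1]
  refine Eq.trans (congrArg top (rows W Dm E _ _ _ _ _ _ ζ)) ?_
  rw [kappa W Dm E _ _ _ T2 T3]
  exact bundles W Dm E T2 T4 T5 T6 T7 T8 hk ζ hζ ht

end stations

/-! ### padding and reindexing -/

section pad

variable {A : Type} [CommRing A]

theorem rperm_reindex {R K R' K' : Type} [Fintype R] [Fintype K] [DecidableEq R] [DecidableEq K]
    [Fintype R'] [Fintype K'] [DecidableEq R'] [DecidableEq K'] (e : R' ≃ R) (f : K' ≃ K)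
    (M : R → K → A) : rperm (fun i j => M (e i) (f j)) = rperm M := by
  unfold rperm
  refine Fintype.sum_equiv (Equiv.equivCongr e f) _ _ fun σ => ?_
  refine Fintype.prod_equiv e _ _ fun i => ?_
  simp [Equiv.equivCongr]

/-- an array extended by an identity block -/
def padM {s R K : Type} [DecidableEq s] [DecidableEq K] (M : R → K → A) : s ⊕ R → s ⊕ K → A :=
  Sum.elim (fun a => sg (Sum.inl a)) (fun i => Sum.elim (fun _ => 0) (M i))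

theorem rperm_pad (T1 : StmTop1) (T2 : StmTop2) (T8 : StmTop8) {s R K : Type} [Fintype s] [Fintype R]
    [Fintype K] [DecidableEq s] [DecidableEq R] [DecidableEq K] (M : R → K → A) :
    rperm (padM M : s ⊕ R → s ⊕ K → A) = rperm M := by
  rw [← T1 (s ⊕ R) (s ⊕ K) A, ← T1 R K A]
  have h1 : (∏ i, ∑ x, C ((padM M : s ⊕ R → s ⊕ K → A) i x) * X x : MvPolynomial (s ⊕ K) A) =
      (∏ x, X (Sum.inl x)) * r (∏ i, ∑ x, C (M i x) * X x) := by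
    rw [Fintype.prod_sum_type]
    refine congrArg₂ (· * ·) ?_ ?_
    · refine Finset.prod_congr rfl fun a _ => ?_
      exact lin_sg (Sum.inl a)
    · rw [map_prod]
      refine Finset.prod_congr rfl fun i _ => ?_
      rw [Fintype.sum_sum_type, map_sum]
      simp [padM]
  rw [h1]
  have h2 : top (∏ x : s, X x : MvPolynomial s (MvPolynomial K A)) = 1 := by
    have h := T8 (Fin 0) s (MvPolynomial K A) (fun i => i.elim0) (fun i => i.elim0) (fun i => i.elim0)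
    simpa using h
  have h3 := elim T2 (∏ x : s, X (Sum.inl x)) (∏ x : s, X x) (∏ i, ∑ x, C (M i x) * X x) 1
    (by simp only [map_prod, sumAlgEquiv_X_inl]) h2
  rw [h3, one_mul]

end pad

/-! ### affine entries -/

section aff

variable {ι : Type} [Fintype ι]

theorem aff_zero : IsAff (0 : MvPolynomial ι ℂ) := ⟨0, 0, by simp⟩

theorem aff_C (z : ℂ) : IsAff (C z : MvPolynomial ι ℂ) := ⟨z, 0, by simp⟩

theorem aff_one : IsAff (1 : MvPolynomial ι ℂ) := by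
  simpa using aff_C (ι := ι) 1

theorem aff_add {p q : MvPolynomial ι ℂ} (hp : IsAff p) (hq : IsAff q) : IsAff (p + q) := by
  obtain ⟨a, L, rfl⟩ := hp
  obtain ⟨b, N, rfl⟩ := hq
  refine ⟨a + b, L + N, ?_⟩
  simp only [map_add, Pi.add_apply, add_mul, Finset.sum_add_distrib]
  ring

theorem aff_smul (z : ℂ) {p : MvPolynomial ι ℂ} (hp : IsAff p) : IsAff (C z * p) := by
  obtain ⟨a, L, rfl⟩ := hp
  refine ⟨z * a, fun v => z * L v, ?_⟩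
  simp only [map_mul, mul_add, Finset.mul_sum, mul_assoc]

theorem aff_neg {p : MvPolynomial ι ℂ} (hp : IsAff p) : IsAff (-p) := by
  have h := aff_smul (-1) hp
  simpa using h

theorem aff_sub {p q : MvPolynomial ι ℂ} (hp : IsAff p) (hq : IsAff q) : IsAff (p - q) := by
  rw [sub_eq_add_neg]
  exact aff_add hp (aff_neg hq)

theorem aff_sum {α : Type} (s : Finset α) (f : α → MvPolynomial ι ℂ) (h : ∀ a ∈ s, IsAff (f a)) :
    IsAff (∑ a ∈ s, f a) := by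
  classical
  induction s using Finset.induction_on with
  | empty => simpa using aff_zero
  | insert a s ha ih =>
    rw [Finset.sum_insert ha]
    exact aff_add (h a (Finset.mem_insert_self a s)) (ih fun b hb => h b (Finset.mem_insert_of_mem hb))

theorem aff_sg {K : Type} [DecidableEq K] (j i : K) : IsAff ((sg j : K → MvPolynomial ι ℂ) i) := by
  unfold sg
  rw [Pi.single_apply]
  split_ifs
  · exact aff_one
  · exact aff_zero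

theorem aff_mul_sg {K : Type} [DecidableEq K] (j i : K) {p : MvPolynomial ι ℂ} (hp : IsAff p) :
    IsAff (p * (sg j : K → MvPolynomial ι ℂ) i) := by
  unfold sg
  rw [Pi.single_apply]
  split_ifs
  · simpa using hp
  · simpa using aff_zero

theorem aff_pad {s R K : Type} [DecidableEq s] [DecidableEq K] (M : R → K → MvPolynomial ι ℂ)
    (h : ∀ i j, IsAff (M i j)) (i : s ⊕ R) (j : s ⊕ K) : IsAff (padM M i j) := by
  rcases i with a | i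
  · exact aff_sg _ _
  · rcases j with b | j
    · exact aff_zero
    · exact h i j

theorem aff_vecE {G Y K : Type} [Fintype G] [Fintype Y] [DecidableEq K] {k : ℕ} (ζ : ℂ) (b : BB k G → K)
    (c' : G × Y → K) (g : G) (i : Fin k) (j : K) :
    IsAff ((vecE ζ b c' g i : K → MvPolynomial ι ℂ) j) := by
  unfold vecE
  rw [Pi.sub_apply, Pi.smul_apply, Finset.sum_apply, Finset.sum_apply, smul_eq_mul]
  exact aff_sub (aff_sum _ _ fun x _ => aff_sg _ _) (aff_smul _ (aff_sum _ _ fun x _ => aff_sg _ _))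

variable {G₁ G₂ G₃ Y₁ Y₂ Y₃ : Type} [Fintype G₁] [DecidableEq G₁] [Nonempty G₁]
  [Fintype G₂] [DecidableEq G₂] [Nonempty G₂] [Fintype G₃] [DecidableEq G₃] [Nonempty G₃]
  [Fintype Y₁] [DecidableEq Y₁] [Fintype Y₂] [DecidableEq Y₂] [Fintype Y₃] [DecidableEq Y₃]
  {D : Type} [Fintype D] [DecidableEq D]

theorem aff_Am (W : G₁ × Y₁ → G₂ × Y₂ → MvPolynomial ι ℂ) (Dm : G₂ × Y₂ → G₃ × Y₃ → MvPolynomial ι ℂ)
    (E : G₃ × Y₃ → G₁ × Y₁ → MvPolynomial ι ℂ) (hW : ∀ x y, IsAff (W x y)) (hD : ∀ x y, IsAff (Dm x y))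
    (hE : ∀ x y, IsAff (E x y)) (x y : XX G₁ G₂ G₃ Y₁ Y₂ Y₃) : IsAff (Am W Dm E x y) := by
  rcases x with x | x | x <;> rcases y with y | y | y
  · exact aff_zero
  · exact hW x y
  · exact aff_zero
  · exact aff_zero
  · exact aff_zero
  · exact hD x y
  · exact hE x y
  · exact aff_zero
  · exact aff_zero

theorem aff_vec {k t : ℕ} (W : G₁ × Y₁ → G₂ × Y₂ → MvPolynomial ι ℂ)
    (Dm : G₂ × Y₂ → G₃ × Y₃ → MvPolynomial ι ℂ)
    (E : G₃ × Y₃ → G₁ × Y₁ → MvPolynomial ι ℂ) (hW : ∀ x y, IsAff (W x y)) (hD : ∀ x y, IsAff (Dm x y))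
    (hE : ∀ x y, IsAff (E x y))
    (cc cp : XX G₁ G₂ G₃ Y₁ Y₂ Y₃ → D) (ex : Fin t → D) (b1 : BB k G₁ → D) (b2 : BB k G₂ → D)
    (b3 : BB k G₃ → D) (ζ : ℂ) (i : Row G₁ G₂ G₃ Y₁ Y₂ Y₃ k) (j : XX G₁ G₂ G₃ Y₁ Y₂ Y₃ ⊕ D) :
    IsAff (vec W Dm E cc cp ex b1 b2 b3 ζ i j) := by
  rcases i with ⟨x, l⟩ | ⟨g, i⟩ | ⟨g, i⟩ | ⟨g, i⟩
  · fin_cases l
    · show IsAff (vec0 W Dm E cc cp x j)
      unfold vec0
      rw [Pi.add_apply, Pi.sub_apply, Pi.sub_apply, Finset.sum_apply]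
      refine aff_add (aff_sg _ _) (aff_sub (aff_sub (aff_sum _ _ fun y _ => ?_) (aff_sg _ _)) (aff_sg _ _))
      rw [Pi.smul_apply, smul_eq_mul]
      exact aff_mul_sg _ _ (aff_Am W Dm E hW hD hE x y)
    · show IsAff (vec1 cc cp ex x j)
      unfold vec1
      rw [Pi.add_apply, Pi.sub_apply, Pi.sub_apply, Finset.sum_apply]
      exact aff_add (aff_sg _ _) (aff_sub (aff_sub (aff_sum _ _ fun y _ => aff_sg _ _) (aff_sg _ _)) (aff_sg _ _))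
    · show IsAff (vec2 cc cp x j)
      unfold vec2
      rw [Pi.add_apply, Pi.add_apply]
      exact aff_add (aff_sg _ _) (aff_add (aff_sg _ _) (aff_sg _ _))
  · exact aff_vecE _ _ _ _ _ _
  · exact aff_vecE _ _ _ _ _ _
  · exact aff_vecE _ _ _ _ _ _

end aff

end H1CL.Gad

namespace H1CL

open MvPolynomial Gad

theorem gadget_of (T1 : StmTop1) (T2 : StmTop2) (T3 : StmTop3) (T4 : StmTop4) (T5 : StmTop5)
    (T6 : StmTop6) (T7 : StmTop7) (T8 : StmTop8) : StmGadget := by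
  intro ι G₁ G₂ G₃ Y₁ Y₂ Y₃ _ _ _ _ _ _ _ _ _ _ _ _ _ _ _ _ _ k hk W Dm E hW hD hE n hn
  obtain ⟨t, ht⟩ : ∃ t, Fintype.card (PP k) = t := ⟨_, rfl⟩
  have ht' : t = k + (k + k) := by
    rw [← ht]
    simp
  set ζ : ℂ := Complex.exp (2 * Real.pi * Complex.I / k) with hζd
  have hζ : IsPrimitiveRoot ζ k := Complex.isPrimitiveRoot_exp k (by omega)
  have hg₁ : 0 < Fintype.card G₁ := Fintype.card_pos
  have hg₂ : 0 < Fintype.card G₂ := Fintype.card_pos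
  have hg₃ : 0 < Fintype.card G₃ := Fintype.card_pos
  obtain ⟨a₁, ha₁⟩ : ∃ a, Fintype.card G₁ = a + 1 := ⟨Fintype.card G₁ - 1, by omega⟩
  obtain ⟨a₂, ha₂⟩ : ∃ a, Fintype.card G₂ = a + 1 := ⟨Fintype.card G₂ - 1, by omega⟩
  obtain ⟨a₃, ha₃⟩ : ∃ a, Fintype.card G₃ = a + 1 := ⟨Fintype.card G₃ - 1, by omega⟩
  let K : Type := XX G₁ G₂ G₃ Y₁ Y₂ Y₃ ⊕ (BB k G₁ ⊕ (BB k G₂ ⊕ (BB k G₃ ⊕ (XX G₁ G₂ G₃ Y₁ Y₂ Y₃ ⊕
          (Fin t ⊕ XX G₁ G₂ G₃ Y₁ Y₂ Y₃)))))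
  let R : Type := Row G₁ G₂ G₃ Y₁ Y₂ Y₃ k
  have hR : Fintype.card R = 3 * (Fintype.card G₁ * Fintype.card Y₁ + Fintype.card G₂ * Fintype.card Y₂
          + Fintype.card G₃ * Fintype.card Y₃)
        + k * (Fintype.card G₁ + Fintype.card G₂ + Fintype.card G₃) := by
    simp only [R, Fintype.card_sum, Fintype.card_prod, Fintype.card_fin]
    ring
  have hK : Fintype.card K = Fintype.card R := by
    rw [hR]
    simp only [K, Fintype.card_sum, Fintype.card_prod, Fintype.card_fin, ha₁, ha₂, ha₃,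
      Nat.add_sub_cancel, ht']
    ring
  have hRn : Fintype.card R ≤ n := by
    rw [hR]
    exact hn
  have e : Fin n ≃ Fin (n - Fintype.card R) ⊕ R := by
    refine Fintype.equivOfCardEq ?_
    rw [Fintype.card_sum, Fintype.card_fin, Fintype.card_fin]
    omega
  have f : Fin n ≃ Fin (n - Fintype.card R) ⊕ K := by
    refine Fintype.equivOfCardEq ?_
    rw [Fintype.card_sum, Fintype.card_fin, Fintype.card_fin, hK]
    omega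
  let M : R → K → MvPolynomial ι ℂ := vec W Dm E (Sum.inr ∘ Sum.inr ∘ Sum.inr ∘ Sum.inr ∘ Sum.inr)
        (Sum.inr ∘ Sum.inr ∘ Sum.inr ∘ Sum.inl) (Sum.inr ∘ Sum.inr ∘ Sum.inr ∘ Sum.inr ∘ Sum.inl)
        Sum.inl (Sum.inr ∘ Sum.inl) (Sum.inr ∘ Sum.inr ∘ Sum.inl) ζ
  refine ⟨(-((k * (Fintype.card G₁ - 1)).factorial : ℂ)) * (-((k * (Fintype.card G₂ - 1)).factorial : ℂ)) *
        (-((k * (Fintype.card G₃ - 1)).factorial : ℂ)) *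
      ((t.factorial : ℂ) * (-2) ^ (Fintype.card (XX G₁ G₂ G₃ Y₁ Y₂ Y₃) - t)),
    fun i j => padM M (e i) (f j), ?_, ?_, ?_⟩
  · have h2 : ∀ m : ℕ, (m.factorial : ℂ) ≠ 0 := fun m => by
      exact_mod_cast m.factorial_ne_zero
    refine mul_ne_zero (mul_ne_zero (mul_ne_zero (neg_ne_zero.mpr (h2 _)) (neg_ne_zero.mpr (h2 _)))
      (neg_ne_zero.mpr (h2 _))) (mul_ne_zero (h2 _) (pow_ne_zero _ (by norm_num)))
  · intro i j
    exact aff_pad M (aff_vec W Dm E hW hD hE _ _ _ _ _ _ ζ) (e i) (f j)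
  · rw [rperm_reindex e f (padM M), rperm_pad T1 T2 T8 M]
    refine (main_perm W Dm E T1 T2 T3 T4 T5 T6 T7 T8 hk ζ hζ ht).trans ?_
    unfold val
    simp only [map_mul, map_neg, map_pow, map_natCast, map_ofNat]

end H1CL
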