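import Pool.Agent.Helper1x.CL.Rat

/-!
# Lefschetz principle: from fields of characteristic zero to `ℂ`
-/

namespace H1CL

open MvPolynomial Filter Topology Cardinal

universe u

lemma mk_closure_eq (k0 : Type u) [Field k0] [CharZero k0] [Countable k0] :
    #(AlgebraicClosure (FractionRing (MvPolynomial ℝ k0))) = 𝔠 := by
  have h1 : #(MvPolynomial ℝ k0) = 𝔠 := by
    rw [cardinalMk_eq_max_lift, Cardinal.mk_real, Cardinal.lift_continuum, Cardinal.lift_uzero]
    have h2 : #k0 ≤ ℵ₀ := Cardinal.mk_le_aleph0
    rw [max_eq_right (h2.trans Cardinal.aleph0_le_continuum),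
      max_eq_left Cardinal.aleph0_le_continuum]
  have h2 : #(FractionRing (MvPolynomial ℝ k0)) = 𝔠 := by
    rw [← h1]
    exact IsLocalization.cardinalMk _ (nonZeroDivisors (MvPolynomial ℝ k0)) le_rfl
  apply le_antisymm
  · refine (Algebra.IsAlgebraic.cardinalMk_le_max (FractionRing (MvPolynomial ℝ k0)) _).trans ?_
    rw [h2]
    exact max_le le_rfl Cardinal.aleph0_le_continuum
  · rw [← h2]
    exact Cardinal.mk_le_of_injective
      (algebraMap (FractionRing (MvPolynomial ℝ k0)) (AlgebraicClosure _)).injective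

lemma exists_ringHom_complex (k0 : Type u) [Field k0] [CharZero k0] [Countable k0] :
    Nonempty (k0 →+* ℂ) := by
  let L := AlgebraicClosure (FractionRing (MvPolynomial ℝ k0))
  have hL : CharZero L := by
    have : CharZero (FractionRing (MvPolynomial ℝ k0)) := by
      have : CharZero (MvPolynomial ℝ k0) := inferInstance
      infer_instance
    exact charZero_of_injective_algebraMap
      (algebraMap (FractionRing (MvPolynomial ℝ k0)) L).injective
  have hK : ℵ₀ < #ℂ := by rw [Cardinal.mk_complex]; exact Cardinal.aleph0_lt_continuum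
  have hKL : Nonempty (ℂ ≃ L) := by
    rw [← Cardinal.lift_mk_eq', mk_closure_eq k0, Cardinal.mk_complex]
    simp
  obtain ⟨e⟩ := IsAlgClosed.ringEquiv_of_equiv_of_charZero hK hKL
  exact ⟨(e.symm : L →+* ℂ).comp ((algebraMap (FractionRing (MvPolynomial ℝ k0)) L).comp
    ((algebraMap (MvPolynomial ℝ k0) (FractionRing (MvPolynomial ℝ k0))).comp C))⟩

/-! ### Lifting computations to subfields -/

/-- lift a computation along an injective homomorphism whose range contains all constants -/
lemma exists_lift_comp' {R K σ : Type*} [CommRing R] [Field K] [Fintype σ] (ι : R →+* K)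
    (hι : Function.Injective ι) {s : ℕ} {P : Finset (Fin s)}
    {g : Fin s → MvPolynomial σ K}
    (c : Fin s → K) (l : Fin s → σ → K) (a : Fin s → Fin s → K)
    (ha : ∀ i, i ∉ P → ∀ j, ¬ j < i → a i j = 0)
    (hfree : ∀ i, i ∉ P → g i = C (c i) + ∑ v, C (l i v) * X v + ∑ j, C (a i j) * g j)
    (hprod : ∀ i, i ∈ P → ∃ x y : Fin s, x < i ∧ y < i ∧ g i = g x * g y)
    (hc : ∀ i, c i ∈ ι.range) (hl : ∀ i v, l i v ∈ ι.range) (haR : ∀ i j, a i j ∈ ι.range) :
    ∃ G : Fin s → MvPolynomial σ R, (∀ i, MvPolynomial.map ι (G i) = g i) ∧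
      IsComp P G := by
  have hC : ∀ x ∈ ι.range, (C x : MvPolynomial σ K) ∈ (MvPolynomial.map ι).range := by
    rintro _ ⟨x, rfl⟩
    exact ⟨C x, by rw [map_C]⟩
  have hX : ∀ v, (X v : MvPolynomial σ K) ∈ (MvPolynomial.map ι).range := by
    intro v
    exact ⟨X v, by rw [map_X]⟩
  have hmem : ∀ i, g i ∈ (MvPolynomial.map ι).range := by
    intro i
    induction i using WellFoundedLT.induction with
    | ind i ih => ?_
    by_cases hi : i ∈ P
    · obtain ⟨x, y, hx, hy, h⟩ := hprod i hi
      rw [h]
      exact Subring.mul_mem _ (ih x hx) (ih y hy)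
    · rw [hfree i hi]
      refine Subring.add_mem _ (Subring.add_mem _ (hC _ (hc i))
        (Subring.sum_mem _ (fun v _ => Subring.mul_mem _ (hC _ (hl i v)) (hX v))))
        (Subring.sum_mem _ (fun j _ => ?_))
      by_cases hj : j < i
      · exact Subring.mul_mem _ (hC _ (haR i j)) (ih j hj)
      · rw [ha i hi j hj, C_0, zero_mul]
        exact Subring.zero_mem _
  choose G hG using hmem
  choose c' hc' using hc
  choose l' hl' using hl
  choose a' ha' using haR
  have hinj : Function.Injective (MvPolynomial.map (σ := σ) ι) :=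
    MvPolynomial.map_injective _ hι
  refine ⟨G, hG, fun i => ⟨fun hi => ?_, fun hi => ?_⟩⟩
  · obtain ⟨x, y, hx, hy, h⟩ := hprod i hi
    refine ⟨x, y, hx, hy, hinj ?_⟩
    rw [map_mul, hG, hG, hG, h]
  · refine ⟨c' i, fun v => l' i v, fun j => a' i j,
      fun j hj => hι (by rw [ha', ha i hi j hj, map_zero]), hinj ?_⟩
    simp only [map_add, map_sum, map_mul, map_C, map_X, hG, hc', hl', ha']
    exact hfree i hi

/-- choice of the constants of a computation -/
lemma IsComp.constants {K σ : Type*} [Field K] [Fintype σ] {s : ℕ} {P : Finset (Fin s)}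
    {g : Fin s → MvPolynomial σ K} (hg : IsComp P g) :
    ∃ (c : Fin s → K) (l : Fin s → σ → K) (a : Fin s → Fin s → K),
      (∀ i, i ∉ P → ∀ j, ¬ j < i → a i j = 0) ∧
      (∀ i, i ∉ P → g i = C (c i) + ∑ v, C (l i v) * X v + ∑ j, C (a i j) * g j) := by
  classical
  have h1 : ∀ i : Fin s, ∃ (c : K) (l : σ → K)
      (a : Fin s → K), (i ∉ P → ∀ j, ¬ j < i → a j = 0) ∧
      (i ∉ P → g i = C c + ∑ v, C (l v) * X v + ∑ j, C (a j) * g j) := by
    intro i
    by_cases hi : i ∈ P
    · exact ⟨0, 0, 0, fun h => absurd hi h, fun h => absurd hi h⟩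
    · obtain ⟨c, l, a, ha, h⟩ := (hg i).2 hi
      exact ⟨c, l, a, fun _ => ha, fun _ => h⟩
  choose c l a ha hfree using h1
  exact ⟨c, l, a, ha, hfree⟩

lemma countable_closure {k : Type u} [Field k] (S : Set k) (hS : S.Finite) :
    Countable (Subfield.closure S) := by
  rw [← Cardinal.mk_le_aleph0_iff]
  refine (Subfield.cardinalMk_closure_le_max S).trans (max_le ?_ le_rfl)
  exact Cardinal.mk_le_aleph0_iff.2 hS.countable.to_subtype

/-- the permanent polynomial over any ring -/
noncomputable def permR (R : Type*) [CommRing R] (n : ℕ) : MvPolynomial (Fin n × Fin n) R :=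
  ∑ σ : Equiv.Perm (Fin n), ∏ k : Fin n, X (k, σ k)

lemma map_permR {R S : Type*} [CommRing R] [CommRing S] (f : R →+* S) (n : ℕ) :
    MvPolynomial.map f (permR R n) = permR S n := by
  unfold permR
  simp only [map_sum, map_prod, map_X]

/-- exact version -/
theorem comp_to_complex {k : Type u} [Field k] [CharZero k] (n s : ℕ) (P : Finset (Fin s))
    (g : Fin s → MvPolynomial (Fin n × Fin n) k) (hg : IsComp P g) (out : Fin s)
    (hout : g out = permR k n) :
    ∃ G : Fin s → MvPolynomial (Fin n × Fin n) ℂ, IsComp P G ∧ G out = permR ℂ n := by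
  classical
  obtain ⟨c, l, a, ha, hfree⟩ := hg.constants
  let S : Set k := Set.range c ∪ Set.range (fun x : Fin s × (Fin n × Fin n) => l x.1 x.2)
    ∪ Set.range (fun x : Fin s × Fin s => a x.1 x.2)
  have hS : S.Finite := ((Set.finite_range _).union (Set.finite_range _)).union
    (Set.finite_range _)
  have := countable_closure S hS
  have hcz : CharZero (Subfield.closure S) := inferInstance
  obtain ⟨φ⟩ := exists_ringHom_complex (Subfield.closure S)
  have hmem : ∀ x ∈ S, x ∈ ((Subfield.closure S).subtype).range := by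
    intro x hx
    exact ⟨⟨x, Subfield.subset_closure hx⟩, rfl⟩
  obtain ⟨G, hG, hGc⟩ := exists_lift_comp' (Subfield.closure S).subtype
    (Subfield.closure S).subtype.injective c l a ha hfree
    (fun i hi => (hg i).1 hi)
    (fun i => hmem _ (Or.inl (Or.inl ⟨i, rfl⟩)))
    (fun i v => hmem _ (Or.inl (Or.inr ⟨(i, v), rfl⟩)))
    (fun i j => hmem _ (Or.inr ⟨(i, j), rfl⟩))
  refine ⟨fun i => MvPolynomial.map φ (G i), hGc.map φ, ?_⟩
  have h1 : G out = permR (Subfield.closure S) n := by
    apply MvPolynomial.map_injective _ (Subfield.closure S).subtype.injective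
    rw [hG, hout, map_permR]
  show MvPolynomial.map φ (G out) = _
  rw [h1, map_permR]

/-! ### Rational functions over subfields -/

section ratmap

variable {k0 : Type*} {k : Type*} [Field k0] [Field k]

lemma nzd_comap (f : k0 →+* k) : nonZeroDivisors (Polynomial k0) ≤
    (nonZeroDivisors (Polynomial k)).comap (Polynomial.mapRingHom f) := by
  intro p hp
  rw [Submonoid.mem_comap, mem_nonZeroDivisors_iff_ne_zero]
  rw [mem_nonZeroDivisors_iff_ne_zero] at hp
  intro h
  apply hp
  exact Polynomial.map_injective f f.injective (by simpa using h)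

/-- the map of rational function fields induced by a field homomorphism -/
noncomputable def ratMap (f : k0 →+* k) : RatFunc k0 →+* RatFunc k :=
  RatFunc.mapRingHom (Polynomial.mapRingHom f) (nzd_comap f)

lemma ratMap_apply (f : k0 →+* k) (x : RatFunc k0) :
    ratMap f x = algebraMap (Polynomial k) (RatFunc k) (x.num.map f) /
      algebraMap (Polynomial k) (RatFunc k) (x.denom.map f) := by
  unfold ratMap
  rw [RatFunc.coe_mapRingHom_eq_coe_map, RatFunc.map_apply]
  rfl

lemma ratMap_cross (f : k0 →+* k) (x : RatFunc k0) :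
    (ratMap f x).num * x.denom.map f = x.num.map f * (ratMap f x).denom := by
  have hd : x.denom.map f ≠ 0 := (Polynomial.map_ne_zero_iff f.injective).2 x.denom_ne_zero
  apply RatFunc.algebraMap_injective k
  rw [map_mul, map_mul]
  have h1 := ratMap_apply f x
  rw [← RatFunc.num_div_denom (ratMap f x)] at h1
  rw [RatFunc.num_div_denom] at h1
  have h2 : algebraMap (Polynomial k) (RatFunc k) (ratMap f x).num /
      algebraMap (Polynomial k) (RatFunc k) (ratMap f x).denom
      = algebraMap (Polynomial k) (RatFunc k) (x.num.map f) /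
      algebraMap (Polynomial k) (RatFunc k) (x.denom.map f) := by
    rw [RatFunc.num_div_denom]
    exact ratMap_apply f x
  rwa [div_eq_div_iff (RatFunc.algebraMap_ne_zero (RatFunc.denom_ne_zero _))
    (RatFunc.algebraMap_ne_zero hd)] at h2

lemma eval_map_zero (f : k0 →+* k) (p : Polynomial k0) :
    (p.map f).eval 0 = f (p.eval 0) := by
  have := Polynomial.eval_map_apply (p := p) f 0
  rwa [map_zero] at this

lemma ratMap_regular_iff (f : k0 →+* k) (x : RatFunc k0) :
    (ratMap f x).denom.eval 0 ≠ 0 ↔ x.denom.eval 0 ≠ 0 := by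
  have hcross := congrArg (Polynomial.eval 0) (ratMap_cross f x)
  rw [Polynomial.eval_mul, Polynomial.eval_mul, eval_map_zero, eval_map_zero] at hcross
  constructor
  · intro h hx
    rw [hx, map_zero, mul_zero] at hcross
    have h1 : x.num.eval 0 = 0 := by
      have := (mul_eq_zero.1 hcross.symm).resolve_right h
      exact (map_eq_zero f).1 this
    obtain ⟨a, b, hab⟩ := RatFunc.isCoprime_num_denom x
    have := congrArg (Polynomial.eval 0) hab
    rw [Polynomial.eval_add, Polynomial.eval_mul, Polynomial.eval_mul, h1, hx] at this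
    simp at this
  · intro h
    have hdvd := RatFunc.denom_div_dvd (x.num.map f) (x.denom.map f)
    rw [← ratMap_apply] at hdvd
    obtain ⟨q, hq⟩ := hdvd
    have := congrArg (Polynomial.eval 0) hq
    rw [Polynomial.eval_mul, eval_map_zero] at this
    exact left_ne_zero_of_mul (this ▸ (map_ne_zero f).2 h)

lemma ratMap_eval (f : k0 →+* k) (x : RatFunc k0) (hx : x.denom.eval 0 ≠ 0) :
    (ratMap f x).eval (RingHom.id k) 0 = f (x.eval (RingHom.id k0) 0) := by
  have hx' := (ratMap_regular_iff f x).2 hx
  have hcross := congrArg (Polynomial.eval 0) (ratMap_cross f x)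
  rw [Polynomial.eval_mul, Polynomial.eval_mul, eval_map_zero, eval_map_zero] at hcross
  unfold RatFunc.eval
  simp only [Polynomial.eval₂_id]
  rw [map_div₀, div_eq_div_iff hx' ((map_ne_zero f).2 hx)]
  exact hcross

end ratmap

/-- border version: a computation over `k(ε)` that specializes to `perm_n` gives one over
`ℂ(ε)` -/
theorem ratComp_to_complex {k : Type u} [Field k] [CharZero k] (n s : ℕ) (P : Finset (Fin s))
    (g : Fin s → MvPolynomial (Fin n × Fin n) (RatFunc k)) (hg : IsComp P g) (out : Fin s)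
    (hF : ∀ d, (coeff d (g out)).denom.eval 0 ≠ 0 ∧
      (coeff d (g out)).eval (RingHom.id k) 0 = coeff d (permR k n)) :
    ∃ G : Fin s → MvPolynomial (Fin n × Fin n) (RatFunc ℂ), IsComp P G ∧
      ∀ d, (coeff d (G out)).denom.eval 0 ≠ 0 ∧
        (coeff d (G out)).eval (RingHom.id ℂ) 0 = coeff d (permR ℂ n) := by
  classical
  obtain ⟨c, l, a, ha, hfree⟩ := hg.constants
  let T : Set (RatFunc k) := Set.range c ∪ Set.range (fun x : Fin s × (Fin n × Fin n) => l x.1 x.2)
    ∪ Set.range (fun x : Fin s × Fin s => a x.1 x.2)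
  have hT : T.Finite := ((Set.finite_range _).union (Set.finite_range _)).union
    (Set.finite_range _)
  let S : Set k := ⋃ x ∈ T, ((x.num.coeffs : Set k) ∪ (x.denom.coeffs : Set k))
  have hS : S.Finite := hT.biUnion (fun x _ => (Finset.finite_toSet _).union
    (Finset.finite_toSet _))
  have := countable_closure S hS
  have hcz : CharZero (Subfield.closure S) := inferInstance
  obtain ⟨φ⟩ := exists_ringHom_complex (Subfield.closure S)
  set k0 := Subfield.closure S with hk0
  have hlift : ∀ p : Polynomial k, (p.coeffs : Set k) ⊆ S →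
      ∃ q : Polynomial k0, q.map k0.subtype = p := by
    intro p hp
    have : p ∈ Polynomial.lifts k0.subtype := by
      rw [Polynomial.lifts_iff_coeff_lifts]
      intro j
      by_cases hj : p.coeff j = 0
      · rw [hj]; exact ⟨0, map_zero _⟩
      · refine ⟨⟨p.coeff j, Subfield.subset_closure (hp ?_)⟩, rfl⟩
        exact Polynomial.coeff_mem_coeffs hj
    exact (Polynomial.mem_lifts p).1 this
  have hmem : ∀ x ∈ T, x ∈ (ratMap k0.subtype).range := by
    intro x hx
    obtain ⟨p, hp⟩ := hlift x.num (fun y hy => Set.mem_biUnion hx (Or.inl hy))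
    obtain ⟨r, hr⟩ := hlift x.denom (fun y hy => Set.mem_biUnion hx (Or.inr hy))
    refine ⟨algebraMap _ _ p / algebraMap _ _ r, ?_⟩
    have hr0 : r ≠ 0 := by
      rintro rfl
      rw [Polynomial.map_zero] at hr
      exact x.denom_ne_zero hr.symm
    unfold ratMap
    rw [RatFunc.coe_mapRingHom_eq_coe_map, RatFunc.map_apply_div_ne_zero _ _ _ _ hr0]
    rw [Polynomial.coe_mapRingHom, hp, hr, RatFunc.num_div_denom]
  obtain ⟨G, hG, hGc⟩ := exists_lift_comp' (ratMap k0.subtype)
    (ratMap k0.subtype).injective c l a ha hfree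
    (fun i hi => (hg i).1 hi)
    (fun i => hmem _ (Or.inl (Or.inl ⟨i, rfl⟩)))
    (fun i v => hmem _ (Or.inl (Or.inr ⟨(i, v), rfl⟩)))
    (fun i j => hmem _ (Or.inr ⟨(i, j), rfl⟩))
  refine ⟨fun i => MvPolynomial.map (ratMap φ) (G i), hGc.map (ratMap φ), fun d => ?_⟩
  have h1 : ratMap k0.subtype (coeff d (G out)) = coeff d (g out) := by
    rw [← hG out, coeff_map]
  have h2 : (coeff d (G out)).denom.eval 0 ≠ 0 := by
    rw [← ratMap_regular_iff k0.subtype, h1]
    exact (hF d).1
  have h3 : (coeff d (G out)).eval (RingHom.id k0) 0 = coeff d (permR k0 n) := by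
    apply k0.subtype.injective
    rw [← ratMap_eval k0.subtype _ h2, h1, (hF d).2, ← map_permR k0.subtype, coeff_map]
  show (coeff d (MvPolynomial.map (ratMap φ) (G out))).denom.eval 0 ≠ 0 ∧
    (coeff d (MvPolynomial.map (ratMap φ) (G out))).eval (RingHom.id ℂ) 0 = _
  rw [coeff_map]
  refine ⟨(ratMap_regular_iff φ _).2 h2, ?_⟩
  rw [ratMap_eval φ _ h2, h3, ← map_permR φ, coeff_map]

end H1CL
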