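import Pool.Agent.Helper1x.CL.Defs

/-!
# Statements of the independent lemmas (as `Prop`-valued definitions)

Nothing is proved here; each `Stm…` is to be proved in its own file as
`theorem … : Stm…`.

## Proof sketch for `StmGadget` (the identity has been checked numerically)

Stations `X = (G₁×Y₁) ⊕ (G₂×Y₂) ⊕ (G₃×Y₃)`, `A : X × X` the block-cyclic array made of `W, D, E`.
Columns: `κ_x, c_x, c'_x` (`x ∈ X`), exit columns `Fin (3k)`, and for each layer `l` bundle
columns `B_l = Fin (k (|G_l| - 1))`.  Rows: for each station `x`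
* `κ_x - c_x - c'_x + ∑_y A x y • c_y`
* `κ_x - c_x - c'_x + ∑_{exit} ω`
* `κ_x + c_x + c'_x`
and for each layer `l`, group `g ∈ G_l` and `i : Fin k` the enforcer row
`∑_{b ∈ B_l} b - ζ^i • ∑_{y ∈ Y_l} c'_{(g,y)}`, with `ζ = exp(2πi/k)`.
The permanent is the coefficient `top` of the all-ones monomial (in the column variables) in
the product of the rows.  Eliminate variables one block after the other (nested polynomial
rings via `MvPolynomial.sumToIter`; `top` over `K ⊕ D` is `top_D ∘ top_K ∘ sumToIter`):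
1. `κ`: the coefficient of `κ` in `(κ+a)(κ+b)(κ+c)` is `ab+ac+bc`; with `a = A_x - g`,
   `b = Ω - g`, `c = g` (`g = c_x + c'_x`) it is `A_x Ω - g²`.
2. bundles: `∏_i (β - ζ^i Γ_g) = β^k - Γ_g^k`, and `top_{B_l} (∏_g (β^k - Γ_g^k)) =
   - (k(|G_l|-1))! ∑_g Γ_g^k` because only the terms with `β`-degree `k(|G_l|-1)` count.
3. expand `∏_l ∑_g Γ_g^k = ∑_{g₁,g₂,g₃} ∑_{τ,β,υ : Fin k → Y_l} ∏_i c'…` (sequence form);
   non-injective sequences vanish; for injective `e : P → X` (`P` = 3k positions), taking the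
   coefficient in the `c'` variables gives `∏_{x ∉ im e} (-2 c_x) ∏_{p} (A_{e p} Ω - c_{e p}²)`.
4. exits: `top_{Fin (3k)} ∏_{p ∈ P} (a_p Ω + b_p) = (3k)! ∏ a_p` when `|P| = 3k`.
5. `top_X (∏_{x ∉ im e} c_x ∏_p A_{e p})`: the variables of the three layers separate, and
   for an injective `e : Fin k → Y` and linear forms `a_i`:
   `top_Y (∏_{y ∉ im e} X_y ∏_i ∑_y a_i(y) X_y) = ∑_{ρ ∈ Perm (Fin k)} ∏_i a_i (e (ρ i))`.
So `κ = (-2)^{|X|-3k} (3k)! ∏_l (-(k(|G_l|-1))!)` (if `3k ≤ |X|`; otherwise both sides are `0`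
and any `κ ≠ 0` works).  Finally pad with an identity block to size `n`
(rows = columns = `3|X| + k(|G₁|+|G₂|+|G₃|)` before padding).

## Proof sketch for `StmCrit`

`ζ` a primitive `q`-th root of unity.  For `σ, τ : Perm (Fin q)` per group, put
`y = (ζ^{σ r})_r ⊔ (ζ^{τ r})_r` on the `2q` variables: each `q`-th root of unity occurs exactly
twice.  With `f = (q+1)! e_{q+1}`, `E(t) = ∏_i (1 + y_i t) = (1 - (-t)^q)²`,
`∂_i e_{q+1} = e_q(y without i) = [t^q] E(t)/(1+y_i t) = (-1)^q y_i^q - 2(-1)^q = (-1)^{q+1}`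
for all `i`; `∂_i∂_j e_{q+1} = e_{q-1}(y without i, j) = (-1)^{q-1} h_{q-1}(y_i, y_j)` is `0`
if `y_i ≠ y_j` (difference quotient of `z^q`) and `(-1)^{q-1} q y_i^{q-1} ≠ 0` if `y_i = y_j`,
`i ≠ j` (and `0` if `i = j`).  So each row of the Hessian has exactly one nonzero entry, at
the twin index: it is invertible.

## Proof sketch for `StmPersist`

Coefficient vectors `a ∈ (T → ℂ)`; `Φ(y, a) = (∇_y (∑_{m ∈ T} a_m y^m), a)` is `C¹`, and its
derivative at `(y₀, a₀)` is invertible iff the Hessian is; `HasStrictFDerivAt.map_nhds_eq_of_surj`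
(or `HasStrictFDerivAt.toOpenPartialHomeomorph`) gives for every neighbourhood `U` of `y₀`
that for all `a` near `a₀` there is `y ∈ U` with `∇ = ℓ`; the Hessian determinant is continuous,
so nonzero near `(y₀,a₀)`; choose disjoint neighbourhoods of the points of `Z`.
-/

namespace H1CL

open MvPolynomial Filter Topology

/-- **Job GAD** (gadget). For arrays `W`, `D`, `E` of affine polynomials between three
layers of stations `G₁×Y₁ → G₂×Y₂ → G₃×Y₃ → G₁×Y₁` there is an `n × n` array of affine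
polynomials whose permanent is, up to a nonzero constant, the sum over one group of each
layer and `k` positions in each of the three groups of the product of the three `k × k`
permanents. -/
def StmGadget : Prop :=
  ∀ (ι G₁ G₂ G₃ Y₁ Y₂ Y₃ : Type) [Fintype ι] [DecidableEq ι]
    [Fintype G₁] [DecidableEq G₁] [Nonempty G₁] [Fintype G₂] [DecidableEq G₂] [Nonempty G₂]
    [Fintype G₃] [DecidableEq G₃] [Nonempty G₃]
    [Fintype Y₁] [DecidableEq Y₁] [Fintype Y₂] [DecidableEq Y₂] [Fintype Y₃] [DecidableEq Y₃]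
    (k : ℕ) (_ : 1 ≤ k)
    (W : G₁ × Y₁ → G₂ × Y₂ → MvPolynomial ι ℂ)
    (D : G₂ × Y₂ → G₃ × Y₃ → MvPolynomial ι ℂ)
    (E : G₃ × Y₃ → G₁ × Y₁ → MvPolynomial ι ℂ)
    (_ : ∀ x y, IsAff (W x y)) (_ : ∀ x y, IsAff (D x y)) (_ : ∀ x y, IsAff (E x y))
    (n : ℕ)
    (_ : 3 * (Fintype.card G₁ * Fintype.card Y₁ + Fintype.card G₂ * Fintype.card Y₂
          + Fintype.card G₃ * Fintype.card Y₃)
        + k * (Fintype.card G₁ + Fintype.card G₂ + Fintype.card G₃) ≤ n),
    ∃ (κ : ℂ) (lam : Fin n → Fin n → MvPolynomial ι ℂ), κ ≠ 0 ∧ (∀ i j, IsAff (lam i j)) ∧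
      rperm lam = C κ * ∑ g₁ : G₁, ∑ g₂ : G₂, ∑ g₃ : G₃,
        ∑ τ : Fin k ↪ Y₁, ∑ β : Fin k ↪ Y₂, ∑ υ : Fin k ↪ Y₃,
          (∑ ρ : Equiv.Perm (Fin k), ∏ i, W (g₁, τ i) (g₂, β (ρ i))) *
          (∑ ρ : Equiv.Perm (Fin k), ∏ i, D (g₂, β i) (g₃, υ (ρ i))) *
          (∑ ρ : Equiv.Perm (Fin k), ∏ i, E (g₃, υ i) (g₁, τ (ρ i)))

/-- **Job CRIT** (critical points of a sum of elementary symmetric polynomials
`e_{q+1}` in `2q` variables on disjoint sets of variables). -/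
def StmCrit : Prop :=
  ∀ (q : ℕ) (_ : 1 ≤ q) (G : Type) [Fintype G] [DecidableEq G],
    ∃ (ℓ : G × Fin (2 * q) → ℂ) (Z : Finset (G × Fin (2 * q) → ℂ)),
      Z.card = (q.factorial) ^ (2 * Fintype.card G) ∧
      ∀ y ∈ Z, IsNCP (∑ g : G, ∑ τ : Fin (q + 1) ↪ Fin (2 * q), ∏ i, X (g, τ i)) ℓ y

/-- **Job PERS** (persistence of nondegenerate critical points). If the polynomials
`F a` have all their monomials in the finite set `T` and tend to `f` coefficientwise along
the filter `l`, then eventually `F a` has at least as many nondegenerate solutions of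
`∇ = ℓ` as any given finite set of such solutions for `f`. -/
def StmPersist : Prop :=
  ∀ (ι : Type) [Fintype ι] [DecidableEq ι] (T : Finset (ι →₀ ℕ)) (α : Type) (l : Filter α)
    (F : α → MvPolynomial ι ℂ) (f : MvPolynomial ι ℂ)
    (_ : ∀ᶠ a in l, (F a).support ⊆ T) (_ : f.support ⊆ T)
    (_ : ∀ m, Tendsto (fun a => coeff m (F a)) l (𝓝 (coeff m f)))
    (ℓ : ι → ℂ) (Z : Finset (ι → ℂ)) (_ : ∀ y ∈ Z, IsNCP f ℓ y),
    ∀ᶠ a in l, ∃ Z' : Finset (ι → ℂ), Z'.card = Z.card ∧ ∀ y ∈ Z', IsNCP (F a) ℓ y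

end H1CL
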