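import Pool.Agent.Helper1x.CL.Defs
import Pool.Agent.Helper1x.CL.Stm

/-!
# Job PERS: persistence of nondegenerate critical points (helper56)
-/

namespace H1CL.PersProof

open MvPolynomial Filter Topology

set_option linter.unusedSectionVars false

variable {ι : Type} [Fintype ι] [DecidableEq ι]

/-- the differential of the evaluation of a polynomial -/
noncomputable def dEv (p : MvPolynomial ι ℂ) (y : ι → ℂ) : (ι → ℂ) →L[ℂ] ℂ :=
  ∑ i, (eval y (pderiv i p)) • (ContinuousLinearMap.proj (R := ℂ) (φ := fun _ : ι => ℂ) i)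

theorem dEv_apply (p : MvPolynomial ι ℂ) (y h : ι → ℂ) :
    dEv p y h = ∑ i, eval y (pderiv i p) * h i := by
  simp [dEv]

/-- strict derivative of the evaluation of a polynomial -/
theorem strict_eval (p : MvPolynomial ι ℂ) (y : ι → ℂ) :
    HasStrictFDerivAt (fun z : ι → ℂ => eval z p) (dEv p y) y := by
  induction p using MvPolynomial.induction_on with
  | C a =>
    have h := hasStrictFDerivAt_const (𝕜 := ℂ) a y
    have h2 : (0 : (ι → ℂ) →L[ℂ] ℂ) = dEv (C a) y := by
      ext h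
      simp [dEv_apply]
    rw [← h2]
    simpa using h
  | add p q hp hq =>
    have h := hp.add hq
    have h2 : dEv p y + dEv q y = dEv (p + q) y := by
      ext h
      simp [dEv_apply, add_mul, Finset.sum_add_distrib]
    rw [← h2]
    have h3 : (fun z : ι → ℂ => eval z (p + q)) = (fun z => eval z p) + fun z => eval z q := by
      funext z
      simp
    rw [h3]
    exact h
  | mul_X p j hp =>
    have h1 : HasStrictFDerivAt (fun z : ι → ℂ => z j)
        (ContinuousLinearMap.proj (R := ℂ) (φ := fun _ : ι => ℂ) j) y :=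
      (ContinuousLinearMap.proj (R := ℂ) (φ := fun _ : ι => ℂ) j).hasStrictFDerivAt
    have h := hp.mul h1
    have h2 : (eval y p) • (ContinuousLinearMap.proj (R := ℂ) (φ := fun _ : ι => ℂ) j) + y j • dEv p y =
        dEv (p * X j) y := by
      apply ContinuousLinearMap.ext
      intro h
      have e1 : ∑ i, eval y (pderiv i (p * X j)) * h i =
          ∑ i, (eval y p * eval y (pderiv i (X j : MvPolynomial ι ℂ)) * h i) +
            ∑ i, y j * (eval y (pderiv i p) * h i) := by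
        rw [← Finset.sum_add_distrib]
        refine Finset.sum_congr rfl fun i _ => ?_
        rw [Derivation.leibniz]
        simp only [smul_eq_mul, map_add, map_mul, eval_X]
        ring
      have e2 : ∑ i, (eval y p * eval y (pderiv i (X j : MvPolynomial ι ℂ)) * h i) = eval y p * h j := by
        rw [Finset.sum_eq_single j]
        · simp
        · intro b _ hb
          rw [pderiv_X_of_ne hb.symm]
          simp
        · simp
      rw [dEv_apply, e1, e2, ← Finset.mul_sum]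
      simp [dEv_apply]
    rw [← h2]
    have h3 : (fun z : ι → ℂ => eval z (p * X j)) = (fun z => eval z p) * fun z => z j := by
      funext z
      simp
    rw [h3]
    exact h

/-- the polynomial with given coefficients -/
noncomputable def P (T : Finset (ι →₀ ℕ)) (a : T → ℂ) : MvPolynomial ι ℂ :=
  ∑ m : T, monomial m.1 (a m)

theorem P_coeff (T : Finset (ι →₀ ℕ)) (p : MvPolynomial ι ℂ) (hp : p.support ⊆ T) :
    P T (fun m => coeff m.1 p) = p := by
  unfold P
  rw [Finset.sum_coe_sort T (fun m => monomial m (coeff m p))]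
  rw [← Finset.sum_subset hp]
  · exact (MvPolynomial.support_sum_monomial_coeff p)
  · intro m _ hm
    rw [MvPolynomial.notMem_support_iff.mp hm, map_zero]

theorem eval_pderiv_P (T : Finset (ι →₀ ℕ)) (a : T → ℂ) (y : ι → ℂ) (i : ι) :
    eval y (pderiv i (P T a)) = ∑ m : T, a m * eval y (pderiv i (monomial m.1 1)) := by
  unfold P
  rw [map_sum, map_sum]
  refine Finset.sum_congr rfl fun m _ => ?_
  have : (monomial m.1 (a m) : MvPolynomial ι ℂ) = C (a m) * monomial m.1 1 := by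
    rw [C_mul_monomial, mul_one]
  rw [this, pderiv_C_mul, map_mul, eval_C]

theorem eval_pderiv2_P (T : Finset (ι →₀ ℕ)) (a : T → ℂ) (y : ι → ℂ) (i j : ι) :
    eval y (pderiv j (pderiv i (P T a))) =
      ∑ m : T, a m * eval y (pderiv j (pderiv i (monomial m.1 1))) := by
  unfold P
  rw [map_sum, map_sum, map_sum]
  refine Finset.sum_congr rfl fun m _ => ?_
  have : (monomial m.1 (a m) : MvPolynomial ι ℂ) = C (a m) * monomial m.1 1 := by
    rw [C_mul_monomial, mul_one]
  rw [this, pderiv_C_mul, pderiv_C_mul, map_mul, eval_C]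

/-- the gradient of `P T a` at `y` -/
noncomputable def gr (T : Finset (ι →₀ ℕ)) (x : (ι → ℂ) × (T → ℂ)) : ι → ℂ :=
  fun i => eval x.1 (pderiv i (P T x.2))

/-- the derivative of the gradient -/
noncomputable def gr' (T : Finset (ι →₀ ℕ)) (x : (ι → ℂ) × (T → ℂ)) (i : ι) :
    ((ι → ℂ) × (T → ℂ)) →L[ℂ] ℂ :=
  ∑ m : T, (x.2 m • ((dEv (pderiv i (monomial m.1 (1:ℂ))) x.1).comp
        (ContinuousLinearMap.fst ℂ (ι → ℂ) (T → ℂ))) +
    eval x.1 (pderiv i (monomial m.1 (1:ℂ))) •
      ((ContinuousLinearMap.proj (R := ℂ) (φ := fun _ : T => ℂ) m).comp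
        (ContinuousLinearMap.snd ℂ (ι → ℂ) (T → ℂ))))

theorem strict_gr (T : Finset (ι →₀ ℕ)) (x : (ι → ℂ) × (T → ℂ)) :
    HasStrictFDerivAt (gr T) (ContinuousLinearMap.pi (gr' T x)) x := by
  rw [hasStrictFDerivAt_pi]
  intro i
  have h0 : (fun x : (ι → ℂ) × (T → ℂ) => gr T x i) =
      fun x => ∑ m : T, x.2 m * eval x.1 (pderiv i (monomial m.1 1)) := by
    funext x
    exact eval_pderiv_P T x.2 x.1 i
  rw [h0]
  unfold gr'
  refine HasStrictFDerivAt.fun_sum fun m _ => ?_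
  have h1 : HasStrictFDerivAt (fun x : (ι → ℂ) × (T → ℂ) => x.2 m)
      ((ContinuousLinearMap.proj (R := ℂ) (φ := fun _ : T => ℂ) m).comp
        (ContinuousLinearMap.snd ℂ (ι → ℂ) (T → ℂ))) x :=
    ((ContinuousLinearMap.proj (R := ℂ) (φ := fun _ : T => ℂ) m).comp
        (ContinuousLinearMap.snd ℂ (ι → ℂ) (T → ℂ))).hasStrictFDerivAt
  have h2 : HasStrictFDerivAt (fun x : (ι → ℂ) × (T → ℂ) => eval x.1 (pderiv i (monomial m.1 (1:ℂ))))
      ((dEv (pderiv i (monomial m.1 (1:ℂ))) x.1).comp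
        (ContinuousLinearMap.fst ℂ (ι → ℂ) (T → ℂ))) x :=
    HasStrictFDerivAt.comp x (strict_eval (pderiv i (monomial m.1 (1:ℂ))) x.1) hasStrictFDerivAt_fst
  exact h1.mul h2

theorem gr'_apply (T : Finset (ι →₀ ℕ)) (x : (ι → ℂ) × (T → ℂ)) (h : ι → ℂ) (b : T → ℂ) (i : ι) :
    gr' T x i (h, b) = (∑ j, eval x.1 (pderiv j (pderiv i (P T x.2))) * h j) + gr' T x i (0, b) := by
  have : gr' T x i (h, b) = gr' T x i (h, 0) + gr' T x i (0, b) := by
    rw [← map_add]
    simp
  rw [this]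
  congr 1
  simp only [gr', sum_apply, add_apply, smul_apply,
    ContinuousLinearMap.comp_apply, ContinuousLinearMap.coe_fst', ContinuousLinearMap.coe_snd',
    ContinuousLinearMap.proj_apply, Pi.zero_apply, smul_eq_mul, mul_zero, add_zero, dEv_apply]
  simp only [eval_pderiv2_P, Finset.mul_sum, Finset.sum_mul]
  rw [Finset.sum_comm]
  refine Finset.sum_congr rfl fun j _ => Finset.sum_congr rfl fun m _ => ?_
  ring

theorem persist_one (T : Finset (ι →₀ ℕ)) (a₀ : T → ℂ) (ℓ y₀ : ι → ℂ) (h : IsNCP (P T a₀) ℓ y₀)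
    (U : Set (ι → ℂ)) (hU : U ∈ 𝓝 y₀) :
    ∀ᶠ a in 𝓝 a₀, ∃ y ∈ U, IsNCP (P T a) ℓ y := by
  obtain ⟨hg, hd⟩ := h
  -- the Hessian is invertible near the point
  have hcont : Continuous fun x : (ι → ℂ) × (T → ℂ) =>
      (Matrix.of fun i j => eval x.1 (pderiv i (pderiv j (P T x.2)))).det := by
    refine Continuous.matrix_det ?_
    refine continuous_matrix fun i j => ?_
    simp only [Matrix.of_apply]
    simp only [eval_pderiv2_P]
    refine continuous_finsetSum _ fun m _ => ?_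
    refine Continuous.mul ?_ ?_
    · exact (continuous_apply m).comp continuous_snd
    · exact (MvPolynomial.continuous_eval _).comp continuous_fst
  have hne : ∀ᶠ x in 𝓝 (y₀, a₀), (Matrix.of fun i j => eval x.1 (pderiv i (pderiv j (P T x.2)))).det ≠ 0 :=
    hcont.continuousAt.eventually_ne hd
  rw [nhds_prod_eq, Filter.eventually_prod_iff] at hne
  obtain ⟨pa, hpa, pb, hpb, hab⟩ := hne
  -- the open mapping
  set Φ' : ((ι → ℂ) × (T → ℂ)) →L[ℂ] (ι → ℂ) × (T → ℂ) :=
    (ContinuousLinearMap.pi (gr' T (y₀, a₀))).prod (ContinuousLinearMap.snd ℂ (ι → ℂ) (T → ℂ)) with hΦ'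
  have hΦ : HasStrictFDerivAt (fun x : (ι → ℂ) × (T → ℂ) => (gr T x, x.2)) Φ' (y₀, a₀) :=
    (strict_gr T (y₀, a₀)).prodMk hasStrictFDerivAt_snd
  have hsurj : (Φ' : ((ι → ℂ) × (T → ℂ)) →L[ℂ] (ι → ℂ) × (T → ℂ)).range = ⊤ := by
    rw [LinearMap.range_eq_top]
    rintro ⟨u, b⟩
    set A : Matrix ι ι ℂ := Matrix.of fun i j => eval y₀ (pderiv j (pderiv i (P T a₀))) with hA
    have hAdet : A.det ≠ 0 := by
      have : A = (Matrix.of fun i j => eval y₀ (pderiv i (pderiv j (P T a₀)))).transpose := by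
        ext i j
        simp [hA]
      rw [this, Matrix.det_transpose]
      exact hd
    have hAu : IsUnit A.det := isUnit_iff_ne_zero.mpr hAdet
    refine ⟨(A⁻¹.mulVec (u - fun i => gr' T (y₀, a₀) i (0, b)), b), ?_⟩
    have h3 : A.mulVec (A⁻¹.mulVec (u - fun i => gr' T (y₀, a₀) i (0, b))) =
        u - fun i => gr' T (y₀, a₀) i (0, b) := by
      rw [Matrix.mulVec_mulVec, Matrix.mul_nonsing_inv _ hAu, Matrix.one_mulVec]
    refine Prod.ext ?_ rfl
    funext i
    have h4 := congrFun h3 i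
    have h5 : (Φ' (A⁻¹.mulVec (u - fun i => gr' T (y₀, a₀) i (0, b)), b)).1 i =
        gr' T (y₀, a₀) i (A⁻¹.mulVec (u - fun i => gr' T (y₀, a₀) i (0, b)), b) := rfl
    refine h5.trans ?_
    rw [gr'_apply]
    have h6 : ∑ j, eval y₀ (pderiv j (pderiv i (P T a₀))) *
        (A⁻¹.mulVec (u - fun i => gr' T (y₀, a₀) i (0, b))) j = u i - gr' T (y₀, a₀) i (0, b) := h4
    have h7 : ∑ j, eval (y₀, a₀).1 (pderiv j (pderiv i (P T (y₀, a₀).2))) *
        (A⁻¹.mulVec (u - fun i => gr' T (y₀, a₀) i (0, b))) j = u i - gr' T (y₀, a₀) i (0, b) := h6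
    rw [h7]
    ring
  have hmap := hΦ.map_nhds_eq_of_surj hsurj
  have hx : (gr T (y₀, a₀), a₀) = (ℓ, a₀) := by
    refine Prod.ext ?_ rfl
    funext i
    exact hg i
  simp only at hmap
  rw [hx] at hmap
  have hW : (U ∩ {y | pa y}) ×ˢ {a | pb a} ∈ 𝓝 (y₀, a₀) :=
    prod_mem_nhds (Filter.inter_mem hU hpa) hpb
  have himg : (fun x : (ι → ℂ) × (T → ℂ) => (gr T x, x.2)) '' ((U ∩ {y | pa y}) ×ˢ {a | pb a}) ∈ 𝓝 (ℓ, a₀) := by
    rw [← hmap]
    exact Filter.image_mem_map hW
  have hc : Tendsto (fun a : T → ℂ => ((ℓ, a) : (ι → ℂ) × (T → ℂ))) (𝓝 a₀) (𝓝 (ℓ, a₀)) :=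
    (Continuous.prodMk_right ℓ).continuousAt
  filter_upwards [hc himg] with a ha
  obtain ⟨⟨y, a'⟩, ⟨⟨hyU, hya⟩, hb⟩, he⟩ := ha
  have he1 : gr T (y, a') = ℓ := congrArg Prod.fst he
  have he2 : a' = a := congrArg Prod.snd he
  subst he2
  refine ⟨y, hyU, fun i => congrFun he1 i, ?_⟩
  exact hab hya hb

end H1CL.PersProof

namespace H1CL

open MvPolynomial Filter Topology PersProof

theorem pers : StmPersist := by
  intro ι _ _ T α l F f hF hf hc ℓ Z hZ
  classical
  obtain ⟨U, hU, hdisj⟩ := (Z.finite_toSet).t2_separation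
  have h1 : Tendsto (fun a => (fun m : T => coeff m.1 (F a))) l (𝓝 (fun m : T => coeff m.1 f)) := by
    rw [tendsto_pi_nhds]
    intro m
    exact hc m.1
  have h2 : ∀ᶠ a in 𝓝 (fun m : T => coeff m.1 f), ∀ y₀ ∈ Z, ∃ y ∈ U y₀, IsNCP (P T a) ℓ y := by
    rw [Finset.eventually_all]
    intro y₀ hy₀
    refine persist_one T _ ℓ y₀ ?_ (U y₀) ((hU y₀).2.mem_nhds (hU y₀).1)
    rw [P_coeff T f hf]
    exact hZ y₀ hy₀
  filter_upwards [h1.eventually h2, hF] with a ha hFa
  rw [P_coeff T (F a) hFa] at ha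
  choose! g hgU hg using ha
  refine ⟨Z.image g, ?_, ?_⟩
  · apply Finset.card_image_of_injOn
    intro x hx y hy hxy
    by_contra hne
    have h3 := hdisj hx hy hne
    have h4 := hgU x hx
    have h5 := hgU y hy
    rw [← hxy] at h5
    exact Set.disjoint_left.mp h3 h4 h5
  · intro y hy
    obtain ⟨y₀, hy₀, rfl⟩ := Finset.mem_image.mp hy
    exact hg y₀ hy₀

end H1CL

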