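import Pool.Agent.Helper1x.CL.Stm

/-!
# Specialization of the three-layer gadget
-/

namespace H1CL

open MvPolynomial Filter Topology

section

variable {R P Y Z : Type*} [CommSemiring R] [Fintype P] [DecidableEq P]
  [Fintype Y] [DecidableEq Y] [Fintype Z] [DecidableEq Z]

omit [DecidableEq P] [Fintype Z] in
lemma prod_boole_emb (υ φ : P ↪ Z) (d : R) :
    (∏ i, (if υ i = φ i then d else 0)) = if υ = φ then d ^ Fintype.card P else 0 := by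
  by_cases h : υ = φ
  · subst h
    simp
  · rw [if_neg h]
    have : ∃ i, υ i ≠ φ i := by
      by_contra hcon
      push Not at hcon
      exact h (DFunLike.ext _ _ hcon)
    obtain ⟨i, hi⟩ := this
    exact Finset.prod_eq_zero (Finset.mem_univ i) (by rw [if_neg hi])

lemma sum_emb_perm (φ : Equiv.Perm P → (P ↪ Z)) (d : R) (F : (P ↪ Z) → R) :
    ∑ υ : P ↪ Z, F υ * (∑ ρ : Equiv.Perm P, ∏ i, (if υ i = φ ρ i then d else 0))
      = d ^ Fintype.card P * ∑ ρ : Equiv.Perm P, F (φ ρ) := by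
  simp_rw [prod_boole_emb, Finset.mul_sum]
  rw [Finset.sum_comm]
  refine Finset.sum_congr rfl (fun ρ _ => ?_)
  simp [mul_comm]

theorem three_layer (sh : Y ↪ Z) (d : R) (W : Y → Z → R) :
    ∑ τ : P ↪ Y, ∑ β : P ↪ Z, ∑ υ : P ↪ Y,
      (∑ ρ : Equiv.Perm P, ∏ i, W (τ i) (β (ρ i))) *
      (∑ ρ : Equiv.Perm P, ∏ i, (if β i = sh (υ (ρ i)) then d else 0)) *
      (∑ ρ : Equiv.Perm P, ∏ i, (if υ i = τ (ρ i) then (1 : R) else 0))
    = ((Fintype.card P).factorial : R) ^ 2 * d ^ Fintype.card P *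
        ∑ τ : P ↪ Y, ∑ ρ : Equiv.Perm P, ∏ i, W (τ i) (sh (τ (ρ i))) := by
  rw [Finset.mul_sum]
  refine Finset.sum_congr rfl (fun τ _ => ?_)
  rw [Finset.sum_comm]
  have h1 : ∀ υ : P ↪ Y, ∑ β : P ↪ Z,
      (∑ ρ : Equiv.Perm P, ∏ i, W (τ i) (β (ρ i))) *
      (∑ ρ : Equiv.Perm P, ∏ i, (if β i = sh (υ (ρ i)) then d else 0)) *
      (∑ ρ : Equiv.Perm P, ∏ i, (if υ i = τ (ρ i) then (1 : R) else 0))
      = (d ^ Fintype.card P * ∑ ρ' : Equiv.Perm P,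
          ∑ ρ : Equiv.Perm P, ∏ i, W (τ i) (sh (υ (ρ' (ρ i))))) *
        (∑ ρ : Equiv.Perm P, ∏ i, (if υ i = τ (ρ i) then (1 : R) else 0)) := by
    intro υ
    rw [← Finset.sum_mul]
    congr 1
    exact sum_emb_perm (fun ρ => (ρ.toEmbedding.trans υ).trans sh) d
      (fun β => ∑ ρ : Equiv.Perm P, ∏ i, W (τ i) (β (ρ i)))
  simp_rw [h1]
  refine (sum_emb_perm (fun ρ => ρ.toEmbedding.trans τ) (1 : R)
    (fun υ => (d ^ Fintype.card P * ∑ ρ' : Equiv.Perm P,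
          ∑ ρ : Equiv.Perm P, ∏ i, W (τ i) (sh (υ (ρ' (ρ i))))))).trans ?_
  rw [one_pow, one_mul]
  have h2 : ∀ (ρ'' ρ' : Equiv.Perm P), ∑ ρ : Equiv.Perm P, ∏ i, W (τ i)
      (sh ((ρ''.toEmbedding.trans τ) (ρ' (ρ i))))
      = ∑ ρ : Equiv.Perm P, ∏ i, W (τ i) (sh (τ (ρ i))) := by
    intro ρ'' ρ'
    refine Fintype.sum_equiv (Equiv.mulLeft (ρ'' * ρ')) _ _ (fun ρ => ?_)
    rfl
  simp_rw [h2]
  simp only [Finset.sum_const, Finset.card_univ, Fintype.card_perm, nsmul_eq_mul]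
  ring

end

/-! ### The concrete arrays -/

section Concrete

variable (m q : ℕ)

/-- groups `(I, J, a)` -/
abbrev Grp : Type := Fin m × Fin m × Fin (2 * q)

/-- variables `w_{I,J,a,τ}` -/
abbrev Var : Type := Grp m q × Fin (2 * q)

/-- the shift `υ ↦ υ + a` -/
def shiftEmb (a : Fin (2 * q)) : Fin (2 * q) ↪ Fin (4 * q) where
  toFun υ := ⟨υ.1 + a.1, by omega⟩
  inj' := by
    intro x y h
    simp only [Fin.mk.injEq] at h
    exact Fin.ext (by omega)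

/-- entries from layer 1 to layer 2 -/
noncomputable def Wm (θ : ℂ) (x : Fin m × Fin (2 * q)) (y : Fin m × Fin (4 * q)) :
    MvPolynomial (Var m q) ℂ :=
  if h : x.2.1 ≤ y.2.1 ∧ y.2.1 - x.2.1 < 2 * q then
    C (θ ^ ((y.2.1 - x.2.1) ^ 2)) * X ((x.1, y.1, ⟨y.2.1 - x.2.1, h.2⟩), x.2)
  else 0

/-- entries from layer 2 to layer 3 -/
noncomputable def Dm (θ : ℂ) (x : Fin m × Fin (4 * q)) (y : Fin (2 * q) × Fin (2 * q)) :
    MvPolynomial (Var m q) ℂ :=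
  if x.2 = shiftEmb q y.1 y.2 then C ((θ ^ (y.1.1 ^ 2))⁻¹) else 0

/-- entries from layer 3 to layer 1 -/
noncomputable def Em (x : Fin (2 * q) × Fin (2 * q)) (y : Fin m × Fin (2 * q)) :
    MvPolynomial (Var m q) ℂ :=
  if x.2 = y.2 then 1 else 0

/-- the exponent `∑ (τ(ρ i) - τ(i))²` -/
def expo (τ : Fin (q + 1) ↪ Fin (2 * q)) (ρ : Equiv.Perm (Fin (q + 1))) : ℕ :=
  ∑ i, (((τ (ρ i) : ℕ) : ℤ) - ((τ i : ℕ) : ℤ)).natAbs ^ 2

/-- the monomial attached to `(I, J, a)`, `τ` and `ρ` (or `0`) -/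
noncomputable def mono (g : Grp m q) (τ : Fin (q + 1) ↪ Fin (2 * q))
    (ρ : Equiv.Perm (Fin (q + 1))) : MvPolynomial (Var m q) ℂ :=
  ∏ i, (if h : (τ i).1 ≤ (τ (ρ i)).1 + g.2.2.1 ∧
      (τ (ρ i)).1 + g.2.2.1 - (τ i).1 < 2 * q then
    X ((g.1, g.2.1, ⟨(τ (ρ i)).1 + g.2.2.1 - (τ i).1, h.2⟩), τ i) else 0)

/-- the deformed polynomial -/
noncomputable def Fdef (θ : ℂ) : MvPolynomial (Var m q) ℂ :=
  ∑ g : Grp m q, ∑ τ : Fin (q + 1) ↪ Fin (2 * q), ∑ ρ : Equiv.Perm (Fin (q + 1)),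
    C (θ ^ expo q τ ρ) * mono m q g τ ρ

/-- its limit for `θ → 0` -/
noncomputable def F0 : MvPolynomial (Var m q) ℂ :=
  ∑ g : Grp m q, ∑ τ : Fin (q + 1) ↪ Fin (2 * q), ∏ i, X (g, τ i)

lemma expo_eq_zero (τ : Fin (q + 1) ↪ Fin (2 * q)) (ρ : Equiv.Perm (Fin (q + 1))) :
    expo q τ ρ = 0 ↔ ρ = 1 := by
  unfold expo
  rw [Finset.sum_eq_zero_iff]
  constructor
  · intro h
    ext i
    have h1 := h i (Finset.mem_univ i)
    have h2 : ((τ (ρ i) : ℕ) : ℤ) - ((τ i : ℕ) : ℤ) = 0 := by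
      have := pow_eq_zero_iff (two_ne_zero) |>.1 h1
      exact Int.natAbs_eq_zero.1 this
    have h3 : τ (ρ i) = τ i := Fin.ext (by omega)
    rw [τ.injective h3]
    rfl
  · rintro rfl i _
    simp

lemma mono_one (g : Grp m q) (τ : Fin (q + 1) ↪ Fin (2 * q)) :
    mono m q g τ 1 = ∏ i, X (g, τ i) := by
  unfold mono
  refine Finset.prod_congr rfl (fun i _ => ?_)
  have h : (τ i).1 ≤ (τ ((1 : Equiv.Perm (Fin (q + 1))) i)).1 + g.2.2.1 ∧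
      (τ ((1 : Equiv.Perm (Fin (q + 1))) i)).1 + g.2.2.1 - (τ i).1 < 2 * q := by
    simp only [Equiv.Perm.coe_one, id_eq]
    refine ⟨by omega, ?_⟩
    rw [Nat.add_sub_cancel_left]
    exact g.2.2.2
  rw [dif_pos h]
  congr 1
  obtain ⟨I, J, a⟩ := g
  simp

lemma Fdef_zero : Fdef m q 0 = F0 m q := by
  unfold Fdef F0
  refine Finset.sum_congr rfl (fun g _ => Finset.sum_congr rfl (fun τ _ => ?_))
  rw [Finset.sum_eq_single (1 : Equiv.Perm (Fin (q + 1)))]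
  · rw [(expo_eq_zero q τ 1).2 rfl, pow_zero, C_1, one_mul, mono_one]
  · intro ρ _ hρ
    rw [zero_pow (fun h => hρ ((expo_eq_zero q τ ρ).1 h)), C_0, zero_mul]
  · intro h; exact absurd (Finset.mem_univ _) h

/-- one term of the three-layer formula -/
lemma prod_Wm (θ : ℂ) (g : Grp m q) (τ : Fin (q + 1) ↪ Fin (2 * q))
    (ρ : Equiv.Perm (Fin (q + 1))) :
    ∏ i, Wm m q θ (g.1, τ i) (g.2.1, shiftEmb q g.2.2 (τ (ρ i)))
      = C ((θ ^ (g.2.2.1 ^ 2)) ^ (q + 1) * θ ^ expo q τ ρ) * mono m q g τ ρ := by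
  unfold mono
  by_cases hall : ∀ i, (τ i).1 ≤ (τ (ρ i)).1 + g.2.2.1 ∧
      (τ (ρ i)).1 + g.2.2.1 - (τ i).1 < 2 * q
  · have h1 : ∀ i, Wm m q θ (g.1, τ i) (g.2.1, shiftEmb q g.2.2 (τ (ρ i)))
        = C (θ ^ (((τ (ρ i)).1 + g.2.2.1 - (τ i).1) ^ 2)) *
          X ((g.1, g.2.1, ⟨(τ (ρ i)).1 + g.2.2.1 - (τ i).1, (hall i).2⟩), τ i) := by
      intro i
      exact dif_pos (hall i)
    have h2 : ∀ i, (if h : (τ i).1 ≤ (τ (ρ i)).1 + g.2.2.1 ∧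
        (τ (ρ i)).1 + g.2.2.1 - (τ i).1 < 2 * q then
        (X ((g.1, g.2.1, ⟨(τ (ρ i)).1 + g.2.2.1 - (τ i).1, h.2⟩), τ i) :
          MvPolynomial (Var m q) ℂ) else 0)
        = X ((g.1, g.2.1, ⟨(τ (ρ i)).1 + g.2.2.1 - (τ i).1, (hall i).2⟩), τ i) := by
      intro i
      rw [dif_pos (hall i)]
    simp_rw [h1, h2, Finset.prod_mul_distrib]
    congr 1
    rw [← map_prod, Finset.prod_pow_eq_pow_sum, ← pow_mul, ← pow_add]
    congr 2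
    -- the exponent identity
    zify
    have h3 : ∀ i, (((((τ (ρ i)).1 + g.2.2.1 - (τ i).1 : ℕ) : ℤ)) ^ 2)
        = (g.2.2.1 : ℤ) ^ 2 + ((((τ (ρ i)).1 : ℤ) - ((τ i).1 : ℤ)) ^ 2
          + 2 * (g.2.2.1 : ℤ) * (((τ (ρ i)).1 : ℤ) - ((τ i).1 : ℤ))) := by
      intro i
      rw [Nat.cast_sub (hall i).1]
      push_cast
      ring
    simp_rw [h3, Finset.sum_add_distrib, ← Finset.mul_sum, Finset.sum_sub_distrib]
    have h4 : ∑ i, (((τ (ρ i)).1 : ℕ) : ℤ) = ∑ i, (((τ i).1 : ℕ) : ℤ) :=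
      Equiv.sum_comp ρ (fun i => (((τ i).1 : ℕ) : ℤ))
    rw [h4]
    simp [expo, mul_comm]
  · push Not at hall
    obtain ⟨i, hi⟩ := hall
    have hi' : ¬ ((τ i).1 ≤ (τ (ρ i)).1 + g.2.2.1 ∧
      (τ (ρ i)).1 + g.2.2.1 - (τ i).1 < 2 * q) := by
      rintro ⟨h1, h2⟩
      exact absurd h2 (not_lt.2 (hi h1))
    rw [Finset.prod_eq_zero (Finset.mem_univ i), Finset.prod_eq_zero (Finset.mem_univ i),
      mul_zero]
    · rw [dif_neg hi']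
    · exact dif_neg hi'

/-- the value of the three-layer sum -/
theorem three_layer_value (θ : ℂ) (hθ : θ ≠ 0) :
    ∑ g₁ : Fin m, ∑ g₂ : Fin m, ∑ g₃ : Fin (2 * q),
        ∑ τ : Fin (q + 1) ↪ Fin (2 * q), ∑ β : Fin (q + 1) ↪ Fin (4 * q),
        ∑ υ : Fin (q + 1) ↪ Fin (2 * q),
          (∑ ρ : Equiv.Perm (Fin (q + 1)), ∏ i, Wm m q θ (g₁, τ i) (g₂, β (ρ i))) *
          (∑ ρ : Equiv.Perm (Fin (q + 1)), ∏ i, Dm m q θ (g₂, β i) (g₃, υ (ρ i))) *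
          (∑ ρ : Equiv.Perm (Fin (q + 1)), ∏ i, Em m q (g₃, υ i) (g₁, τ (ρ i)))
      = C (((q + 1).factorial : ℂ) ^ 2) * Fdef m q θ := by
  unfold Fdef
  rw [Fintype.sum_prod_type, Finset.mul_sum]
  refine Finset.sum_congr rfl (fun I _ => ?_)
  rw [Fintype.sum_prod_type, Finset.mul_sum]
  refine Finset.sum_congr rfl (fun J _ => ?_)
  rw [Finset.mul_sum]
  refine Finset.sum_congr rfl (fun a _ => ?_)
  have h1 := three_layer (P := Fin (q + 1)) (shiftEmb q a)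
    (C ((θ ^ (a.1 ^ 2))⁻¹) : MvPolynomial (Var m q) ℂ)
    (fun x y => Wm m q θ (I, x) (J, y))
  unfold Dm Em
  refine h1.trans ?_
  have h2 : ∀ (τ : Fin (q + 1) ↪ Fin (2 * q)) (ρ : Equiv.Perm (Fin (q + 1))),
      ∏ i, Wm m q θ (I, τ i) (J, shiftEmb q a (τ (ρ i)))
        = C ((θ ^ (a.1 ^ 2)) ^ (q + 1) * θ ^ expo q τ ρ) * mono m q (I, J, a) τ ρ :=
    fun τ ρ => prod_Wm m q θ (I, J, a) τ ρ
  simp_rw [h2]
  have h3 : (C ((θ ^ (a.1 ^ 2))⁻¹) : MvPolynomial (Var m q) ℂ) ^ (q + 1)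
      * C ((θ ^ (a.1 ^ 2)) ^ (q + 1)) = 1 := by
    rw [← C_pow, ← C_mul, ← mul_pow, inv_mul_cancel₀ (pow_ne_zero _ hθ), one_pow, C_1]
  simp only [Fintype.card_fin, Finset.mul_sum, C_mul]
  refine Finset.sum_congr rfl (fun τ _ => Finset.sum_congr rfl (fun ρ _ => ?_))
  have h4 : (((q + 1).factorial : ℕ) : MvPolynomial (Var m q) ℂ) ^ 2
      = C (((q + 1).factorial : ℂ) ^ 2) := by
    rw [C_pow, map_natCast]
  rw [h4]
  linear_combination (C (((q + 1).factorial : ℂ) ^ 2) * C (θ ^ expo q τ ρ)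
    * mono m q (I, J, a) τ ρ) * h3

end Concrete

end H1CL
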