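import Pool.Agent.Helper1x.CL.Circuit
import Pool.Agent.Helper1x.CL.Spec
import Pool.Agent.Helper1x.CL.Crit
import Pool.Agent.Helper1x.CL.Pers

/-!
# Assembly of the `n² log n` lower bound
-/

namespace H1CL

open MvPolynomial Filter Topology

/-- the permanent polynomial -/
noncomputable def permPoly (n : ℕ) : MvPolynomial (Fin n × Fin n) ℂ :=
  ∑ σ : Equiv.Perm (Fin n), ∏ k : Fin n, X (k, σ k)

/-- finite set of exponents of degree `≤ D` -/
noncomputable def degT (ι : Type) [Finite ι] (D : ℕ) : Finset (ι →₀ ℕ) :=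
  (Finsupp.finite_of_degree_le (σ := ι) D).toFinset

lemma mem_degT {ι : Type} [Finite ι] {D : ℕ} {μ : ι →₀ ℕ} :
    μ ∈ degT ι D ↔ μ.degree ≤ D := by
  simp [degT]

lemma support_subset_degT {ι : Type} [Finite ι] {D : ℕ} {f : MvPolynomial ι ℂ}
    (hf : f.totalDegree ≤ D) : f.support ⊆ degT ι D := by
  intro μ hμ
  rw [mem_degT]
  refine le_trans ?_ hf
  exact le_totalDegree hμ

lemma IsAff.totalDegree_le {ι : Type*} [Fintype ι] {f : MvPolynomial ι ℂ} (h : IsAff f) :
    f.totalDegree ≤ 1 := by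
  obtain ⟨a, L, rfl⟩ := h
  refine (totalDegree_add _ _).trans (max_le ?_ ?_)
  · rw [totalDegree_C]; omega
  · refine totalDegree_finsetSum_le (fun j _ => ?_)
    refine (totalDegree_mul _ _).trans ?_
    rw [totalDegree_C, zero_add, totalDegree_X]

/-- computations are preserved by affine substitutions -/
lemma IsComp.subst {σ ι : Type*} [Fintype σ] [Fintype ι] {s : ℕ} {P : Finset (Fin s)}
    {g : Fin s → MvPolynomial σ ℂ} (hg : IsComp P g) (lam : σ → MvPolynomial ι ℂ)
    (hlam : ∀ v, IsAff (lam v)) : IsComp P (fun i => aeval lam (g i)) := by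
  intro i
  refine ⟨fun hi => ?_, fun hi => ?_⟩
  · obtain ⟨a, b, ha, hb, h⟩ := (hg i).1 hi
    exact ⟨a, b, ha, hb, by show aeval lam (g i) = _; rw [h, map_mul]⟩
  · obtain ⟨c, l, a, ha, h⟩ := (hg i).2 hi
    choose A L hL using hlam
    refine ⟨c + ∑ v, l v * A v, fun w => ∑ v, l v * L v w, a, ha, ?_⟩
    simp only [h, map_add, map_sum, map_mul, aeval_X]
    have hC : ∀ c : ℂ, (aeval lam) (C c : MvPolynomial σ ℂ) = C c := fun c => by
      simp [algebraMap_eq]
    simp only [hC]
    congr 1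
    rw [add_assoc]
    congr 1
    have h1 : ∀ v, C (l v) * lam v = C (l v) * C (A v) + ∑ w, C (l v) * C (L v w) * X w := by
      intro v
      rw [hL v, mul_add, Finset.mul_sum]
      congr 1
      exact Finset.sum_congr rfl (fun w _ => by ring)
    simp only [h1, Finset.sum_add_distrib, Finset.sum_mul]
    congr 1
    rw [Finset.sum_comm]

/-- degree bound for computations -/
lemma IsComp.totalDegree_le {σ : Type*} [Fintype σ] {s : ℕ} {P : Finset (Fin s)}
    {g : Fin s → MvPolynomial σ ℂ} (hg : IsComp P g) (i : Fin s) :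
    (g i).totalDegree ≤ 2 ^ (P.filter (· ≤ i)).card := by
  induction i using WellFoundedLT.induction with
  | ind i ih => ?_
  by_cases hi : i ∈ P
  · obtain ⟨a, b, ha, hb, h⟩ := (hg i).1 hi
    rw [h]
    refine (totalDegree_mul _ _).trans ?_
    have hlt : ∀ c < i, (P.filter (· ≤ c)).card + 1 ≤ (P.filter (· ≤ i)).card := by
      intro c hc
      have h1 : insert i (P.filter (· ≤ c)) ⊆ P.filter (· ≤ i) := by
        intro x hx
        rw [Finset.mem_insert] at hx
        rcases hx with rfl | hx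
        · simp [hi]
        · rw [Finset.mem_filter] at hx ⊢
          exact ⟨hx.1, hx.2.trans hc.le⟩
      have h2 := Finset.card_le_card h1
      rwa [Finset.card_insert_of_notMem (by simp [hc])] at h2
    have h1 : ∀ c < i, (g c).totalDegree ≤ 2 ^ ((P.filter (· ≤ i)).card - 1) := by
      intro c hc
      refine (ih c hc).trans (Nat.pow_le_pow_right (by norm_num) ?_)
      have := hlt c hc
      omega
    have h2 : (P.filter (· ≤ i)).card = ((P.filter (· ≤ i)).card - 1) + 1 := by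
      have := hlt a ha
      omega
    rw [h2, pow_succ]
    have := h1 a ha
    have := h1 b hb
    omega
  · obtain ⟨c, l, a, ha, h⟩ := (hg i).2 hi
    rw [h]
    have hone : 1 ≤ 2 ^ (P.filter (· ≤ i)).card := Nat.one_le_two_pow
    refine (totalDegree_add _ _).trans (max_le ((totalDegree_add _ _).trans (max_le ?_ ?_)) ?_)
    · rw [totalDegree_C]; omega
    · refine totalDegree_finsetSum_le (fun j _ => ?_)
      refine (totalDegree_mul _ _).trans ?_
      rw [totalDegree_C, zero_add, totalDegree_X]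
      exact hone
    · refine totalDegree_finsetSum_le (fun j _ => ?_)
      by_cases hj : j < i
      · refine (totalDegree_mul _ _).trans ?_
        rw [totalDegree_C, zero_add]
        refine (ih j hj).trans (Nat.pow_le_pow_right (by norm_num) (Finset.card_le_card ?_))
        intro x hx
        rw [Finset.mem_filter] at hx ⊢
        exact ⟨hx.1, hx.2.trans hj.le⟩
      · rw [ha j hj, C_0, zero_mul, totalDegree_zero]
        omega

lemma IsComp.totalDegree_le' {σ : Type*} [Fintype σ] {s p : ℕ} {P : Finset (Fin s)}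
    (hP : P.card ≤ p)
    {g : Fin s → MvPolynomial σ ℂ} (hg : IsComp P g) (i : Fin s) :
    (g i).totalDegree ≤ 2 ^ p :=
  (hg.totalDegree_le i).trans (Nat.pow_le_pow_right (by norm_num)
    ((Finset.card_le_card (Finset.filter_subset _ _)).trans hP))

/-- scaling -/
lemma IsNCP.smul {ι : Type*} [Fintype ι] [DecidableEq ι] {f : MvPolynomial ι ℂ} {ℓ y : ι → ℂ}
    (h : IsNCP f ℓ y) {c : ℂ} (hc : c ≠ 0) : IsNCP (C c * f) (fun i => c * ℓ i) y := by
  refine ⟨fun i => ?_, ?_⟩
  · rw [pderiv_C_mul]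
    simp only [map_mul, eval_C, h.1 i]
  · have h1 : (Matrix.of fun i j => eval y (pderiv i (pderiv j (C c * f))))
        = c • (Matrix.of fun i j => eval y (pderiv i (pderiv j f))) := by
      ext i j
      simp only [Matrix.of_apply, Matrix.smul_apply, smul_eq_mul]
      rw [pderiv_C_mul, pderiv_C_mul]
      simp
    rw [h1, Matrix.det_smul]
    exact mul_ne_zero (pow_ne_zero _ hc) h.2

/-- evaluation of a substitution as a finite sum over the exponents -/
lemma aeval_eq_sum_degT {σ ι : Type} [Finite σ] {D : ℕ} (h : MvPolynomial σ ℂ)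
    (hh : h.totalDegree ≤ D) (lam : σ → MvPolynomial ι ℂ) :
    aeval lam h = ∑ μ ∈ degT σ D, C (coeff μ h) * aeval lam (monomial μ (1 : ℂ)) := by
  conv_lhs => rw [as_sum h]
  rw [map_sum]
  rw [Finset.sum_subset (support_subset_degT hh)]
  · refine Finset.sum_congr rfl (fun μ _ => ?_)
    have : monomial μ (coeff μ h) = C (coeff μ h) * monomial μ (1 : ℂ) := by
      rw [C_mul_monomial, mul_one]
    rw [this, map_mul]
    congr 1
    simp [algebraMap_eq]
  · intro μ _ hμ
    rw [notMem_support_iff.1 hμ]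
    simp

/-! ### Affine entries and the limit `θ → 0` -/

section Concrete

variable (m q : ℕ)

lemma isAff_C {ι : Type*} [Fintype ι] (c : ℂ) : IsAff (C c : MvPolynomial ι ℂ) :=
  ⟨c, 0, by simp⟩

lemma isAff_zero {ι : Type*} [Fintype ι] : IsAff (0 : MvPolynomial ι ℂ) := ⟨0, 0, by simp⟩

lemma isAff_C_mul_X {ι : Type*} [Fintype ι] [DecidableEq ι] (c : ℂ) (v : ι) :
    IsAff (C c * X v : MvPolynomial ι ℂ) := by
  refine ⟨0, Pi.single v c, ?_⟩
  rw [C_0, zero_add, Finset.sum_eq_single v]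
  · simp
  · intro b _ hb
    rw [Pi.single_eq_of_ne hb, C_0, zero_mul]
  · intro h; exact absurd (Finset.mem_univ _) h

lemma isAff_Wm (θ : ℂ) (x : Fin m × Fin (2 * q)) (y : Fin m × Fin (4 * q)) :
    IsAff (Wm m q θ x y) := by
  unfold Wm
  split_ifs
  · exact isAff_C_mul_X _ _
  · exact isAff_zero

lemma isAff_Dm (θ : ℂ) (x : Fin m × Fin (4 * q)) (y : Fin (2 * q) × Fin (2 * q)) :
    IsAff (Dm m q θ x y) := by
  unfold Dm
  split_ifs
  · exact isAff_C _
  · exact isAff_zero

lemma isAff_Em (x : Fin (2 * q) × Fin (2 * q)) (y : Fin m × Fin (2 * q)) :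
    IsAff (Em m q x y) := by
  unfold Em
  split_ifs
  · rw [← C_1]; exact isAff_C _
  · exact isAff_zero

lemma totalDegree_Fdef (θ : ℂ) : (Fdef m q θ).totalDegree ≤ q + 1 := by
  unfold Fdef
  refine totalDegree_finsetSum_le (fun g _ => totalDegree_finsetSum_le (fun τ _ =>
    totalDegree_finsetSum_le (fun ρ _ => ?_)))
  refine (totalDegree_mul _ _).trans ?_
  rw [totalDegree_C, zero_add]
  unfold mono
  refine (totalDegree_finsetProd _ _).trans ?_
  refine (Finset.sum_le_sum (g := fun _ => 1) (fun i _ => ?_)).trans (by simp)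
  split_ifs
  · rw [totalDegree_X]
  · rw [totalDegree_zero]; omega

lemma continuous_coeff_Fdef (μ : Var m q →₀ ℕ) :
    Continuous (fun θ => coeff μ (Fdef m q θ)) := by
  unfold Fdef
  simp only [coeff_sum, coeff_C_mul]
  fun_prop

lemma tendsto_coeff_Fdef (μ : Var m q →₀ ℕ) :
    Tendsto (fun θ => coeff μ (Fdef m q θ)) (𝓝[≠] 0) (𝓝 (coeff μ (F0 m q))) := by
  rw [← Fdef_zero]
  exact ((continuous_coeff_Fdef m q μ).tendsto 0).mono_left nhdsWithin_le_nhds

/-- For some `θ ≠ 0` the deformed polynomial has `(q!)^(2 |G|)` nondegenerate critical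
points. -/
theorem exists_theta (hq : 1 ≤ q) : ∃ (θ : ℂ) (ℓ : Var m q → ℂ) (Z : Finset (Var m q → ℂ)),
    θ ≠ 0 ∧ Z.card = q.factorial ^ (2 * (m * m * (2 * q))) ∧
    ∀ y ∈ Z, IsNCP (Fdef m q θ) ℓ y := by
  obtain ⟨ℓ, Z, hZc, hZ⟩ := crit q hq (Grp m q)
  have h1 := pers (Var m q) (degT (Var m q) (q + 1)) ℂ (𝓝[≠] 0) (Fdef m q) (F0 m q)
    (Eventually.of_forall (fun θ => support_subset_degT (totalDegree_Fdef m q θ)))
    (by rw [← Fdef_zero]; exact support_subset_degT (totalDegree_Fdef m q 0))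
    (tendsto_coeff_Fdef m q) ℓ Z hZ
  have h2 : ∀ᶠ θ : ℂ in 𝓝[≠] 0, θ ≠ 0 := eventually_mem_nhdsWithin
  obtain ⟨θ, hθ1, hθ2⟩ := (h1.and h2).exists
  obtain ⟨Z', hc, hZ'⟩ := hθ1
  refine ⟨θ, ℓ, Z', hθ2, ?_, hZ'⟩
  rw [hc, hZc]
  congr 2
  simp [Grp, Fintype.card_prod]
  ring

end Concrete

/-- `perm_n` is a coefficientwise limit of polynomials computed with at most `p`
products. -/
def BorderComp (n p : ℕ) : Prop :=
  ∃ (s : ℕ → ℕ) (P : ∀ t, Finset (Fin (s t)))
    (g : ∀ t, Fin (s t) → MvPolynomial (Fin n × Fin n) ℂ) (out : ∀ t, Fin (s t)),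
    (∀ t, IsComp (P t) (g t)) ∧ (∀ t, (P t).card ≤ p) ∧
      ∀ μ, Tendsto (fun t => coeff μ (g t (out t))) atTop (𝓝 (coeff μ (permPoly n)))

/-- The counting inequality. -/
theorem count_bound (hgad : StmGadget) (m q n p : ℕ) (hq : 1 ≤ q) (hm : 1 ≤ m)
    (hn : 3 * (m * (2 * q) + m * (4 * q) + (2 * q) * (2 * q))
      + (q + 1) * (m + m + 2 * q) ≤ n) (hp : BorderComp n p) :
    q.factorial ^ (2 * (m * m * (2 * q))) ≤ 4 ^ (m * m * (2 * q) * (2 * q) + 2 * p) := by
  obtain ⟨θ, ℓ, Z, hθ, hZc, hZ⟩ := exists_theta m q hq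
  have : Nonempty (Fin m) := ⟨⟨0, hm⟩⟩
  have : Nonempty (Fin (2 * q)) := ⟨⟨0, by omega⟩⟩
  obtain ⟨κ, lam, hκ, hlam, hperm⟩ := hgad (Var m q) (Fin m) (Fin m) (Fin (2 * q))
    (Fin (2 * q)) (Fin (4 * q)) (Fin (2 * q)) (q + 1) (by omega)
    (Wm m q θ) (Dm m q θ) (Em m q) (isAff_Wm m q θ) (isAff_Dm m q θ) (isAff_Em m q) n
    (by simpa using hn)
  rw [three_layer_value m q θ hθ, ← mul_assoc, ← C_mul] at hperm
  set c : ℂ := κ * ((q + 1).factorial : ℂ) ^ 2 with hc
  have hc0 : c ≠ 0 := mul_ne_zero hκ (pow_ne_zero _ (Nat.cast_ne_zero.2 (Nat.factorial_ne_zero _)))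
  -- the substitution
  let lam' : Fin n × Fin n → MvPolynomial (Var m q) ℂ := fun v => lam v.1 v.2
  have hlam' : ∀ v, IsAff (lam' v) := fun v => hlam v.1 v.2
  have hsub : aeval lam' (permPoly n) = C c * Fdef m q θ := by
    rw [← hperm]
    unfold permPoly rperm
    simp only [map_sum, map_prod, aeval_X, lam']
  -- approximating computations
  obtain ⟨s, P, g, out, hcomp, hPc, hconv⟩ := hp
  have hdeg : ∀ j, (g j (out j)).totalDegree ≤ 2 ^ p := fun j =>
    (hcomp j).totalDegree_le' (hPc j) (out j)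
  set D : ℕ := max (2 ^ p) (permPoly n).totalDegree with hD
  have hconv' : ∀ ν, Tendsto (fun j => coeff ν (aeval lam' (g j (out j)))) atTop
      (𝓝 (coeff ν (aeval lam' (permPoly n)))) := by
    intro ν
    have h1 : ∀ h : MvPolynomial (Fin n × Fin n) ℂ, h.totalDegree ≤ D →
        coeff ν (aeval lam' h) = ∑ μ ∈ degT (Fin n × Fin n) D,
          coeff μ h * coeff ν (aeval lam' (monomial μ (1 : ℂ))) := by
      intro h hh
      rw [aeval_eq_sum_degT h hh, coeff_sum]
      simp only [coeff_C_mul]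
    rw [h1 (permPoly n) (le_max_right _ _)]
    simp_rw [fun j => h1 (g j (out j)) ((hdeg j).trans (le_max_left _ _))]
    exact tendsto_finsetSum _ (fun μ _ => (hconv μ).mul_const _)
  have hdeg' : ∀ j, (aeval lam' (g j (out j))).totalDegree ≤ 2 ^ p := fun j =>
    ((hcomp j).subst lam' hlam').totalDegree_le' (hPc j) (out j)
  set D' : ℕ := max (2 ^ p) (aeval lam' (permPoly n)).totalDegree with hD'
  have hper := pers (Var m q) (degT (Var m q) D') ℕ atTop
    (fun j => aeval lam' (g j (out j))) (aeval lam' (permPoly n))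
    (Eventually.of_forall (fun j => support_subset_degT ((hdeg' j).trans (le_max_left _ _))))
    (support_subset_degT (le_max_right _ _)) hconv' (fun i => c * ℓ i) Z
    (fun y hy => by rw [hsub]; exact (hZ y hy).smul hc0)
  obtain ⟨j, Z', hZ'c, hZ'⟩ := hper.exists
  have hfin := comp_bound (P j) (g j) (hcomp j) lam' hlam' (out j) _ Z' hZ'
  rw [hZ'c, hZc] at hfin
  refine hfin.trans (Nat.pow_le_pow_right (by norm_num) ?_)
  have h1 : Fintype.card (Var m q) = m * m * (2 * q) * (2 * q) := by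
    show Fintype.card ((Fin m × Fin m × Fin (2 * q)) × Fin (2 * q)) = _
    rw [Fintype.card_prod, Fintype.card_prod, Fintype.card_prod]
    simp only [Fintype.card_fin]
    ring
  rw [h1]
  have := hPc j
  omega

/-- `log (q!) ≥ q log q - q` -/
lemma log_factorial_ge (q : ℕ) (hq : 1 ≤ q) :
    (q : ℝ) * Real.log q - q ≤ Real.log (q.factorial) := by
  have h1 : (q : ℝ) ^ q / q.factorial ≤ Real.exp q :=
    Real.pow_div_factorial_le_exp (q : ℝ) (Nat.cast_nonneg q) q
  have hq0 : (0 : ℝ) < q := by exact_mod_cast hq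
  have hf : (0 : ℝ) < q.factorial := by exact_mod_cast Nat.factorial_pos q
  have h2 := Real.log_le_log (by positivity) h1
  rw [Real.log_exp, Real.log_div (by positivity) hf.ne', Real.log_pow] at h2
  linarith

/-- The numerical consequence. -/
theorem numeric (m q p : ℕ) (hq : 1 ≤ q)
    (h : q.factorial ^ (2 * (m * m * (2 * q))) ≤ 4 ^ (m * m * (2 * q) * (2 * q) + 2 * p)) :
    2 * ((q : ℝ) * m) ^ 2 * (Real.log q - 1 - Real.log 4) ≤ p * Real.log 4 := by
  have h1 : ((q.factorial : ℝ)) ^ (2 * (m * m * (2 * q))) ≤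
      (4 : ℝ) ^ (m * m * (2 * q) * (2 * q) + 2 * p) := by exact_mod_cast h
  have hf : (0 : ℝ) < q.factorial := by exact_mod_cast Nat.factorial_pos q
  have h2 := Real.log_le_log (by positivity) h1
  rw [Real.log_pow, Real.log_pow] at h2
  push_cast at h2
  have h3 := log_factorial_ge q hq
  have hq0 : (0 : ℝ) < q := by exact_mod_cast hq
  have h4 : (4 * (m : ℝ) ^ 2 * q) * ((q : ℝ) * Real.log q - q) ≤
      (4 * (m : ℝ) ^ 2 * q) * Real.log (q.factorial) :=
    mul_le_mul_of_nonneg_left h3 (by positivity)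
  nlinarith [h2, h4]

/-- Final inequality for border computations, given the gadget. -/
theorem border_bound (hgad : StmGadget) (n p : ℕ) (hn : 2 ^ 30 ≤ n) (hp : BorderComp n p) :
    (n : ℝ) ^ 2 * Real.log n ≤ 20000 * p := by
  set q : ℕ := Nat.sqrt (n / 38) with hqdef
  set m : ℕ := n / (38 * q) with hmdef
  have hn38 : 2 ^ 30 / 38 ≤ n / 38 := Nat.div_le_div_right hn
  have h1 : q * q ≤ n / 38 := Nat.sqrt_le _
  have h2 : n / 38 < (q + 1) * (q + 1) := Nat.lt_succ_sqrt _
  have hq2 : 2 ≤ q := by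
    by_contra hcon
    push Not at hcon
    have h3 : (q + 1) * (q + 1) ≤ 2 * 2 := Nat.mul_le_mul (by omega) (by omega)
    have h4 : 2 ^ 30 / 38 < 4 := by omega
    norm_num at h4
  have h38 : 38 * (q * q) ≤ n := by
    have := Nat.div_mul_le_self n 38
    omega
  have hqm : q ≤ m := by
    rw [hmdef, Nat.le_div_iff_mul_le (by omega)]
    calc q * (38 * q) = 38 * (q * q) := by ring
      _ ≤ n := h38
  have h38m : 38 * (q * m) ≤ n := by
    have := Nat.div_mul_le_self n (38 * q)
    calc 38 * (q * m) = n / (38 * q) * (38 * q) := by rw [← hmdef]; ring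
      _ ≤ n := this
  have hlt : n < 38 * q * (m + 1) := by
    have := Nat.lt_mul_div_succ n (show 0 < 38 * q by omega)
    rwa [← hmdef] at this
  have hsize : 3 * (m * (2 * q) + m * (4 * q) + (2 * q) * (2 * q))
      + (q + 1) * (m + m + 2 * q) ≤ n := by
    have e1 : q * q ≤ q * m := Nat.mul_le_mul_left q hqm
    have e2 : m ≤ q * m := Nat.le_mul_of_pos_left m (by omega)
    have e3 : q ≤ q * q := Nat.le_mul_of_pos_left q (by omega)
    have e4 : 3 * (m * (2 * q) + m * (4 * q) + (2 * q) * (2 * q))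
      + (q + 1) * (m + m + 2 * q) = 20 * (q * m) + 14 * (q * q) + 2 * m + 2 * q := by ring
    rw [e4]
    omega
  have hcount := count_bound hgad m q n p (by omega) (by omega) hsize hp
  have hnum := numeric m q p (by omega) hcount
  -- real estimates
  have hN : (2 : ℝ) ^ 30 ≤ n := by exact_mod_cast hn
  have hN0 : (0 : ℝ) < n := lt_of_lt_of_le (by positivity) hN
  have hq0 : (0 : ℝ) < q := by exact_mod_cast (show 0 < q by omega)
  have hq2' : (2 : ℝ) ≤ q := by exact_mod_cast hq2
  have hlt' : (n : ℝ) < 38 * q * (m + 1) := by exact_mod_cast hlt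
  have h38' : 38 * ((q : ℝ) * q) ≤ n := by exact_mod_cast h38
  have hqm' : (n : ℝ) / 76 ≤ q * m := by
    nlinarith [hlt', h38', hq2', hq0]
  have hlog2a : (0.6931471803 : ℝ) < Real.log 2 := Real.log_two_gt_d9
  have hlog2b : Real.log 2 < (0.6931471808 : ℝ) := Real.log_two_lt_d9
  have hlog4 : Real.log 4 = 2 * Real.log 2 := by
    rw [show (4 : ℝ) = 2 ^ 2 by norm_num, Real.log_pow]
    norm_num
  have hlogN : 30 * Real.log 2 ≤ Real.log n := by
    have := Real.log_le_log (by positivity) hN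
    rwa [Real.log_pow, Nat.cast_ofNat] at this
  have hqlow : (n : ℝ) ≤ 256 * (q : ℝ) ^ 2 := by
    have e1 : n < 38 * ((q + 1) * (q + 1)) := by
      have := (Nat.div_lt_iff_lt_mul (show 0 < 38 by norm_num)).1 h2
      calc n < (q + 1) * (q + 1) * 38 := this
        _ = 38 * ((q + 1) * (q + 1)) := by ring
    have e2 : (n : ℝ) < 38 * (((q : ℝ) + 1) * ((q : ℝ) + 1)) := by exact_mod_cast e1
    nlinarith [e2, hq2']
  have hlogq : Real.log n / 2 - 4 * Real.log 2 ≤ Real.log q := by
    have e1 := Real.log_le_log hN0 hqlow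
    rw [Real.log_mul (by norm_num) (by positivity), Real.log_pow,
      show (256 : ℝ) = 2 ^ 8 by norm_num, Real.log_pow] at e1
    push_cast at e1
    linarith
  have hfac : Real.log n / 4 ≤ Real.log q - 1 - Real.log 4 := by
    rw [hlog4]
    linarith
  have hsq : ((n : ℝ) / 76) ^ 2 ≤ ((q : ℝ) * m) ^ 2 :=
    pow_le_pow_left₀ (by positivity) hqm' 2
  have hlogpos : 0 < Real.log n := by linarith
  have h5 : 2 * ((n : ℝ) / 76) ^ 2 * (Real.log n / 4) ≤ p * Real.log 4 := by
    refine le_trans ?_ hnum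
    refine mul_le_mul (by linarith) hfac (by linarith) (by positivity)
  have h6 : (p : ℝ) * Real.log 4 ≤ p * 1.3863 := by
    refine mul_le_mul_of_nonneg_left ?_ (Nat.cast_nonneg p)
    rw [hlog4]; linarith
  have h7 : 2 * ((n : ℝ) / 76) ^ 2 * (Real.log n / 4) = (n : ℝ) ^ 2 * Real.log n / 11552 := by
    ring
  rw [h7] at h5
  have hp0 : (0 : ℝ) ≤ p := Nat.cast_nonneg p
  linarith

end H1CL
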