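import Pool.Agent.Helper1x.CL.Bezout

/-!
# Quadratic straight-line programs have few nondegenerate critical points

A quadratic straight-line program with `p` steps in the variables `ι` produces polynomials
`Z (inr k)`, `k : Fin p`, each an (inhomogeneous) quadratic polynomial in the variables
`Z (inl v) = X v` and the earlier `Z (inr j)`, `j < k`.  If `f` is an affine combination of
all `Z i`, then any finite set of nondegenerate solutions of `∇ f = ℓ` has at most
`4 ^ (|ι| + 2 p)` elements.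
-/

namespace H1CL

open MvPolynomial Matrix

section Quad

variable {ι : Type*} [Fintype ι] [DecidableEq ι] {p : ℕ}

/-- the coefficient `∂Γ_k/∂z_i - [i = inr k]` of the linearised `k`-th equation, over any
commutative `ℂ`-algebra -/
noncomputable def lin {S : Type*} [CommRing S] [Algebra ℂ S]
    (β : Fin p → (ι ⊕ Fin p) → ℂ) (B : Fin p → (ι ⊕ Fin p) → (ι ⊕ Fin p) → ℂ)
    (z : (ι ⊕ Fin p) → S) (k : Fin p) (i : ι ⊕ Fin p) : S :=
  algebraMap ℂ S (β k i) + 2 * ∑ j, algebraMap ℂ S (B k i j) * z j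
    - if i = Sum.inr k then 1 else 0

/-- the `k`-th equation `Γ_k(z) - z_k` -/
noncomputable def equ {S : Type*} [CommRing S] [Algebra ℂ S]
    (α : Fin p → ℂ) (β : Fin p → (ι ⊕ Fin p) → ℂ)
    (B : Fin p → (ι ⊕ Fin p) → (ι ⊕ Fin p) → ℂ)
    (z : (ι ⊕ Fin p) → S) (k : Fin p) : S :=
  algebraMap ℂ S (α k) + ∑ i, algebraMap ℂ S (β k i) * z i
    + ∑ i, ∑ j, algebraMap ℂ S (B k i j) * z i * z j - z (Sum.inr k)

/-- the Hessian of the Lagrangian as a matrix over any commutative `ℂ`-algebra -/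
noncomputable def hess {S : Type*} [CommRing S] [Algebra ℂ S]
    (β : Fin p → (ι ⊕ Fin p) → ℂ) (B : Fin p → (ι ⊕ Fin p) → (ι ⊕ Fin p) → ℂ)
    (x : (ι ⊕ Fin p) ⊕ Fin p → S) :
    Matrix ((ι ⊕ Fin p) ⊕ Fin p) ((ι ⊕ Fin p) ⊕ Fin p) S :=
  fun r c => match r, c with
    | Sum.inl i, Sum.inl j => 2 * ∑ k, x (Sum.inr k) * algebraMap ℂ S (B k i j)
    | Sum.inl i, Sum.inr k => lin β B (fun i => x (Sum.inl i)) k i
    | Sum.inr k, Sum.inl i => lin β B (fun i => x (Sum.inl i)) k i
    | Sum.inr _, Sum.inr _ => 0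

/-- the gradient of the Lagrangian in the `z`-variables -/
noncomputable def adj {S : Type*} [CommRing S] [Algebra ℂ S]
    (β : Fin p → (ι ⊕ Fin p) → ℂ) (B : Fin p → (ι ⊕ Fin p) → (ι ⊕ Fin p) → ℂ)
    (γ : (ι ⊕ Fin p) → S) (x : (ι ⊕ Fin p) ⊕ Fin p → S) (i : ι ⊕ Fin p) : S :=
  γ i + ∑ k, x (Sum.inr k) * lin β B (fun i => x (Sum.inl i)) k i

/-- midpoint identity for the quadratic system -/
lemma midpoint (α : Fin p → ℂ) (β : Fin p → (ι ⊕ Fin p) → ℂ)
    (B : Fin p → (ι ⊕ Fin p) → (ι ⊕ Fin p) → ℂ) (hB : ∀ k i j, B k i j = B k j i)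
    (γ : (ι ⊕ Fin p) → ℂ) (x y : (ι ⊕ Fin p) ⊕ Fin p → ℂ) :
    (hess β B x + hess β B y) *ᵥ (x - y) =
      Sum.elim (fun i => 2 * (adj β B γ x i - adj β B γ y i))
        (fun k => 2 * (equ α β B (fun i => x (Sum.inl i)) k
          - equ α β B (fun i => y (Sum.inl i)) k)) := by
  funext r
  rcases r with i | k
  · simp only [Matrix.mulVec, dotProduct, Matrix.add_apply, Pi.sub_apply, Sum.elim_inl]
    rw [Fintype.sum_sum_type]
    simp only [hess, adj, lin, Algebra.algebraMap_self, RingHom.id_apply]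
    have h1 : ∑ j, ((2 * ∑ k, x (Sum.inr k) * B k i j) + (2 * ∑ k, y (Sum.inr k) * B k i j)) *
        (x (Sum.inl j) - y (Sum.inl j))
        = ∑ k, 2 * (x (Sum.inr k) + y (Sum.inr k)) *
          ((∑ j, B k i j * x (Sum.inl j)) - (∑ j, B k i j * y (Sum.inl j))) := by
      have : ∀ k, 2 * (x (Sum.inr k) + y (Sum.inr k)) *
          ((∑ j, B k i j * x (Sum.inl j)) - (∑ j, B k i j * y (Sum.inl j)))
          = ∑ j, 2 * (x (Sum.inr k) + y (Sum.inr k)) * (B k i j * (x (Sum.inl j) - y (Sum.inl j))) := by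
        intro k
        rw [← Finset.sum_sub_distrib, Finset.mul_sum]
        exact Finset.sum_congr rfl (fun j _ => by ring)
      simp_rw [this]
      rw [Finset.sum_comm]
      refine Finset.sum_congr rfl (fun j _ => ?_)
      rw [← mul_add, ← Finset.sum_add_distrib, Finset.mul_sum, Finset.sum_mul]
      exact Finset.sum_congr rfl (fun k _ => by ring)
    rw [h1, add_sub_add_left_eq_sub, ← Finset.sum_sub_distrib, ← Finset.sum_add_distrib,
      Finset.mul_sum]
    refine Finset.sum_congr rfl (fun k _ => ?_)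
    ring
  · simp only [Matrix.mulVec, dotProduct, Matrix.add_apply, Pi.sub_apply, Sum.elim_inr]
    rw [Fintype.sum_sum_type]
    simp only [hess, equ, lin, Algebra.algebraMap_self, RingHom.id_apply]
    simp only [add_zero, zero_mul, Finset.sum_const_zero]
    have h2 : ∑ i, (∑ j, B k i j * y (Sum.inl j)) * x (Sum.inl i)
        = ∑ i, (∑ j, B k i j * x (Sum.inl j)) * y (Sum.inl i) := by
      simp_rw [Finset.sum_mul]
      rw [Finset.sum_comm]
      refine Finset.sum_congr rfl (fun i _ => Finset.sum_congr rfl (fun j _ => ?_))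
      rw [hB k j i]; ring
    have h3 : ∀ z : (ι ⊕ Fin p) ⊕ Fin p → ℂ, ∑ i, ∑ j, B k i j * z (Sum.inl i) * z (Sum.inl j)
        = ∑ i, (∑ j, B k i j * z (Sum.inl j)) * z (Sum.inl i) := by
      intro z
      refine Finset.sum_congr rfl (fun i _ => ?_)
      rw [Finset.sum_mul]
      exact Finset.sum_congr rfl (fun j _ => by ring)
    have h4 : ∀ z : (ι ⊕ Fin p) ⊕ Fin p → ℂ, z (Sum.inl (Sum.inr k))
        = ∑ i, (if i = Sum.inr k then 1 else 0) * z (Sum.inl i) := by
      intro z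
      simp
    rw [h3 x, h3 y, h4 x, h4 y]
    have h5 : ∀ i, (β k i + 2 * ∑ j, B k i j * x (Sum.inl j) - (if i = Sum.inr k then 1 else 0) +
        (β k i + 2 * ∑ j, B k i j * y (Sum.inl j) - if i = Sum.inr k then 1 else 0)) *
        (x (Sum.inl i) - y (Sum.inl i))
        = 2 * (β k i * x (Sum.inl i)) - 2 * (β k i * y (Sum.inl i))
          + 2 * ((∑ j, B k i j * x (Sum.inl j)) * x (Sum.inl i))
          - 2 * ((∑ j, B k i j * x (Sum.inl j)) * y (Sum.inl i))
          + 2 * ((∑ j, B k i j * y (Sum.inl j)) * x (Sum.inl i))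
          - 2 * ((∑ j, B k i j * y (Sum.inl j)) * y (Sum.inl i))
          - 2 * ((if i = Sum.inr k then 1 else 0) * x (Sum.inl i))
          + 2 * ((if i = Sum.inr k then 1 else 0) * y (Sum.inl i)) := by
      intro i; ring
    simp_rw [h5]
    simp only [Finset.sum_add_distrib, Finset.sum_sub_distrib, ← Finset.mul_sum]
    rw [h2]
    ring

/-- support conditions of a quadratic straight-line program -/
structure QS (β : Fin p → (ι ⊕ Fin p) → ℂ)
    (B : Fin p → (ι ⊕ Fin p) → (ι ⊕ Fin p) → ℂ) : Prop where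
  symm : ∀ k i j, B k i j = B k j i
  suppβ : ∀ k j, ¬ j < k → β k (Sum.inr j) = 0
  suppB : ∀ k i j, ¬ j < k → B k i (Sum.inr j) = 0

variable {S : Type*} [CommRing S] [Algebra ℂ S]

omit [Fintype ι] [DecidableEq ι] in
lemma QS.suppB' {β : Fin p → (ι ⊕ Fin p) → ℂ} {B : Fin p → (ι ⊕ Fin p) → (ι ⊕ Fin p) → ℂ}
    (h : QS β B) (k : Fin p) (i : Fin p) (j : ι ⊕ Fin p) (hi : ¬ i < k) :
    B k (Sum.inr i) j = 0 := by
  rw [h.symm, h.suppB k j i hi]

/-- the square part of the linearised system is triangular with diagonal `-1` -/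
lemma det_lin {β : Fin p → (ι ⊕ Fin p) → ℂ} {B : Fin p → (ι ⊕ Fin p) → (ι ⊕ Fin p) → ℂ}
    (h : QS β B) (z : (ι ⊕ Fin p) → S) :
    (Matrix.of fun k i : Fin p => lin β B z k (Sum.inr i)).det = (-1) ^ p := by
  have hz : ∀ k i : Fin p, ¬ i < k → lin β B z k (Sum.inr i) = if i = k then -1 else 0 := by
    intro k i hik
    unfold lin
    have h1 : ∑ j, algebraMap ℂ S (B k (Sum.inr i) j) * z j = 0 :=
      Finset.sum_eq_zero (fun j _ => by rw [h.suppB' k i j hik, map_zero, zero_mul])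
    rw [h1, h.suppβ k i hik]
    by_cases hk : i = k
    · simp [hk]
    · simp [hk]
  rw [Matrix.det_of_isLowerTriangular]
  · simp only [Matrix.of_apply]
    rw [Finset.prod_congr rfl (fun k _ => by rw [hz k k (lt_irrefl k), if_pos rfl])]
    simp
  · intro k i hik
    simp only [OrderDual.toDual_lt_toDual] at hik
    rw [Matrix.of_apply, hz k i (not_lt.2 hik.le), if_neg (ne_of_gt hik)]

lemma deriv_lin (D : Derivation ℂ S S) (β : Fin p → (ι ⊕ Fin p) → ℂ)
    (B : Fin p → (ι ⊕ Fin p) → (ι ⊕ Fin p) → ℂ) (z : (ι ⊕ Fin p) → S) (k : Fin p)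
    (i : ι ⊕ Fin p) :
    D (lin β B z k i) = 2 * ∑ j, algebraMap ℂ S (B k i j) * D (z j) := by
  unfold lin
  have h2 : D (2 : S) = 0 := by
    have : (2 : S) = algebraMap ℂ S 2 := (map_ofNat (algebraMap ℂ S) 2).symm
    rw [this, D.map_algebraMap]
  have h3 : D (if i = Sum.inr k then (1 : S) else 0) = 0 := by
    split_ifs <;> simp
  simp only [map_add, map_sub, map_sum, D.leibniz, D.map_algebraMap, h2, h3, smul_eq_mul,
    mul_zero, add_zero, zero_add, sub_zero]

lemma deriv_equ (D : Derivation ℂ S S) (α : Fin p → ℂ) {β : Fin p → (ι ⊕ Fin p) → ℂ}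
    {B : Fin p → (ι ⊕ Fin p) → (ι ⊕ Fin p) → ℂ} (h : QS β B) (z : (ι ⊕ Fin p) → S)
    (k : Fin p) :
    D (equ α β B z k) = ∑ i, lin β B z k i * D (z i) := by
  unfold equ lin
  simp only [map_add, map_sub, map_sum, D.leibniz, D.map_algebraMap, smul_eq_mul,
    mul_zero, add_zero, zero_add]
  have h2 : ∑ i, ∑ j, (algebraMap ℂ S (B k i j) * z i * D (z j)
      + z j * (algebraMap ℂ S (B k i j) * D (z i)))
      = 2 * ∑ i, (∑ j, algebraMap ℂ S (B k i j) * z j) * D (z i) := by
    simp_rw [Finset.sum_add_distrib]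
    rw [Finset.sum_comm (f := fun i j => algebraMap ℂ S (B k i j) * z i * D (z j)), two_mul]
    congr 1
    · refine Finset.sum_congr rfl (fun i _ => ?_)
      rw [Finset.sum_mul]
      exact Finset.sum_congr rfl (fun j _ => by rw [h.symm k j i])
    · refine Finset.sum_congr rfl (fun i _ => ?_)
      rw [Finset.sum_mul]
      exact Finset.sum_congr rfl (fun j _ => by ring)
  rw [h2]
  have h4 : D (z (Sum.inr k)) = ∑ i, (if i = Sum.inr k then 1 else 0) * D (z i) := by
    simp
  rw [h4, Finset.mul_sum, ← Finset.sum_add_distrib, ← Finset.sum_sub_distrib]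
  exact Finset.sum_congr rfl (fun i _ => by ring)

lemma lin_map {S T : Type*} [CommRing S] [Algebra ℂ S] [CommRing T] [Algebra ℂ T]
    (φ : S →ₐ[ℂ] T) (β : Fin p → (ι ⊕ Fin p) → ℂ)
    (B : Fin p → (ι ⊕ Fin p) → (ι ⊕ Fin p) → ℂ) (z : (ι ⊕ Fin p) → S) (k : Fin p)
    (i : ι ⊕ Fin p) :
    φ (lin β B z k i) = lin β B (fun j => φ (z j)) k i := by
  unfold lin
  simp only [map_add, map_sub, map_sum, map_mul, map_ofNat, AlgHom.commutes]
  congr 1
  split_ifs <;> simp

omit [DecidableEq ι] in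
lemma equ_map {S T : Type*} [CommRing S] [Algebra ℂ S] [CommRing T] [Algebra ℂ T]
    (φ : S →ₐ[ℂ] T) (α : Fin p → ℂ) (β : Fin p → (ι ⊕ Fin p) → ℂ)
    (B : Fin p → (ι ⊕ Fin p) → (ι ⊕ Fin p) → ℂ) (z : (ι ⊕ Fin p) → S) (k : Fin p) :
    φ (equ α β B z k) = equ α β B (fun j => φ (z j)) k := by
  unfold equ
  simp only [map_add, map_sub, map_sum, map_mul, AlgHom.commutes]

lemma adj_map {S T : Type*} [CommRing S] [Algebra ℂ S] [CommRing T] [Algebra ℂ T]
    (φ : S →ₐ[ℂ] T) (β : Fin p → (ι ⊕ Fin p) → ℂ)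
    (B : Fin p → (ι ⊕ Fin p) → (ι ⊕ Fin p) → ℂ) (γ : (ι ⊕ Fin p) → S)
    (x : (ι ⊕ Fin p) ⊕ Fin p → S) (i : ι ⊕ Fin p) :
    φ (adj β B γ x i) = adj β B (fun j => φ (γ j)) (fun j => φ (x j)) i := by
  unfold adj
  simp only [map_add, map_sum, map_mul, lin_map]

/-- adjoint polynomials (back-propagation) -/
lemma exists_adjoint {β : Fin p → (ι ⊕ Fin p) → ℂ} {B : Fin p → (ι ⊕ Fin p) → (ι ⊕ Fin p) → ℂ}
    (h : QS β B) (z : (ι ⊕ Fin p) → S) (γ : (ι ⊕ Fin p) → S) :
    ∃ M : Fin p → S, ∀ i : Fin p, adj β B γ (Sum.elim z M) (Sum.inr i) = 0 := by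
  set N : Matrix (Fin p) (Fin p) S := Matrix.of fun k i : Fin p => lin β B z k (Sum.inr i)
    with hN
  have hdet : IsUnit N.det := by
    rw [hN, det_lin h z]
    exact (isUnit_one.neg).pow p
  refine ⟨(fun i => - γ (Sum.inr i)) ᵥ* N⁻¹, fun i => ?_⟩
  have h1 : ((fun i => - γ (Sum.inr i)) ᵥ* N⁻¹) ᵥ* N = fun i => - γ (Sum.inr i) := by
    rw [Matrix.vecMul_vecMul, Matrix.nonsing_inv_mul _ hdet, Matrix.vecMul_one]
  have h2 := congrFun h1 i
  simp only [Matrix.vecMul, dotProduct] at h2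
  unfold adj
  simp only [Sum.elim_inl, Sum.elim_inr]
  rw [add_eq_zero_iff_eq_neg, ← neg_eq_iff_eq_neg, ← h2]
  refine Finset.sum_congr rfl (fun k _ => ?_)
  rfl

/-- Baur–Strassen identity for an arbitrary derivation -/
lemma deriv_out (D : Derivation ℂ S S) (α : Fin p → ℂ) {β : Fin p → (ι ⊕ Fin p) → ℂ}
    {B : Fin p → (ι ⊕ Fin p) → (ι ⊕ Fin p) → ℂ} (h : QS β B) (z : (ι ⊕ Fin p) → S)
    (hz : ∀ k, equ α β B z k = 0) (γ : (ι ⊕ Fin p) → ℂ) (M : Fin p → S)
    (hM : ∀ i : Fin p, adj β B (fun j => algebraMap ℂ S (γ j)) (Sum.elim z M) (Sum.inr i) = 0)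
    (γ0 : ℂ) :
    D (algebraMap ℂ S γ0 + ∑ i, algebraMap ℂ S (γ i) * z i)
      = ∑ v : ι, adj β B (fun j => algebraMap ℂ S (γ j)) (Sum.elim z M) (Sum.inl v)
          * D (z (Sum.inl v)) := by
  have h1 : D (algebraMap ℂ S γ0 + ∑ i, algebraMap ℂ S (γ i) * z i)
      = ∑ i, algebraMap ℂ S (γ i) * D (z i) := by
    simp only [map_add, map_sum, D.leibniz, D.map_algebraMap, smul_eq_mul, mul_zero, add_zero,
      zero_add]
  have h2 : ∀ k, ∑ i, lin β B z k i * D (z i) = 0 := by
    intro k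
    rw [← deriv_equ D α h z k, hz k, map_zero]
  have h3 : ∑ i, adj β B (fun j => algebraMap ℂ S (γ j)) (Sum.elim z M) i * D (z i)
      = ∑ i, algebraMap ℂ S (γ i) * D (z i) := by
    unfold adj
    simp only [Sum.elim_inl, Sum.elim_inr, add_mul, Finset.sum_add_distrib]
    have : ∑ i, (∑ k, M k * lin β B z k i) * D (z i) = ∑ k, M k * ∑ i, lin β B z k i * D (z i) := by
      simp_rw [Finset.sum_mul, Finset.mul_sum]
      rw [Finset.sum_comm]
      exact Finset.sum_congr rfl (fun k _ => Finset.sum_congr rfl (fun i _ => by ring))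
    rw [this]
    simp [h2]
  rw [h1, ← h3, Fintype.sum_sum_type]
  simp [hM]

/-- directional derivative -/
noncomputable def dirD (u : ι → ℂ) : Derivation ℂ (MvPolynomial ι ℂ) (MvPolynomial ι ℂ) :=
  ∑ w, (C (u w) : MvPolynomial ι ℂ) • pderiv w

omit [DecidableEq ι] in
lemma dirD_apply (u : ι → ℂ) (f : MvPolynomial ι ℂ) :
    dirD u f = ∑ w, C (u w) * pderiv w f := by
  unfold dirD
  have : ∀ (s : Finset ι), (∑ w ∈ s, (C (u w) : MvPolynomial ι ℂ) • pderiv w :
      Derivation ℂ (MvPolynomial ι ℂ) (MvPolynomial ι ℂ)) f = ∑ w ∈ s, C (u w) * pderiv w f := by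
    classical
    intro s
    induction s using Finset.induction_on with
    | empty => simp
    | insert a s ha ih =>
      rw [Finset.sum_insert ha, Finset.sum_insert ha, Derivation.add_apply, ih,
        Derivation.smul_apply, smul_eq_mul]
  exact this Finset.univ

lemma dirD_X (u : ι → ℂ) (v : ι) : dirD u (X v) = C (u v) := by
  rw [dirD_apply, Finset.sum_eq_single v]
  · simp
  · intro b _ hb
    rw [pderiv_X_of_ne hb.symm, mul_zero]
  · intro h; exact absurd (Finset.mem_univ _) h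

/-- nondegeneracy of the big system at the point above a nondegenerate critical point -/
lemma nondeg {β : Fin p → (ι ⊕ Fin p) → ℂ} {B : Fin p → (ι ⊕ Fin p) → (ι ⊕ Fin p) → ℂ}
    (h : QS β B) (α : Fin p → ℂ) (Zp : (ι ⊕ Fin p) → MvPolynomial ι ℂ)
    (hX : ∀ v, Zp (Sum.inl v) = X v) (hz : ∀ k, equ α β B Zp k = 0)
    (γ0 : ℂ) (γ : (ι ⊕ Fin p) → ℂ) (M : Fin p → MvPolynomial ι ℂ)
    (hM : ∀ i : Fin p, adj β B (fun j => C (γ j)) (Sum.elim Zp M) (Sum.inr i) = 0)
    (f : MvPolynomial ι ℂ) (hf : f = C γ0 + ∑ i, C (γ i) * Zp i) (ℓ y : ι → ℂ)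
    (hy : IsNCP f ℓ y) :
    (hess β B (fun i => aeval y (Sum.elim Zp M i))).det ≠ 0 := by
  intro hdet
  obtain ⟨v, hv0, hv⟩ := Matrix.exists_mulVec_eq_zero_iff.2 hdet
  apply hv0
  set u : ι → ℂ := fun w => v (Sum.inl (Sum.inl w)) with hu
  set zy : (ι ⊕ Fin p) → ℂ := fun i => aeval y (Zp i) with hzy
  have hzy' : (fun i => (fun i => aeval y (Sum.elim Zp M i)) (Sum.inl i)) = zy := rfl
  -- the triangular matrix is invertible
  have hN : (Matrix.of fun k i : Fin p => lin β B zy k (Sum.inr i)).det ≠ 0 := by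
    rw [det_lin h zy]
    exact pow_ne_zero _ (neg_ne_zero.2 one_ne_zero)
  -- derivative of the Z's
  have hDX : ∀ w, aeval y (dirD u (Zp (Sum.inl w))) = u w := by
    intro w; rw [hX, dirD_X]; simp
  have hb : ∀ k, ∑ i, lin β B zy k i * aeval y (dirD u (Zp i)) = 0 := by
    intro k
    have h1 := deriv_equ (dirD u) α h Zp k
    rw [hz k, map_zero] at h1
    have h2 := congrArg (aeval (R := ℂ) y) h1
    rw [map_zero, map_sum] at h2
    rw [h2]
    refine Finset.sum_congr rfl (fun i _ => ?_)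
    rw [map_mul, lin_map]
  have ha : ∀ k, ∑ i, lin β B zy k i * v (Sum.inl i) = 0 := by
    intro k
    have h1 := congrFun hv (Sum.inr k)
    simp only [Matrix.mulVec, dotProduct, Pi.zero_apply] at h1
    rw [Fintype.sum_sum_type] at h1
    have h2 : ∑ k' : Fin p, hess β B (fun i => aeval y (Sum.elim Zp M i)) (Sum.inr k)
        (Sum.inr k') * v (Sum.inr k') = 0 := by simp [hess]
    rw [h2, add_zero] at h1
    exact h1
  have hζ' : (fun j : Fin p => v (Sum.inl (Sum.inr j)) - aeval y (dirD u (Zp (Sum.inr j)))) = 0 := by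
    refine Matrix.eq_zero_of_mulVec_eq_zero hN ?_
    funext k
    have h1 : ∑ i, lin β B zy k i * (v (Sum.inl i) - aeval y (dirD u (Zp i))) = 0 := by
      simp_rw [mul_sub]
      rw [Finset.sum_sub_distrib, ha, hb, sub_zero]
    rw [Fintype.sum_sum_type] at h1
    have h2 : ∑ w : ι, lin β B zy k (Sum.inl w) *
        (v (Sum.inl (Sum.inl w)) - aeval y (dirD u (Zp (Sum.inl w)))) = 0 := by
      refine Finset.sum_eq_zero (fun w _ => ?_)
      rw [hDX w, hu, sub_self, mul_zero]
    rw [h2, zero_add] at h1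
    simpa [Matrix.mulVec, dotProduct] using h1
  have hζ : ∀ i, v (Sum.inl i) = aeval y (dirD u (Zp i)) := by
    intro i
    rcases i with w | j
    · rw [hDX w]
    · have := congrFun hζ' j
      simpa [sub_eq_zero] using this
  -- derivative of the adjoint equations
  have hc : ∀ i, ∑ k, lin β B zy k i * (v (Sum.inr k) - aeval y (dirD u (M k)))
      = - aeval y (dirD u (adj β B (fun j => C (γ j)) (Sum.elim Zp M) i)) := by
    intro i
    have h1 := congrFun hv (Sum.inl i)
    simp only [Matrix.mulVec, dotProduct, Pi.zero_apply] at h1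
    rw [Fintype.sum_sum_type] at h1
    have h2 : dirD u (adj β B (fun j => C (γ j)) (Sum.elim Zp M) i)
        = ∑ k, (M k * (2 * ∑ j, C (B k i j) * dirD u (Zp j)) + lin β B Zp k i * dirD u (M k)) := by
      unfold adj
      have h3 : dirD u (C (γ i)) = 0 := by
        rw [← algebraMap_eq, Derivation.map_algebraMap]
      simp only [Sum.elim_inl, Sum.elim_inr, map_add, map_sum, Derivation.leibniz, smul_eq_mul,
        h3, zero_add]
      refine Finset.sum_congr rfl (fun k _ => ?_)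
      rw [deriv_lin]
      rfl
    rw [h2, map_sum]
    have h4 : ∑ j, hess β B (fun i => aeval y (Sum.elim Zp M i)) (Sum.inl i) (Sum.inl j) *
        v (Sum.inl j)
        = ∑ k, aeval y (M k * (2 * ∑ j, C (B k i j) * dirD u (Zp j))) := by
      simp only [hess, Sum.elim_inr]
      simp_rw [hζ, map_mul, map_sum, map_mul, map_ofNat, Finset.mul_sum, Finset.sum_mul]
      rw [Finset.sum_comm]
      refine Finset.sum_congr rfl (fun k _ => Finset.sum_congr rfl (fun j _ => ?_))
      simp only [Algebra.algebraMap_self, RingHom.id_apply, aeval_C]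
      ring
    have h5 : ∑ k : Fin p, hess β B (fun i => aeval y (Sum.elim Zp M i)) (Sum.inl i) (Sum.inr k) *
        v (Sum.inr k) = ∑ k, lin β B zy k i * v (Sum.inr k) := by
      simp only [hess]
      rfl
    rw [h4, h5] at h1
    simp_rw [map_add, Finset.sum_add_distrib, mul_sub, Finset.sum_sub_distrib]
    have h6 : ∑ k, aeval y (lin β B Zp k i * dirD u (M k))
        = ∑ k, lin β B zy k i * aeval y (dirD u (M k)) := by
      refine Finset.sum_congr rfl (fun k _ => ?_)
      rw [map_mul, lin_map]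
    rw [h6]
    linear_combination h1
  have hν' : (fun k : Fin p => v (Sum.inr k) - aeval y (dirD u (M k))) = 0 := by
    refine Matrix.eq_zero_of_vecMul_eq_zero hN ?_
    funext j
    have h1 := hc (Sum.inr j)
    rw [hM j, map_zero, map_zero, neg_zero] at h1
    simp only [Matrix.vecMul, dotProduct, Matrix.of_apply, Pi.zero_apply]
    rw [← h1]
    exact Finset.sum_congr rfl (fun k _ => mul_comm _ _)
  have hν : ∀ k, v (Sum.inr k) = aeval y (dirD u (M k)) := by
    intro k
    have := congrFun hν' k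
    simpa [sub_eq_zero] using this
  -- the gradient
  have hgrad : ∀ w, adj β B (fun j => C (γ j)) (Sum.elim Zp M) (Sum.inl w) = pderiv w f := by
    intro w
    have h1 := deriv_out (pderiv w) α h Zp hz γ M hM γ0
    simp only [algebraMap_eq] at h1
    rw [hf, h1, Finset.sum_eq_single w]
    · rw [hX]; simp
    · intro b _ hb
      rw [hX, pderiv_X_of_ne hb, mul_zero]
    · intro h; exact absurd (Finset.mem_univ _) h
  have hu0 : u = 0 := by
    refine Matrix.eq_zero_of_vecMul_eq_zero hy.2 ?_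
    funext w
    have h1 := hc (Sum.inl w)
    rw [hgrad w] at h1
    have h2 : ∑ k, lin β B zy k (Sum.inl w) * (v (Sum.inr k) - aeval y (dirD u (M k))) = 0 := by
      refine Finset.sum_eq_zero (fun k _ => ?_)
      rw [hν k, sub_self, mul_zero]
    rw [h2, dirD_apply, map_sum] at h1
    simp only [Matrix.vecMul, dotProduct, Matrix.of_apply, Pi.zero_apply]
    have h3 : ∑ x, aeval y (C (u x) * pderiv x (pderiv w f))
        = ∑ x, u x * eval y (pderiv x (pderiv w f)) := by
      refine Finset.sum_congr rfl (fun x _ => ?_)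
      simp
    rw [← h3]
    linear_combination h1
  have hD0 : ∀ q, dirD u q = 0 := by
    intro q
    rw [dirD_apply, hu0]
    simp
  funext c
  rcases c with i | k
  · rw [hζ, hD0, map_zero]; rfl
  · rw [hν, hD0, map_zero]; rfl

lemma hess_map {S T : Type*} [CommRing S] [Algebra ℂ S] [CommRing T] [Algebra ℂ T]
    (φ : S →ₐ[ℂ] T) (β : Fin p → (ι ⊕ Fin p) → ℂ)
    (B : Fin p → (ι ⊕ Fin p) → (ι ⊕ Fin p) → ℂ)
    (x : (ι ⊕ Fin p) ⊕ Fin p → S) :
    (hess β B x).map φ = hess β B (fun i => φ (x i)) := by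
  ext r c
  rcases r with i | k <;> rcases c with j | l
  · simp only [hess, Matrix.map_apply, map_mul, map_sum, map_ofNat, AlgHom.commutes]
  · simp only [hess, Matrix.map_apply, lin_map]
  · simp only [hess, Matrix.map_apply, lin_map]
  · simp only [hess, Matrix.map_apply, map_zero]

/-- Few nondegenerate critical points for quadratic straight-line programs. -/
theorem quad_bound {β : Fin p → (ι ⊕ Fin p) → ℂ} {B : Fin p → (ι ⊕ Fin p) → (ι ⊕ Fin p) → ℂ}
    (h : QS β B) (α : Fin p → ℂ) (Zp : (ι ⊕ Fin p) → MvPolynomial ι ℂ)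
    (hX : ∀ v, Zp (Sum.inl v) = X v) (hz : ∀ k, equ α β B Zp k = 0)
    (γ0 : ℂ) (γ : (ι ⊕ Fin p) → ℂ)
    (f : MvPolynomial ι ℂ) (hf : f = C γ0 + ∑ i, C (γ i) * Zp i) (ℓ : ι → ℂ)
    (Z : Finset (ι → ℂ)) (hZ : ∀ y ∈ Z, IsNCP f ℓ y) :
    Z.card ≤ 4 ^ (Fintype.card ι + 2 * p) := by
  classical
  obtain ⟨M, hM⟩ := exists_adjoint h Zp (fun j => (C (γ j) : MvPolynomial ι ℂ))
  let pt : (ι → ℂ) → ((ι ⊕ Fin p) ⊕ Fin p → ℂ) := fun y i => aeval y (Sum.elim Zp M i)
  have hpt : ∀ y v, pt y (Sum.inl (Sum.inl v)) = y v := by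
    intro y v
    simp [pt, hX]
  have hinj : Function.Injective pt := by
    intro y y' hyy
    funext v
    rw [← hpt y v, ← hpt y' v, hyy]
  have hgrad : ∀ w, adj β B (fun j => C (γ j)) (Sum.elim Zp M) (Sum.inl w) = pderiv w f := by
    intro w
    have h1 := deriv_out (pderiv w) α h Zp hz γ M hM γ0
    simp only [algebraMap_eq] at h1
    rw [hf, h1, Finset.sum_eq_single w]
    · rw [hX]; simp
    · intro b _ hb
      rw [hX, pderiv_X_of_ne hb, mul_zero]
    · intro h; exact absurd (Finset.mem_univ _) h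
  -- the shifted linear form
  let γ' : (ι ⊕ Fin p) → ℂ := fun i => γ i - Sum.elim ℓ 0 i
  have hadj : ∀ y ∈ Z, ∀ i, adj β B γ' (pt y) i = 0 := by
    intro y hy i
    have h1 : adj β B γ' (pt y) i = adj β B γ (pt y) i - Sum.elim ℓ 0 i := by
      simp only [adj, γ']; ring
    have h2 : adj β B γ (pt y) i
        = aeval y (adj β B (fun j => C (γ j)) (Sum.elim Zp M) i) := by
      rw [adj_map]
      simp only [aeval_C]
      rfl
    rw [h1, h2]
    rcases i with w | k
    · rw [hgrad w]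
      have := (hZ y hy).1 w
      simp only [Sum.elim_inl]
      rw [← this]
      simp
    · rw [hM k]; simp
  have hequ : ∀ y k, equ α β B (fun i => pt y (Sum.inl i)) k = 0 := by
    intro y k
    have h1 := congrArg (aeval (R := ℂ) y) (hz k)
    rw [equ_map, map_zero] at h1
    exact h1
  let A : Matrix ((ι ⊕ Fin p) ⊕ Fin p) ((ι ⊕ Fin p) ⊕ Fin p)
      (MvPolynomial ((ι ⊕ Fin p) ⊕ Fin p) ℂ) := hess β B X
  have hAev : ∀ x, A.map (eval x) = hess β B x := by
    intro x
    have h1 := hess_map (aeval (R := ℂ) x) β B (X : ((ι ⊕ Fin p) ⊕ Fin p) → MvPolynomial _ ℂ)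
    simp only [aeval_X] at h1
    rw [← h1]
    ext r c
    simp [A]
  have hlin : ∀ k i, (lin β B (fun i => (X (Sum.inl i) : MvPolynomial ((ι ⊕ Fin p) ⊕ Fin p) ℂ))
      k i).totalDegree ≤ 1 := by
    intro k i
    unfold lin
    refine (totalDegree_sub _ _).trans (max_le ?_ ?_)
    · refine (totalDegree_add _ _).trans (max_le ?_ ?_)
      · rw [algebraMap_eq, totalDegree_C]; omega
      · have : (2 : MvPolynomial ((ι ⊕ Fin p) ⊕ Fin p) ℂ) = C 2 := (map_ofNat C 2).symm
        rw [this]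
        refine (totalDegree_mul _ _).trans ?_
        rw [totalDegree_C, zero_add]
        refine totalDegree_finsetSum_le (fun j _ => ?_)
        refine (totalDegree_mul _ _).trans ?_
        rw [algebraMap_eq, totalDegree_C, zero_add, totalDegree_X]
    · split_ifs
      · rw [totalDegree_one]; omega
      · rw [totalDegree_zero]; omega
  have hAdeg : ∀ r c, (A r c).totalDegree ≤ 1 := by
    intro r c
    rcases r with i | k <;> rcases c with j | l
    · show (2 * ∑ k, X (Sum.inr k) * algebraMap ℂ _ (B k i j) :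
        MvPolynomial ((ι ⊕ Fin p) ⊕ Fin p) ℂ).totalDegree ≤ 1
      have : (2 : MvPolynomial ((ι ⊕ Fin p) ⊕ Fin p) ℂ) = C 2 := (map_ofNat C 2).symm
      rw [this]
      refine (totalDegree_mul _ _).trans ?_
      rw [totalDegree_C, zero_add]
      refine totalDegree_finsetSum_le (fun j _ => ?_)
      refine (totalDegree_mul _ _).trans ?_
      rw [algebraMap_eq, totalDegree_C, add_zero, totalDegree_X]
    · exact hlin l i
    · exact hlin k j
    · show (0 : MvPolynomial ((ι ⊕ Fin p) ⊕ Fin p) ℂ).totalDegree ≤ 1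
      rw [totalDegree_zero]; omega
  have hcard : (Z.image pt).card = Z.card := Finset.card_image_of_injective _ hinj
  have hmain := card_le_of_bezout A hAdeg (Z.image pt) ?_ ?_
  · rw [hcard] at hmain
    refine hmain.trans (le_of_eq ?_)
    congr 1
    simp only [Fintype.card_sum, Fintype.card_fin]
    ring
  · intro x hx
    obtain ⟨y, hy, rfl⟩ := Finset.mem_image.1 hx
    rw [hAev]
    exact nondeg h α Zp hX hz γ0 γ M hM f hf ℓ y (hZ y hy)
  · intro x hx x' hx' hne
    obtain ⟨y, hy, rfl⟩ := Finset.mem_image.1 hx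
    obtain ⟨y', hy', rfl⟩ := Finset.mem_image.1 hx'
    rw [hAev, hAev]
    apply Matrix.exists_mulVec_eq_zero_iff.1
    refine ⟨pt y - pt y', sub_ne_zero.2 hne, ?_⟩
    rw [midpoint α β B h.symm γ']
    funext r
    rcases r with i | k
    · simp [hadj y hy i, hadj y' hy' i]
    · simp [hequ y k, hequ y' k]

end Quad

end H1CL
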