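import Pool.Agent.Helper1x.CL.Main

/-!
# Computations over `ℂ(ε)` and limits

A computation over the rational function field whose result is defined at `ε = 0` and
specializes there to `perm_n` gives, by evaluation at small nonzero `ε`, computations over `ℂ`
whose results converge to `perm_n`.
-/

namespace H1CL

open MvPolynomial Filter Topology

section ratfunc

variable {k : Type*} [Field k]

/-- the rational functions defined at `z` -/
noncomputable def localAt (z : k) : Subring (RatFunc k) where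
  carrier := {x | x.denom.eval z ≠ 0}
  zero_mem' := by simp
  one_mem' := by simp
  add_mem' := by
    intro x y hx hy
    obtain ⟨q, hq⟩ := RatFunc.denom_add_dvd x y
    have := congrArg (Polynomial.eval z) hq
    rw [Polynomial.eval_mul, Polynomial.eval_mul] at this
    exact left_ne_zero_of_mul (this ▸ mul_ne_zero hx hy)
  mul_mem' := by
    intro x y hx hy
    obtain ⟨q, hq⟩ := RatFunc.denom_mul_dvd x y
    have := congrArg (Polynomial.eval z) hq
    rw [Polynomial.eval_mul, Polynomial.eval_mul] at this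
    exact left_ne_zero_of_mul (this ▸ mul_ne_zero hx hy)
  neg_mem' := by
    intro x hx
    obtain ⟨q, hq⟩ := RatFunc.denom_mul_dvd (-1) x
    have h1 : (-1 : RatFunc k).denom = 1 := by
      have : (-1 : RatFunc k) = RatFunc.C (-1) := by simp
      rw [this, RatFunc.denom_C]
    rw [h1, one_mul, neg_one_mul] at hq
    have := congrArg (Polynomial.eval z) hq
    rw [Polynomial.eval_mul] at this
    have hx' : x.denom.eval z ≠ 0 := hx
    rw [this] at hx'
    exact left_ne_zero_of_mul hx'

lemma mem_localAt {z : k} {x : RatFunc k} : x ∈ localAt z ↔ x.denom.eval z ≠ 0 := Iff.rfl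

/-- evaluation at `z` -/
noncomputable def evalAt (z : k) : localAt z →+* k where
  toFun x := RatFunc.eval (RingHom.id k) z (x : RatFunc k)
  map_one' := by simp
  map_zero' := by simp
  map_add' := by
    intro x y
    exact RatFunc.eval_add _ _ x.2 y.2
  map_mul' := by
    intro x y
    exact RatFunc.eval_mul _ _ x.2 y.2

end ratfunc

/-- lift a computation to a subring containing all constants -/
lemma exists_lift_comp {K σ : Type*} [Field K] [Fintype σ] {s : ℕ} {P : Finset (Fin s)}
    {g : Fin s → MvPolynomial σ K} (R : Subring K)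
    (c : Fin s → K) (l : Fin s → σ → K) (a : Fin s → Fin s → K)
    (ha : ∀ i, i ∉ P → ∀ j, ¬ j < i → a i j = 0)
    (hfree : ∀ i, i ∉ P → g i = C (c i) + ∑ v, C (l i v) * X v + ∑ j, C (a i j) * g j)
    (hprod : ∀ i, i ∈ P → ∃ x y : Fin s, x < i ∧ y < i ∧ g i = g x * g y)
    (hc : ∀ i, c i ∈ R) (hl : ∀ i v, l i v ∈ R) (haR : ∀ i j, a i j ∈ R) :
    ∃ G : Fin s → MvPolynomial σ R, (∀ i, MvPolynomial.map R.subtype (G i) = g i) ∧
      IsComp P G := by
  have hC : ∀ x ∈ R, (C x : MvPolynomial σ K) ∈ (MvPolynomial.map R.subtype).range := by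
    intro x hx
    exact ⟨C ⟨x, hx⟩, by rw [map_C]; rfl⟩
  have hX : ∀ v, (X v : MvPolynomial σ K) ∈ (MvPolynomial.map R.subtype).range := by
    intro v
    exact ⟨X v, by rw [map_X]⟩
  have hmem : ∀ i, g i ∈ (MvPolynomial.map R.subtype).range := by
    intro i
    induction i using WellFoundedLT.induction with
    | ind i ih => ?_
    by_cases hi : i ∈ P
    · obtain ⟨x, y, hx, hy, h⟩ := hprod i hi
      rw [h]
      exact Subring.mul_mem _ (ih x hx) (ih y hy)
    · rw [hfree i hi]
      refine Subring.add_mem _ (Subring.add_mem _ (hC _ (hc i))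
        (Subring.sum_mem _ (fun v _ => Subring.mul_mem _ (hC _ (hl i v)) (hX v))))
        (Subring.sum_mem _ (fun j _ => ?_))
      by_cases hj : j < i
      · exact Subring.mul_mem _ (hC _ (haR i j)) (ih j hj)
      · rw [ha i hi j hj, C_0, zero_mul]
        exact Subring.zero_mem _
  choose G hG using hmem
  have hinj : Function.Injective (MvPolynomial.map (σ := σ) R.subtype) :=
    MvPolynomial.map_injective _ (Subring.subtype_injective R)
  refine ⟨G, hG, fun i => ⟨fun hi => ?_, fun hi => ?_⟩⟩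
  · obtain ⟨x, y, hx, hy, h⟩ := hprod i hi
    refine ⟨x, y, hx, hy, hinj ?_⟩
    rw [map_mul, hG, hG, hG, h]
  · refine ⟨⟨c i, hc i⟩, fun v => ⟨l i v, hl i v⟩, fun j => ⟨a i j, haR i j⟩,
      fun j hj => Subtype.ext (ha i hi j hj), hinj ?_⟩
    simp only [map_add, map_sum, map_mul, map_C, map_X, hG]
    exact hfree i hi

/-- images of computations under ring homomorphisms -/
lemma IsComp.map {R S σ : Type*} [CommRing R] [CommRing S] [Fintype σ] {s : ℕ}
    {P : Finset (Fin s)} {G : Fin s → MvPolynomial σ R} (hG : IsComp P G) (φ : R →+* S) :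
    IsComp P (fun i => MvPolynomial.map φ (G i)) := by
  intro i
  refine ⟨fun hi => ?_, fun hi => ?_⟩
  · obtain ⟨x, y, hx, hy, h⟩ := (hG i).1 hi
    exact ⟨x, y, hx, hy, by show MvPolynomial.map φ (G i) = _; rw [h, map_mul]⟩
  · obtain ⟨c, l, a, ha, h⟩ := (hG i).2 hi
    refine ⟨φ c, fun v => φ (l v), fun j => φ (a j), fun j hj => by simp [ha j hj], ?_⟩
    simp only [h, map_add, map_sum, map_mul, map_C, map_X]

/-- evaluation of a rational function defined at `0` is continuous at `0` -/
lemma tendsto_eval (x : RatFunc ℂ) (hx : x.denom.eval 0 ≠ 0) :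
    Tendsto (fun z : ℂ => x.eval (RingHom.id ℂ) z) (𝓝 0) (𝓝 (x.eval (RingHom.id ℂ) 0)) := by
  unfold RatFunc.eval
  simp only [Polynomial.eval₂_id]
  exact ((Polynomial.continuous _).tendsto 0).div ((Polynomial.continuous _).tendsto 0) hx

/-- A computation over `ℂ(ε)` whose result specializes to `perm_n` at `ε = 0`. -/
theorem borderComp_of_ratFunc (n p s : ℕ) (P : Finset (Fin s))
    (g : Fin s → MvPolynomial (Fin n × Fin n) (RatFunc ℂ)) (hg : IsComp P g) (hP : P.card ≤ p)
    (out : Fin s)
    (hF : ∀ d, (coeff d (g out)).denom.eval 0 ≠ 0 ∧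
      (coeff d (g out)).eval (RingHom.id ℂ) 0 = coeff d (permPoly n)) :
    BorderComp n p := by
  classical
  -- collect the constants
  have h1 : ∀ i : Fin s, ∃ (c : RatFunc ℂ) (l : Fin n × Fin n → RatFunc ℂ)
      (a : Fin s → RatFunc ℂ), (i ∉ P → ∀ j, ¬ j < i → a j = 0) ∧
      (i ∉ P → g i = C c + ∑ v, C (l v) * X v + ∑ j, C (a j) * g j) := by
    intro i
    by_cases hi : i ∈ P
    · exact ⟨0, 0, 0, fun h => absurd hi h, fun h => absurd hi h⟩
    · obtain ⟨c, l, a, ha, h⟩ := (hg i).2 hi
      exact ⟨c, l, a, fun _ => ha, fun _ => h⟩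
  choose c l a ha hfree using h1
  -- the bad set
  let den : Polynomial ℂ := (∏ i, (c i).denom) * (∏ i, ∏ v, (l i v).denom) *
    (∏ i, ∏ j, (a i j).denom)
  have hden : den ≠ 0 := by
    refine mul_ne_zero (mul_ne_zero ?_ ?_) ?_
    · exact Finset.prod_ne_zero_iff.2 (fun i _ => RatFunc.denom_ne_zero _)
    · exact Finset.prod_ne_zero_iff.2 (fun i _ =>
        Finset.prod_ne_zero_iff.2 (fun v _ => RatFunc.denom_ne_zero _))
    · exact Finset.prod_ne_zero_iff.2 (fun i _ =>
        Finset.prod_ne_zero_iff.2 (fun j _ => RatFunc.denom_ne_zero _))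
  have hgood : ∀ z : ℂ, den.eval z ≠ 0 → (∀ i, c i ∈ localAt z) ∧ (∀ i v, l i v ∈ localAt z) ∧
      (∀ i j, a i j ∈ localAt z) := by
    intro z hz
    simp only [den, Polynomial.eval_mul, Polynomial.eval_prod] at hz
    have hz1 := left_ne_zero_of_mul (left_ne_zero_of_mul hz)
    have hz2 := right_ne_zero_of_mul (left_ne_zero_of_mul hz)
    have hz3 := right_ne_zero_of_mul hz
    refine ⟨fun i => ?_, fun i v => ?_, fun i j => ?_⟩
    · exact Finset.prod_ne_zero_iff.1 hz1 i (Finset.mem_univ i)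
    · exact Finset.prod_ne_zero_iff.1 (Finset.prod_ne_zero_iff.1 hz2 i (Finset.mem_univ i)) v
        (Finset.mem_univ v)
    · exact Finset.prod_ne_zero_iff.1 (Finset.prod_ne_zero_iff.1 hz3 i (Finset.mem_univ i)) j
        (Finset.mem_univ j)
  have hev : ∀ᶠ z : ℂ in 𝓝[≠] 0, den.eval z ≠ 0 := by
    have hfin : (den.roots.toFinset : Set ℂ).Finite := Finset.finite_toSet _
    have h2 : ∀ᶠ z : ℂ in 𝓝[≠] 0, z ∉ ((den.roots.toFinset : Set ℂ) \ {0}) := by
      apply mem_nhdsWithin_of_mem_nhds
      exact (hfin.subset Set.sdiff_subset).isClosed.isOpen_compl.mem_nhds (by simp)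
    have h3 : ∀ᶠ z : ℂ in 𝓝[≠] 0, z ≠ 0 := eventually_mem_nhdsWithin
    filter_upwards [h2, h3] with z hz hz0 hz1
    apply hz
    refine ⟨?_, hz0⟩
    simp only [Finset.mem_coe, Multiset.mem_toFinset]
    exact (Polynomial.mem_roots hden).2 hz1
  -- the sequence
  have hseq : Tendsto (fun t : ℕ => (1 / ((t : ℂ) + 1))) atTop (𝓝[≠] 0) := by
    refine tendsto_nhdsWithin_iff.2 ⟨?_, Eventually.of_forall (fun t => ?_)⟩
    · exact tendsto_one_div_add_atTop_nhds_zero_nat
    · simp only [Set.mem_compl_iff, Set.mem_singleton_iff]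
      have : ((t : ℂ) + 1) ≠ 0 := by exact_mod_cast Nat.succ_ne_zero t
      exact one_div_ne_zero this
  obtain ⟨t0, ht0⟩ := Filter.eventually_atTop.1 (hseq.eventually hev)
  let z : ℕ → ℂ := fun t => 1 / (((t + t0 : ℕ) : ℂ) + 1)
  have hz : ∀ t, den.eval (z t) ≠ 0 := fun t => ht0 (t + t0) (by omega)
  have hz0 : Tendsto z atTop (𝓝 0) := by
    have := (hseq.mono_right nhdsWithin_le_nhds).comp (tendsto_add_atTop_nat t0)
    exact this
  have hlift : ∀ t, ∃ G : Fin s → MvPolynomial (Fin n × Fin n) (localAt (z t)),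
      (∀ i, MvPolynomial.map (localAt (z t)).subtype (G i) = g i) ∧ IsComp P G := by
    intro t
    obtain ⟨hc, hl, haR⟩ := hgood (z t) (hz t)
    exact exists_lift_comp (localAt (z t)) c l a ha hfree (fun i hi => (hg i).1 hi) hc hl haR
  choose G hG hGc using hlift
  refine ⟨fun _ => s, fun _ => P, fun t i => MvPolynomial.map (evalAt (z t)) (G t i),
    fun _ => out, fun t => (hGc t).map (evalAt (z t)), fun _ => hP, fun μ => ?_⟩
  have h2 : ∀ t, coeff μ (MvPolynomial.map (evalAt (z t)) (G t out))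
      = (coeff μ (g out)).eval (RingHom.id ℂ) (z t) := by
    intro t
    rw [coeff_map]
    have h3 : ((coeff μ (G t out) : localAt (z t)) : RatFunc ℂ) = coeff μ (g out) := by
      rw [← hG t out, coeff_map]
      rfl
    rw [← h3]
    rfl
  simp_rw [h2]
  rw [← (hF μ).2]
  exact (tendsto_eval _ (hF μ).1).comp hz0

end H1CL
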