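import Pool.Agent.Helper1x.CL.Stm

/-!
# Sub-lemmas for `StmGadget`, as `Prop`-valued definitions (nothing is proved here)

`top` is the coefficient of the all-ones monomial.  Each lemma is over an arbitrary
commutative ring `S` (`ℂ`-algebra for the enforcer), so that it can be applied with `S` a
polynomial ring in the remaining columns.
-/

namespace H1CL

open MvPolynomial

/-- coefficient of the all-ones (squarefree, full) monomial -/
noncomputable def top {K S : Type} [Fintype K] [CommRing S] : MvPolynomial K S →ₗ[S] S :=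
  lcoeff S (Finsupp.equivFunOnFinite.symm (1 : K → ℕ))

/-- T1: permanents are `top` of products of linear forms. -/
def StmTop1 : Prop :=
  ∀ (r K S : Type) [Fintype r] [DecidableEq r] [Fintype K] [DecidableEq K] [CommRing S]
    (M : r → K → S), top (∏ i, ∑ x, C (M i x) * X x) = rperm M

/-- T2: nesting (Fubini). -/
def StmTop2 : Prop :=
  ∀ (K D S : Type) [Fintype K] [Fintype D] [CommRing S] (p : MvPolynomial (K ⊕ D) S),
    top p = top (top (sumAlgEquiv S K D p))

/-- T3: eliminating the variables `κ_x`. -/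
def StmTop3 : Prop :=
  ∀ (K S : Type) [Fintype K] [CommRing S] (a b c : K → S),
    top (∏ x, (X x + C (a x)) * (X x + C (b x)) * (X x + C (c x)))
      = ∏ x, (a x * b x + a x * c x + b x * c x)

/-- T4: the enforcer of one layer. -/
def StmTop4 : Prop :=
  ∀ (k : ℕ) (_ : 1 ≤ k) (ζ : ℂ) (_ : IsPrimitiveRoot ζ k) (G S : Type) [Fintype G]
    [Nonempty G] [CommRing S] [Algebra ℂ S] (Γ : G → S),
    top (∏ g : G, ∏ i : Fin k, ((∑ b : Fin (k * (Fintype.card G - 1)), X b)
        - C (algebraMap ℂ S (ζ ^ (i : ℕ)) * Γ g)))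
      = - ((k * (Fintype.card G - 1)).factorial : S) * ∑ g, Γ g ^ k

/-- T5: the exit columns. -/
def StmTop5 : Prop :=
  ∀ (P S : Type) [Fintype P] [CommRing S] (t : ℕ) (_ : Fintype.card P = t) (a b : P → S),
    top (∏ p, (C (a p) * (∑ i : Fin t, X i) + C (b p))) = (t.factorial : S) * ∏ p, a p

/-- T6: eliminating the variables `c'_x`, injective case. -/
def StmTop6 : Prop :=
  ∀ (P K S : Type) [Fintype P] [Fintype K] [DecidableEq K] [CommRing S] (u v : K → S)
    (e : P → K) (_ : Function.Injective e),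
    top ((∏ x, (C (u x) - (C (v x) + X x) ^ 2)) * ∏ p, X (e p))
      = (∏ x ∈ Finset.univ.filter (fun x => ∀ p, e p ≠ x), (-2 * v x))
          * ∏ p, (u (e p) - v (e p) ^ 2)

/-- T7: non-injective sequences vanish. -/
def StmTop7 : Prop :=
  ∀ (P K S : Type) [Fintype P] [Fintype K] [CommRing S] (q : MvPolynomial K S)
    (e : P → K) (_ : ¬ Function.Injective e), top (q * ∏ p, X (e p)) = 0

/-- T8: the variables `c_x` of one layer. -/
def StmTop8 : Prop :=
  ∀ (P K S : Type) [Fintype P] [DecidableEq P] [Fintype K] [DecidableEq K] [CommRing S]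
    (e : P → K) (_ : Function.Injective e) (a : P → K → S),
    top ((∏ x ∈ Finset.univ.filter (fun x => ∀ p, e p ≠ x), X x)
        * ∏ p, ∑ x, C (a p x) * X x)
      = ∑ ρ : Equiv.Perm P, ∏ p, a p (e (ρ p))

end H1CL
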